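import Mathlib

set_option autoImplicit false

open Finset PowerSeries

namespace Pool.Agent.P.MP_8cdae7_nt

abbrev R2 := MvPolynomial (Fin 2) ℚ

/-- Power series whose `n`-th coefficient has degree at most `J + n` in each variable. -/
def Cl (J : ℕ) (f : R2⟦X⟧) : Prop := ∀ n i, (coeff n f).degreeOf i ≤ J + n

theorem Cl.mono {J J' : ℕ} {f : R2⟦X⟧} (h : Cl J f) (hJ : J ≤ J') : Cl J' f :=
  fun n i => (h n i).trans (by omega)

theorem Cl.mul {J J' : ℕ} {f g : R2⟦X⟧} (hf : Cl J f) (hg : Cl J' g) : Cl (J + J') (f * g) := by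
  intro n i
  rw [coeff_mul]
  refine (MvPolynomial.degreeOf_sum_le _ _ _).trans (Finset.sup_le fun ij hij => ?_)
  have := mem_antidiagonal.1 hij
  refine (MvPolynomial.degreeOf_mul_le _ _ _).trans ?_
  have := hf ij.1 i
  have := hg ij.2 i
  omega

theorem Cl.one : Cl 0 1 := by
  intro n i
  rw [coeff_one]
  split_ifs <;> simp

theorem Cl.pow {J : ℕ} {f : R2⟦X⟧} (hf : Cl J f) (k : ℕ) : Cl (k * J) (f ^ k) := by
  induction k with
  | zero => simpa using Cl.one
  | succ k ih => rw [pow_succ, Nat.succ_mul]; exact ih.mul hf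

theorem Cl.sum {ι : Type*} [Fintype ι] {J : ℕ} {f : ι → R2⟦X⟧} (hf : ∀ k, Cl J (f k))
    (c : ι → ℚ) : Cl J (∑ k, c k • f k) := by
  intro n i
  rw [map_sum]
  refine (MvPolynomial.degreeOf_sum_le _ _ _).trans (Finset.sup_le fun k _ => ?_)
  have : coeff n (c k • f k) = MvPolynomial.C (c k) * coeff n (f k) := by
    rw [← MvPolynomial.smul_eq_C_mul]; rfl
  rw [this]
  exact (MvPolynomial.degreeOf_C_mul_le _ _ _).trans (hf k n i)

def Idx (J L : ℕ) : Finset (Σ _ : ℕ, ℕ × ℕ) :=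
  (range L).sigma fun n => range (J + n + 1) ×ˢ range (J + n + 1)

def sg (J L : ℕ) : ℕ := ∑ n ∈ range L, (J + n + 1) ^ 2

theorem card_Idx (J L : ℕ) : Fintype.card (Idx J L) = sg J L := by
  rw [Fintype.card_coe]
  simp [Idx, sg, sq]

noncomputable def ex (x : Σ _ : ℕ, ℕ × ℕ) : Fin 2 →₀ ℕ :=
  Finsupp.single 0 x.2.1 + Finsupp.single 1 x.2.2

theorem ex_zero (x : Σ _ : ℕ, ℕ × ℕ) : ex x 0 = x.2.1 := by simp [ex]
theorem ex_one (x : Σ _ : ℕ, ℕ × ℕ) : ex x 1 = x.2.2 := by simp [ex]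

noncomputable def co (x : Σ _ : ℕ, ℕ × ℕ) : R2⟦X⟧ →ₗ[ℚ] ℚ :=
  (MvPolynomial.lcoeff ℚ (ex x)).comp ((coeff x.1 : R2⟦X⟧ →ₗ[R2] R2).restrictScalars ℚ)

theorem co_apply (x : Σ _ : ℕ, ℕ × ℕ) (f : R2⟦X⟧) :
    co x f = MvPolynomial.coeff (ex x) (coeff x.1 f) := rfl

theorem lindep {ι : Type*} [Fintype ι] (f : ι → R2⟦X⟧) (J L : ℕ) (hf : ∀ k, Cl J (f k))
    (hcard : sg J L < Fintype.card ι) :
    ∃ c : ι → ℚ, c ≠ 0 ∧ (X : R2⟦X⟧) ^ L ∣ ∑ k, c k • f k := by
  let Θ : (ι → ℚ) →ₗ[ℚ] (Idx J L → ℚ) :=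
    LinearMap.pi fun x => (co x.1).comp (Fintype.linearCombination ℚ f)
  have hker : LinearMap.ker Θ ≠ ⊥ := LinearMap.ker_ne_bot_of_finrank_lt (by
    rw [Module.finrank_fintype_fun_eq_card, Module.finrank_fintype_fun_eq_card, card_Idx]
    exact hcard)
  obtain ⟨c, hc, hc0⟩ := (Submodule.ne_bot_iff _).1 hker
  refine ⟨c, hc0, ?_⟩
  rw [X_pow_dvd_iff]
  intro n hn
  by_contra h
  obtain ⟨m, hm⟩ := MvPolynomial.ne_zero_iff.1 h
  have hm' := MvPolynomial.mem_support_iff.2 hm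
  have h0 := (MvPolynomial.monomial_le_degreeOf 0 hm').trans (Cl.sum hf c n 0)
  have h1 := (MvPolynomial.monomial_le_degreeOf 1 hm').trans (Cl.sum hf c n 1)
  have hx : (⟨n, (m 0, m 1)⟩ : Σ _ : ℕ, ℕ × ℕ) ∈ Idx J L := by
    simp only [Idx, Finset.mem_sigma, Finset.mem_range, Finset.mem_product]
    omega
  have h2 : Θ c ⟨_, hx⟩ = 0 := by rw [LinearMap.mem_ker.1 hc]; rfl
  have h3 : ex ⟨n, (m 0, m 1)⟩ = m := by
    ext i; fin_cases i
    · exact ex_zero _
    · exact ex_one _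
  apply hm
  rw [← h3, ← h2]
  simp only [Θ, LinearMap.pi_apply, LinearMap.comp_apply, co_apply,
    Fintype.linearCombination_apply]

noncomputable def mono2 (x : Σ _ : ℕ, ℕ × ℕ) : R2⟦X⟧ :=
  monomial x.1 (MvPolynomial.monomial (ex x) 1)

theorem Cl_mono2 {J L : ℕ} (x : Idx J L) : Cl J (mono2 x.1) := by
  classical
  intro n i
  have hx := x.2
  simp only [Idx, Finset.mem_sigma, Finset.mem_range, Finset.mem_product] at hx
  rw [mono2, coeff_monomial]
  split_ifs with h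
  · rw [MvPolynomial.degreeOf_monomial_eq _ _ one_ne_zero]
    fin_cases i
    · have := ex_zero x.1
      simp only [Fin.zero_eta]; omega
    · have := ex_one x.1
      simp only [Fin.mk_one]; omega
  · simp

theorem co_mono2 (x y : Σ _ : ℕ, ℕ × ℕ) : co x (mono2 y) = if y = x then 1 else 0 := by
  classical
  rw [co_apply, mono2, coeff_monomial]
  by_cases h : y = x
  · subst h; simp
  · rw [if_neg h]
    split_ifs with h1
    · rw [MvPolynomial.coeff_monomial, if_neg]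
      intro h2
      apply h
      have h3 := congrArg (fun m => m 0) h2
      have h4 := congrArg (fun m => m 1) h2
      simp only [ex_zero, ex_one] at h3 h4
      exact Sigma.ext h1.symm (heq_of_eq (Prod.ext h3 h4))
    · simp

theorem mono2_indep {J L : ℕ} (d : Idx J L → ℚ)
    (h : (X : R2⟦X⟧) ^ L ∣ ∑ x, d x • mono2 x.1) : d = 0 := by
  classical
  funext x
  have hx := x.2
  simp only [Idx, Finset.mem_sigma, Finset.mem_range, Finset.mem_product] at hx
  have h1 : co x.1 (∑ x, d x • mono2 x.1) = 0 := by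
    rw [co_apply, X_pow_dvd_iff.1 h _ hx.1]; simp
  rw [map_sum, Finset.sum_eq_single x] at h1
  · simpa [co_mono2] using h1
  · intro y _ hy
    rw [map_smul, co_mono2, if_neg (fun h => hy (Subtype.ext h))]; simp
  · simp

theorem lindep2 {ι : Type*} [Fintype ι] (f : ι → R2⟦X⟧) (S : R2⟦X⟧) (J Jh L : ℕ)
    (hf : ∀ k, Cl (J + Jh) (f k)) (hS : Cl Jh S) (hS0 : S ≠ 0)
    (hcard : sg (J + Jh) L < Fintype.card ι + sg J (L - S.order.toNat)) :
    ∃ c : ι → ℚ, c ≠ 0 ∧ ∃ g : R2⟦X⟧, (X : R2⟦X⟧) ^ L ∣ ∑ k, c k • f k + g * S := by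
  obtain ⟨c, hc0, hc⟩ := lindep (ι := ι ⊕ Idx J (L - S.order.toNat))
    (Sum.elim f fun x => mono2 x.1 * S) (J + Jh) L
    (by
      rintro (k | x)
      · exact hf k
      · exact (Cl_mono2 x).mul hS)
    (by rw [Fintype.card_sum, card_Idx]; exact hcard)
  rw [Fintype.sum_sum_type] at hc
  simp only [Sum.elim_inl, Sum.elim_inr, ← smul_mul_assoc, ← Finset.sum_mul] at hc
  refine ⟨fun k => c (Sum.inl k), fun h0 => hc0 ?_, _, hc⟩
  have h1 : ∀ k, c (Sum.inl k) = 0 := fun k => congrFun h0 k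
  simp only [h1, zero_smul, Finset.sum_const_zero, zero_add] at hc
  have h2 : (X : R2⟦X⟧) ^ (L - S.order.toNat) ∣
      ∑ x : Idx J (L - S.order.toNat), c (Sum.inr x) • mono2 x.1 := by
    set g := ∑ x : Idx J (L - S.order.toNat), c (Sum.inr x) • mono2 x.1
    clear_value g
    rcases le_total L S.order.toNat with h | h
    · rw [Nat.sub_eq_zero_of_le h, pow_zero]; exact one_dvd _
    · have h3 : (X : R2⟦X⟧) ^ S.order.toNat * X ^ (L - S.order.toNat) ∣
          X ^ S.order.toNat * (divXPowOrder S * g) := by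
        rw [← pow_add, Nat.add_sub_cancel' h, ← mul_assoc, X_pow_order_mul_divXPowOrder, mul_comm]
        exact hc
      rw [mul_dvd_mul_iff_left (pow_ne_zero _ X_ne_zero)] at h3
      refine X_prime.pow_dvd_of_dvd_mul_left _ ?_ h3
      rw [X_dvd_iff, constantCoeff_divXPowOrder_eq_zero_iff]
      exact hS0
  have h4 := mono2_indep _ h2
  funext k
  rcases k with k | x
  · exact h1 k
  · exact congrFun h4 x

theorem sg_le (J L : ℕ) : sg J L ≤ L * (J + L) ^ 2 := by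
  calc sg J L ≤ ∑ _n ∈ range L, (J + L) ^ 2 := Finset.sum_le_sum fun n hn =>
        Nat.pow_le_pow_left (by have := Finset.mem_range.1 hn; omega) 2
    _ = _ := by simp

theorem num1 (c0 : ℕ) : ∃ D : ℕ, sg (2 * D) (c0 * D + 1) < (D + 1) ^ 4 := by
  refine ⟨(c0 + 2) ^ 3, ?_⟩
  set D := (c0 + 2) ^ 3 with hD
  calc sg (2 * D) (c0 * D + 1) ≤ (c0 * D + 1) * (2 * D + (c0 * D + 1)) ^ 2 := sg_le _ _
    _ ≤ ((c0 + 2) * (D + 1)) * ((c0 + 2) * (D + 1)) ^ 2 := by
        gcongr <;> nlinarith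
    _ = D * (D + 1) ^ 3 := by rw [hD]; ring
    _ < (D + 1) * (D + 1) ^ 3 := by gcongr; omega
    _ = _ := by ring

theorem sg_sub (J L n0 : ℕ) : sg J L ≤ sg J (L - n0) + n0 * (J + L) ^ 2 := by
  induction n0 with
  | zero => simp
  | succ n ih =>
    refine ih.trans ?_
    have : sg J (L - n) ≤ sg J (L - (n + 1)) + (J + L) ^ 2 := by
      rcases Nat.eq_zero_or_pos (L - n) with h | h
      · rw [h]; simp [sg]
      · obtain ⟨u, hu⟩ : ∃ u, L - n = u + 1 := ⟨L - n - 1, by omega⟩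
        have : L - (n + 1) = u := by omega
        rw [hu, this, sg, Finset.sum_range_succ, ← sg]
        exact Nat.add_le_add_left (Nat.pow_le_pow_left (by omega) 2) _
    rw [Nat.succ_mul]; omega

theorem sg_shift (J Jh L : ℕ) : sg (J + Jh) L ≤ sg J L + L * (2 * Jh * (J + Jh + L)) := by
  calc sg (J + Jh) L ≤ ∑ n ∈ range L, ((J + n + 1) ^ 2 + 2 * Jh * (J + Jh + L)) :=
        Finset.sum_le_sum fun n hn => by
          have := Finset.mem_range.1 hn
          have h2 : Jh * (n + 1) ≤ Jh * L := Nat.mul_le_mul_left _ this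
          nlinarith
    _ = _ := by rw [Finset.sum_add_distrib, ← sg]; simp

theorem num2 (c0 Jh n0 : ℕ) : ∃ D J : ℕ, J + Jh = 2 * D ∧
    sg (J + Jh) (c0 * D + 1) < (D + 1) ^ 3 + sg J (c0 * D + 1 - n0) := by
  set D := (n0 + 2 * Jh) * (c0 + 2) ^ 2 + Jh with hD
  refine ⟨D, 2 * D - Jh, by omega, ?_⟩
  have h0 : 2 * D - Jh + Jh = 2 * D := by omega
  have h1 := sg_sub (2 * D - Jh + Jh) (c0 * D + 1) n0
  have h2 := sg_shift (2 * D - Jh) Jh (c0 * D + 1 - n0)
  set E := (c0 + 2) * (D + 1) with hE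
  have h3 : 2 * D + (c0 * D + 1) ≤ E := by rw [hE]; nlinarith
  have h4 : n0 * (2 * D - Jh + Jh + (c0 * D + 1)) ^ 2 ≤ n0 * E ^ 2 := by
    rw [h0]; gcongr
  have h5 : (c0 * D + 1 - n0) * (2 * Jh * (2 * D - Jh + Jh + (c0 * D + 1 - n0))) ≤
      E * (2 * Jh * E) := by
    rw [h0]; gcongr <;> omega
  have h6 : n0 * E ^ 2 + E * (2 * Jh * E) < (D + 1) ^ 3 := by
    calc n0 * E ^ 2 + E * (2 * Jh * E) = ((n0 + 2 * Jh) * (c0 + 2) ^ 2) * (D + 1) ^ 2 := by
          rw [hE]; ring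
      _ < (D + 1) * (D + 1) ^ 2 := by gcongr; omega
      _ = _ := by ring
  omega

/-- Evaluation of a power series modulo `e ^ L`. -/
noncomputable def piL {R O : Type*} [CommRing R] [CommRing O] (φ : R →+* O) (e : O) (L : ℕ) :
    R⟦X⟧ →+* O ⧸ Ideal.span {e ^ L} where
  toFun f := Ideal.Quotient.mk _ (Polynomial.eval₂ φ e (trunc L f))
  map_one' := by
    rcases L with _ | L
    · rw [← map_one (Ideal.Quotient.mk _), Ideal.Quotient.eq, Ideal.mem_span_singleton]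
      simp
    · simp
  map_mul' f g := by
    rw [← map_mul, Ideal.Quotient.eq, Ideal.mem_span_singleton, ← Polynomial.eval₂_mul,
      ← Polynomial.eval₂_sub]
    have h : (Polynomial.X : Polynomial R) ^ L ∣ trunc L (f * g) - trunc L f * trunc L g := by
      rw [Polynomial.X_pow_dvd_iff]
      intro d hd
      rw [Polynomial.coeff_sub, coeff_trunc, if_pos hd, coeff_mul_eq_coeff_trunc_mul_trunc f g hd,
        ← Polynomial.coe_mul, Polynomial.coeff_coe, sub_self]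
    simpa using map_dvd (Polynomial.eval₂RingHom φ e) h
  map_zero' := by simp
  map_add' f g := by simp [Polynomial.eval₂_add]

theorem piL_eq {R O : Type*} [CommRing R] [CommRing O] (φ : R →+* O) (e : O) (L : ℕ)
    (f : R⟦X⟧) (y : O) : piL φ e L f = Ideal.Quotient.mk _ y ↔
      e ^ L ∣ y - ∑ n ∈ range L, φ (coeff n f) * e ^ n := by
  show Ideal.Quotient.mk _ (Polynomial.eval₂ φ e (trunc L f)) = _ ↔ _
  rw [eq_comm, Ideal.Quotient.eq, Ideal.mem_span_singleton, eval₂_trunc_eq_sum_range]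

theorem piL_C {R O : Type*} [CommRing R] [CommRing O] (φ : R →+* O) (e : O) (L : ℕ) (r : R) :
    piL φ e L (C r) = Ideal.Quotient.mk _ (φ r) := by
  rw [piL_eq]
  rcases L with _ | L
  · simp
  · simp [Finset.sum_range_succ', coeff_C]

theorem piL_X {R O : Type*} [CommRing R] [CommRing O] (φ : R →+* O) (e : O) (L : ℕ) :
    piL φ e L X = Ideal.Quotient.mk _ e := by
  rw [piL_eq]
  rcases L with _ | _ | L
  · simp
  · simp
  · simp [coeff_X]

end Pool.Agent.P.MP_8cdae7_nt
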