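import Mathlib

set_option autoImplicit false

open Polynomial Finset

namespace Pool.Agent.P.MP_8cdae7_nt

/-- The integers `bb n = ∑ i ≥ 0, i ^ n / 2 ^ i`. -/
def bb (n : ℕ) : ℤ := if n = 0 then 2 else ∑ j : Fin n, (n.choose j : ℤ) * bb j
termination_by n
decreasing_by exact j.2

theorem bb_zero : bb 0 = 2 := by rw [bb]; simp

theorem bb_succ (n : ℕ) : bb (n + 1) = ∑ j ∈ range (n + 1), ((n + 1).choose j : ℤ) * bb j := by
  rw [bb, if_neg (Nat.succ_ne_zero n)]
  exact Fin.sum_univ_eq_sum_range (fun j => ((n + 1).choose j : ℤ) * bb j) (n + 1)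

theorem bb_one : bb 1 = 2 := by
  rw [bb_succ]; simp [bb_zero]

theorem bb_two : bb 2 = 6 := by
  rw [bb_succ]; simp [Finset.sum_range_succ, bb_zero, bb_one]

theorem bb_three : bb 3 = 26 := by
  rw [bb_succ]; simp [Finset.sum_range_succ, bb_zero, bb_one, bb_two]

theorem bb_prime {p : ℕ} (hp : p.Prime) : (p : ℤ) ∣ bb p - 2 := by
  obtain ⟨n, rfl⟩ : ∃ n, p = n + 1 := ⟨p - 1, by have := hp.pos; omega⟩
  rw [bb_succ, Finset.sum_range_succ']
  simp only [Nat.choose_zero_right, Nat.cast_one, one_mul, bb_zero, add_sub_cancel_right]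
  refine Finset.dvd_sum fun j hj => Dvd.dvd.mul_right ?_ _
  have hj' := Finset.mem_range.1 hj
  exact_mod_cast hp.dvd_choose_self (Nat.succ_ne_zero j) (by omega)

theorem summable_mom (n : ℕ) : Summable (fun i : ℕ => (i : ℝ) ^ n * (1 / 2 : ℝ) ^ i) :=
  summable_pow_mul_geometric_of_norm_lt_one n (by rw [Real.norm_eq_abs, abs_of_pos] <;> norm_num)

theorem hasSum_bb (n : ℕ) : HasSum (fun i : ℕ => (i : ℝ) ^ n * (1 / 2 : ℝ) ^ i) (bb n) := by
  induction n using Nat.strong_induction_on with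
  | _ n ih =>
    rcases n with _ | n
    · simpa [bb_zero] using hasSum_geometric_two
    · set s := ∑' i : ℕ, (i : ℝ) ^ (n + 1) * (1 / 2 : ℝ) ^ i with hs
      have h1 : HasSum (fun i : ℕ => (i : ℝ) ^ (n + 1) * (1 / 2 : ℝ) ^ i) s :=
        (summable_mom (n + 1)).hasSum
      have h2 : HasSum (fun i : ℕ => ((i + 1 : ℕ) : ℝ) ^ (n + 1) * (1 / 2 : ℝ) ^ (i + 1)) s := by
        have := (hasSum_nat_add_iff' (f := fun i : ℕ => (i : ℝ) ^ (n + 1) * (1 / 2 : ℝ) ^ i) 1).2 h1
        simpa using this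
      have h3 : HasSum (fun i : ℕ => (1 / 2 : ℝ) * (∑ j ∈ range (n + 1),
          ((n + 1).choose j : ℝ) * ((i : ℝ) ^ j * (1 / 2 : ℝ) ^ i) +
          (i : ℝ) ^ (n + 1) * (1 / 2 : ℝ) ^ i))
          ((1 / 2 : ℝ) * (∑ j ∈ range (n + 1), ((n + 1).choose j : ℝ) * (bb j : ℝ) + s)) := by
        refine HasSum.mul_left _ (HasSum.add ?_ h1)
        exact hasSum_sum fun j hj => (ih j (Finset.mem_range.1 hj)).mul_left _
      have h4 : s = (1 / 2 : ℝ) * (∑ j ∈ range (n + 1), ((n + 1).choose j : ℝ) * (bb j : ℝ) + s) := by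
        refine h2.unique ?_
        convert h3 using 2 with i
        push_cast
        rw [add_pow, Finset.sum_range_succ, pow_succ (1 / 2 : ℝ) i, add_mul, mul_add,
          Finset.sum_mul, Finset.mul_sum]
        congr 1
        · refine Finset.sum_congr rfl fun j _ => ?_
          ring
        · simp; ring
      have h5 : (bb (n + 1) : ℝ) = s := by
        rw [bb_succ]; push_cast; linarith
      rw [h5]; exact h1

/-- The moment functional `I ^ n ↦ bb n`. -/
noncomputable def mom {P : Type*} [CommRing P] (f : P[X]) : P := f.sum fun n c => (bb n : P) * c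

theorem hasSum_mom {P : Type*} [CommRing P] (φ : P →+* ℝ) (f : P[X]) :
    HasSum (fun i : ℕ => eval₂ φ (i : ℝ) f * (1 / 2 : ℝ) ^ i) (φ (mom f)) := by
  unfold mom
  simp only [eval₂_eq_sum, Polynomial.sum_def, map_sum, Finset.sum_mul]
  refine hasSum_sum fun n _ => ?_
  have := (hasSum_bb n).mul_left (φ (f.coeff n))
  have e1 : (fun i : ℕ => φ (f.coeff n) * (i : ℝ) ^ n * (1 / 2 : ℝ) ^ i) =
      fun i : ℕ => φ (f.coeff n) * ((i : ℝ) ^ n * (1 / 2 : ℝ) ^ i) := by
    funext i; rw [mul_assoc]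
  rw [e1, map_mul, map_intCast, mul_comm]
  exact this

/-- The linear coefficients of the expansion. -/
def lam (s : ℕ) : ℚ := bb (s + 1) / (2 * (s + 1))

theorem lam_one : lam 1 = 3 / 2 := by
  unfold lam; rw [bb_two]; norm_num

theorem lam_two : lam 2 = 13 / 3 := by
  unfold lam; rw [bb_three]; norm_num

/-- The truncated fixed point equation `w = HH N H x y w`. -/
noncomputable def HH {A : Type*} [CommRing A] [Algebra ℚ A] (N : ℕ)
    (H : Fin 3 → MvPolynomial (Fin 3) ℚ) (x y w : A) : A :=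
  -y * ∑ s ∈ range N, algebraMap ℚ A (lam (s + 1)) * x ^ s +
    w ^ 2 * MvPolynomial.aeval ![x, y, w] (H 0) + w * y * MvPolynomial.aeval ![x, y, w] (H 1) +
    y ^ 2 * MvPolynomial.aeval ![x, y, w] (H 2)

theorem map_HH {A B : Type*} [CommRing A] [Algebra ℚ A] [CommRing B] [Algebra ℚ B]
    (φ : A →ₐ[ℚ] B) (N : ℕ) (H : Fin 3 → MvPolynomial (Fin 3) ℚ) (x y w : A) :
    φ (HH N H x y w) = HH N H (φ x) (φ y) (φ w) := by
  have h : ∀ Q : MvPolynomial (Fin 3) ℚ, φ (MvPolynomial.aeval ![x, y, w] Q) =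
      MvPolynomial.aeval ![φ x, φ y, φ w] Q := by
    intro Q
    rw [← AlgHom.comp_apply, MvPolynomial.comp_aeval]
    congr 2
    ext i; fin_cases i <;> rfl
  simp only [HH, map_add, map_mul, map_neg, map_sum, map_pow, AlgHom.commutes, h]

end Pool.Agent.P.MP_8cdae7_nt
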