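import Mathlib
import Pool.Agent.P.MP_8cdae7_nt.Mom

set_option autoImplicit false

open Finset Polynomial

namespace Pool.Agent.P.MP_8cdae7_nt

/-- Truncated series `∑ j < N, ψ j (b) * e ^ j`. -/
noncomputable def ts {A : Type*} [CommRing A] [Algebra ℚ A] (ψ : ℕ → ℚ[X]) (N : ℕ) (b e : A) : A :=
  ∑ j ∈ range N, aeval b (ψ j) * e ^ j

theorem map_ts {A B : Type*} [CommRing A] [Algebra ℚ A] [CommRing B] [Algebra ℚ B]
    (φ : A →ₐ[ℚ] B) (ψ : ℕ → ℚ[X]) (N : ℕ) (b e : A) :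
    φ (ts ψ N b e) = ts ψ N (φ b) (φ e) := by
  simp only [ts, map_sum, map_mul, map_pow, aeval_algHom_apply]

theorem dvd_aeval_sub {A σ : Type*} [CommRing A] [Algebra ℚ A] {d : A} {u u' : σ → A}
    (h : ∀ i, d ∣ u i - u' i) (Q : MvPolynomial σ ℚ) :
    d ∣ MvPolynomial.aeval u Q - MvPolynomial.aeval u' Q := by
  induction Q using MvPolynomial.induction_on with
  | C a => simp
  | add p q hp hq =>
    rw [map_add, map_add, add_sub_add_comm]
    exact dvd_add hp hq
  | mul_X p i hp =>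
    rw [map_mul, map_mul, MvPolynomial.aeval_X, MvPolynomial.aeval_X]
    have : MvPolynomial.aeval u p * u i - MvPolynomial.aeval u' p * u' i =
        (MvPolynomial.aeval u p - MvPolynomial.aeval u' p) * u i +
          MvPolynomial.aeval u' p * (u i - u' i) := by ring
    rw [this]
    exact dvd_add (hp.mul_right _) ((h i).mul_left _)

theorem dvd_aeval_sub' {A : Type*} [CommRing A] [Algebra ℚ A] {d b b' : A}
    (h : d ∣ b - b') (f : ℚ[X]) : d ∣ aeval b f - aeval b' f :=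
  h.trans (by
    have := Polynomial.sub_dvd_eval_sub b b' (f.map (algebraMap ℚ A))
    rwa [eval_map_algebraMap, eval_map_algebraMap] at this)

theorem dvd_ts_sub {A : Type*} [CommRing A] [Algebra ℚ A] {d b b' : A}
    (h : d ∣ b - b') (ψ : ℕ → ℚ[X]) (N : ℕ) (e : A) : d ∣ ts ψ N b e - ts ψ N b' e := by
  rw [ts, ts, ← Finset.sum_sub_distrib]
  refine Finset.dvd_sum fun j _ => ?_
  rw [← sub_mul]
  exact (dvd_aeval_sub' h _).mul_right _

theorem dvd_ts_sub_ts {A : Type*} [CommRing A] [Algebra ℚ A] (ψ : ℕ → ℚ[X]) {n N : ℕ}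
    (h : n ≤ N) (b e : A) : e ^ n ∣ ts ψ N b e - ts ψ n b e := by
  rw [ts, ts, Finset.sum_range_sub_sum_range h]
  refine Finset.dvd_sum fun j hj => ?_
  exact (pow_dvd_pow e (Finset.mem_filter.1 hj).2).mul_left _

theorem HH_contr {A : Type*} [CommRing A] [Algebra ℚ A] (N n : ℕ)
    (H : Fin 3 → MvPolynomial (Fin 3) ℚ) {e y y' w w' : A} (hy : e ∣ y) (hy' : e ∣ y')
    (hw : e ∣ w) (hw' : e ∣ w') (h1 : e ^ n ∣ w - w') (h2 : e ^ (n + 1) ∣ y - y') :
    e ^ (n + 1) ∣ HH N H e y w - HH N H e y' w' := by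
  have hG : ∀ i, e ^ n ∣ MvPolynomial.aeval ![e, y, w] (H i) -
      MvPolynomial.aeval ![e, y', w'] (H i) := by
    intro i
    refine dvd_aeval_sub (fun j => ?_) _
    fin_cases j
    · simp
    · exact (pow_dvd_pow e (Nat.le_succ n)).trans h2
    · exact h1
  unfold HH
  obtain ⟨g0, hg0⟩ := hG 0
  obtain ⟨g1, hg1⟩ := hG 1
  obtain ⟨g2, hg2⟩ := hG 2
  set G0 := MvPolynomial.aeval ![e, y, w] (H 0)
  set G1 := MvPolynomial.aeval ![e, y, w] (H 1)
  set G2 := MvPolynomial.aeval ![e, y, w] (H 2)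
  set G0' := MvPolynomial.aeval ![e, y', w'] (H 0)
  set G1' := MvPolynomial.aeval ![e, y', w'] (H 1)
  set G2' := MvPolynomial.aeval ![e, y', w'] (H 2)
  set L := ∑ s ∈ range N, algebraMap ℚ A (lam (s + 1)) * e ^ s
  obtain ⟨a, ha⟩ := h1
  obtain ⟨b, hb⟩ := h2
  obtain ⟨y1, hy1⟩ := hy
  obtain ⟨y1', hy1'⟩ := hy'
  obtain ⟨w1, hw1⟩ := hw
  obtain ⟨w1', hw1'⟩ := hw'
  refine ⟨-b * L + a * (w1 + w1') * G0 + w1' * w' * g0 + a * y1 * G1 + w' * b * G1 +
    w1' * y' * g1 + b * (y + y') * G2 + y1' * y' * g2, ?_⟩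
  linear_combination (-L + w' * G1 + (y + y') * G2) * hb + ((w + w') * G0 + y * G1) * ha +
    w' ^ 2 * hg0 + w' * y' * hg1 + y' ^ 2 * hg2 + e ^ n * a * G0 * hw1 +
    (e ^ n * a * G0 + e ^ n * w' * g0 + e ^ n * y' * g1) * hw1' + e ^ n * a * G1 * hy1 +
    e ^ n * y' * g2 * hy1'

theorem HH_dvd {A : Type*} [CommRing A] [Algebra ℚ A] (N : ℕ)
    (H : Fin 3 → MvPolynomial (Fin 3) ℚ) {d y w : A} (x : A) (hy : d ∣ y) (hw : d ∣ w) :
    d ∣ HH N H x y w := by
  unfold HH
  refine dvd_add (dvd_add (dvd_add ?_ ?_) ?_) ?_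
  · exact (dvd_neg.2 hy).mul_right _
  · exact (Dvd.dvd.pow hw two_ne_zero).mul_right _
  · exact (hw.mul_right _).mul_right _
  · exact (Dvd.dvd.pow hy two_ne_zero).mul_right _

theorem HH_dvd_sq {A : Type*} [CommRing A] [Algebra ℚ A] (N : ℕ)
    (H : Fin 3 → MvPolynomial (Fin 3) ℚ) {d y w : A} (x : A) (hy : d ∣ y) (hw : d ∣ w) :
    d ^ 2 ∣ HH N H x y w + y * ∑ s ∈ range N, algebraMap ℚ A (lam (s + 1)) * x ^ s := by
  unfold HH
  obtain ⟨y1, rfl⟩ := hy
  obtain ⟨w1, rfl⟩ := hw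
  exact ⟨w1 ^ 2 * MvPolynomial.aeval ![x, d * y1, d * w1] (H 0) +
    w1 * y1 * MvPolynomial.aeval ![x, d * y1, d * w1] (H 1) +
    y1 ^ 2 * MvPolynomial.aeval ![x, d * y1, d * w1] (H 2), by ring⟩

/-- Polynomials in `t` and `x` whose coefficient of `x ^ n` has degree at most `n` in `t`. -/
def Cl0 : Subalgebra ℚ ℚ[X][X] where
  carrier := {Q | ∀ n, (Q.coeff n).natDegree ≤ n}
  mul_mem' := by
    intro P Q hP hQ n
    rw [coeff_mul]
    refine natDegree_sum_le_of_forall_le _ _ fun ij hij => ?_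
    have := mem_antidiagonal.1 hij
    exact natDegree_mul_le.trans (by have := hP ij.1; have := hQ ij.2; omega)
  add_mem' := by
    intro P Q hP hQ n
    rw [coeff_add]
    exact natDegree_add_le_of_degree_le (hP n) (hQ n)
  algebraMap_mem' := by
    intro r n
    rw [Polynomial.algebraMap_apply, coeff_C]
    split_ifs <;> simp

theorem X_mem_Cl0 : (X : ℚ[X][X]) ∈ Cl0 := by
  intro n
  rw [coeff_X]
  split_ifs <;> simp

theorem tX_mem_Cl0 : (C X * X : ℚ[X][X]) ∈ Cl0 := by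
  intro n
  rw [coeff_C_mul, coeff_X]
  split_ifs with h
  · subst h; simp
  · simp

theorem HH_mem {A : Type*} [CommRing A] [Algebra ℚ A] (S : Subalgebra ℚ A) (N : ℕ)
    (H : Fin 3 → MvPolynomial (Fin 3) ℚ) {x y w : A} (hx : x ∈ S) (hy : y ∈ S) (hw : w ∈ S) :
    HH N H x y w ∈ S := by
  have := map_HH S.val N H ⟨x, hx⟩ ⟨y, hy⟩ ⟨w, hw⟩
  simp only [Subalgebra.coe_val] at this
  rw [← this]
  exact Subtype.property _

theorem dvd_ev_sub_ts {A : Type*} [CommRing A] [Algebra ℚ A] (Q : ℚ[X][X]) (N : ℕ) (b e : A) :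
    e ^ N ∣ aevalAeval b e Q - ts Q.coeff N b e := by
  have h1 : (X : ℚ[X][X]) ^ N ∣ Q - ∑ j ∈ range N, C (Q.coeff j) * X ^ j := by
    rw [Polynomial.X_pow_dvd_iff]
    intro d hd
    simp [finsetSum_coeff, hd]
  have h2 := map_dvd (aevalAeval b e : ℚ[X][X] →ₐ[ℚ] A) h1
  simpa only [ts, map_pow, map_sub, map_sum, map_mul, aevalAeval_C, aevalAeval_Y] using h2

theorem exists_A (N : ℕ) (H : Fin 3 → MvPolynomial (Fin 3) ℚ) : ∃ ψ : ℕ → ℚ[X],
    ψ 0 = 0 ∧ (∀ j, (ψ j).natDegree ≤ j) ∧ (∀ j, (ψ j).coeff 0 = 0) ∧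
    (∀ j, j < N → (ψ (j + 1)).coeff 1 = -lam (j + 1)) ∧
    ∀ (A : Type) [CommRing A] [Algebra ℚ A] (b e w : A), e ∣ w →
      e ^ (N + 1) ∣ w - HH N H e (b * e) w → e ^ (N + 1) ∣ w - ts ψ (N + 1) b e := by
  let F : ℚ[X][X] → ℚ[X][X] := fun Q => HH N H X (C X * X) Q
  have hCl : ∀ n, F^[n] 0 ∈ Cl0 := by
    intro n
    induction n with
    | zero => exact zero_mem _
    | succ n ih =>
      rw [Function.iterate_succ_apply']
      exact HH_mem _ _ _ X_mem_Cl0 tX_mem_Cl0 ih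
  have ht : ∀ n, C X ∣ F^[n] 0 := by
    intro n
    induction n with
    | zero => exact dvd_zero _
    | succ n ih =>
      rw [Function.iterate_succ_apply']
      exact HH_dvd _ _ _ (dvd_mul_right _ _) ih
  have hx : ∀ n, X ∣ F^[n] 0 := by
    intro n
    induction n with
    | zero => exact dvd_zero _
    | succ n ih =>
      rw [Function.iterate_succ_apply']
      exact HH_dvd _ _ _ (dvd_mul_left _ _) ih
  refine ⟨(F^[N + 1] 0).coeff, Polynomial.X_dvd_iff.1 (hx _), hCl _, fun j => ?_, fun j hj => ?_,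
    fun A _ _ b e w hw h => ?_⟩
  · exact Polynomial.X_dvd_iff.1 ((C_dvd_iff_dvd_coeff _ _).1 (ht _) j)
  · have h1 := HH_dvd_sq N H X (dvd_mul_right (C X) X) (ht N)
    rw [← C_pow, C_dvd_iff_dvd_coeff] at h1
    have h2 := Polynomial.X_pow_dvd_iff.1 (h1 (j + 1)) 1 (by norm_num)
    rw [Function.iterate_succ_apply']
    have h3 : ((C X * X * ∑ s ∈ range N, algebraMap ℚ ℚ[X][X] (lam (s + 1)) * X ^ s).coeff
        (j + 1)).coeff 1 = lam (j + 1) := by
      rw [mul_assoc, coeff_C_mul, coeff_X_mul, coeff_X_mul]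
      simp [finsetSum_coeff, Polynomial.algebraMap_apply, hj]
    rw [coeff_add, coeff_add, h3] at h2
    exact eq_neg_of_add_eq_zero_left h2
  · have key : ∀ n, n ≤ N + 1 → e ^ min (n + 1) (N + 1) ∣ w - aevalAeval b e (F^[n] 0) := by
      intro n
      induction n with
      | zero => intro _; simpa using hw
      | succ n ih =>
        intro hn
        have h1 := ih (by omega)
        rw [min_eq_left (by omega)] at h1
        rw [Function.iterate_succ_apply']
        have h2 : aevalAeval b e (F (F^[n] 0)) = HH N H e (b * e) (aevalAeval b e (F^[n] 0)) := by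
          simp only [F, map_HH, map_mul, aevalAeval_X, aevalAeval_Y]
        have h3 : e ∣ aevalAeval b e (F^[n] 0) := by
          simpa using map_dvd (aevalAeval b e : ℚ[X][X] →ₐ[ℚ] A) (hx n)
        have h4 := HH_contr N (n + 1) H (dvd_mul_left e b) (dvd_mul_left e b) hw h3 h1
          (by simp)
        rw [h2, ← sub_add_sub_cancel w (HH N H e (b * e) w)]
        exact dvd_add ((pow_dvd_pow e (min_le_right _ _)).trans h)
          ((pow_dvd_pow e (min_le_left _ _)).trans h4)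
    have h5 := key (N + 1) le_rfl
    rw [min_eq_right (by omega)] at h5
    rw [← sub_add_sub_cancel w (aevalAeval b e (F^[N + 1] 0))]
    exact dvd_add h5 (dvd_ev_sub_ts _ _ _ _)

theorem exists_W (N : ℕ) (H : Fin 3 → MvPolynomial (Fin 3) ℚ) : ∃ ω : ℕ → ℚ[X],
    ω 0 = 0 ∧ (∀ j, (ω j).natDegree ≤ j) ∧
    ∀ (A : Type) [CommRing A] [Algebra ℚ A] (a e w : A), e ∣ w →
      e ^ (N + 1) ∣ w - HH N H e ((a + w) * e) w → e ^ (N + 1) ∣ w - ts ω (N + 1) a e := by
  let F : ℚ[X][X] → ℚ[X][X] := fun Q => HH N H X ((C X + Q) * X) Q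
  have hCl : ∀ n, F^[n] 0 ∈ Cl0 := by
    intro n
    induction n with
    | zero => exact zero_mem _
    | succ n ih =>
      rw [Function.iterate_succ_apply']
      refine HH_mem _ _ _ X_mem_Cl0 ?_ ih
      rw [add_mul]
      exact add_mem tX_mem_Cl0 (mul_mem ih X_mem_Cl0)
  have hx : ∀ n, X ∣ F^[n] 0 := by
    intro n
    induction n with
    | zero => exact dvd_zero _
    | succ n ih =>
      rw [Function.iterate_succ_apply']
      exact HH_dvd _ _ _ (dvd_mul_left _ _) ih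
  refine ⟨(F^[N] 0).coeff, Polynomial.X_dvd_iff.1 (hx _), hCl _, fun A _ _ a e w hw h => ?_⟩
  have key : ∀ n, n ≤ N → e ^ (n + 1) ∣ w - aevalAeval a e (F^[n] 0) := by
    intro n
    induction n with
    | zero => intro _; simpa using hw
    | succ n ih =>
      intro hn
      have h1 := ih (by omega)
      rw [Function.iterate_succ_apply']
      have h2 : aevalAeval a e (F (F^[n] 0)) =
          HH N H e ((a + aevalAeval a e (F^[n] 0)) * e) (aevalAeval a e (F^[n] 0)) := by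
        simp only [F, map_HH, map_mul, map_add, aevalAeval_X, aevalAeval_Y]
      have h3 : e ∣ aevalAeval a e (F^[n] 0) := by
        simpa using map_dvd (aevalAeval a e : ℚ[X][X] →ₐ[ℚ] A) (hx n)
      have h4 := HH_contr N (n + 1) H (dvd_mul_left e (a + w))
        (dvd_mul_left e (a + aevalAeval a e (F^[n] 0))) hw h3 h1
        (by
          rw [← sub_mul, add_sub_add_left_eq_sub, pow_succ]
          exact mul_dvd_mul_right h1 e)
      rw [h2, ← sub_add_sub_cancel w (HH N H e ((a + w) * e) w)]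
      exact dvd_add ((pow_dvd_pow e (by omega)).trans h) h4
  rw [← sub_add_sub_cancel w (aevalAeval a e (F^[N] 0))]
  exact dvd_add (key N le_rfl) (dvd_ev_sub_ts _ _ _ _)

theorem ts_uniq {A : Type*} [CommRing A] [IsDomain A] [Algebra ℚ A] {b e : A}
    (hb : ∀ f : ℚ[X], f ≠ 0 → IsUnit (aeval b f)) (he : ¬ IsUnit e) (he0 : e ≠ 0)
    (c : ℕ → ℚ[X]) (N : ℕ) (h : e ^ N ∣ ts c N b e) : ∀ j < N, c j = 0 := by
  induction N with
  | zero => intro j hj; omega
  | succ N ih =>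
    have h1 : e ^ N ∣ ts c N b e := by
      have h2 := dvd_ts_sub_ts c (Nat.le_succ N) b e
      have h3 := (pow_dvd_pow e (Nat.le_succ N)).trans h
      simpa using dvd_sub h3 h2
    have h4 := ih h1
    have h5 : ts c (N + 1) b e = aeval b (c N) * e ^ N := by
      rw [ts, Finset.sum_range_succ, Finset.sum_eq_zero, zero_add]
      intro j hj
      rw [h4 j (Finset.mem_range.1 hj)]; simp
    rw [h5, pow_succ', mul_dvd_mul_iff_right (pow_ne_zero _ he0)] at h
    intro j hj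
    rcases Nat.lt_succ_iff_lt_or_eq.1 hj with hj | rfl
    · exact h4 j hj
    · by_contra h0
      exact he (isUnit_of_dvd_unit h (hb _ h0))

end Pool.Agent.P.MP_8cdae7_nt
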