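import Mathlib

set_option autoImplicit false

open Polynomial

namespace Pool.Agent.P.MP_8cdae7_nt

theorem loc_of_valuation (A K L : Type*) [CommRing A] [IsDedekindDomain A] [Field K] [Field L]
    [Algebra A K] [IsFractionRing A K] [Algebra K L] [Algebra A L] [IsScalarTower A K L]
    [FiniteDimensional K L] [Algebra.IsSeparable K L] {Γ : Type*}
    [LinearOrderedCommGroupWithZero Γ] (v : Valuation L Γ)
    (hA : ∀ a : A, v (algebraMap A L a) ≤ 1) (e : A) (he0 : algebraMap A L e ≠ 0)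
    (he : v (algebraMap A L e) < 1) :
    ∃ T : Finset L, (∀ t ∈ T, v t ≤ 1) ∧ ∀ y : L, v y ≤ 1 →
      ∃ c ∈ Submodule.span A (T : Set L), ∃ s ∈ Submodule.span A (T : Set L),
        v s = 1 ∧ y * s = c := by
  classical
  let C := integralClosure A L
  have hfin : Module.Finite A C := IsIntegralClosure.finite A K L C
  have hded : IsDedekindDomain C := IsIntegralClosure.isDedekindDomain A K L C
  have hfr : IsFractionRing C L := IsIntegralClosure.isFractionRing_of_finite_extension A K L C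
  have hC : ∀ c : C, v (c : L) ≤ 1 := by
    intro c
    obtain ⟨p, pm, hp⟩ : IsIntegral A (c : L) := c.2
    let φ : A →+* v.integer := (algebraMap A L).codRestrict v.integer hA
    refine (Valuation.integer.integers v).mem_of_integral (x := (c : L)) ⟨p.map φ, pm.map _, ?_⟩
    rw [eval₂_map]
    exact hp
  obtain ⟨S, hS⟩ := hfin.1
  have hspan : ∀ c : C, (c : L) ∈ Submodule.span A ((S.image (fun c : C => (c : L)) : Finset L) :
      Set L) := by
    intro c
    have h1 : c ∈ Submodule.span A (S : Set C) := by rw [hS]; trivial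
    have h2 := Submodule.mem_map_of_mem (f := C.val.toLinearMap) h1
    rw [Submodule.map_span] at h2
    rw [Finset.coe_image]
    exact h2
  let n : Ideal C :=
    { carrier := {c | v (c : L) < 1}
      add_mem' := fun {a b} ha hb => by
        show v ((a : L) + b) < 1
        exact lt_of_le_of_lt (v.map_add _ _) (max_lt ha hb)
      zero_mem' := by show v ((0 : C) : L) < 1; simp
      smul_mem' := fun c x hx => by
        show v ((c : L) * x) < 1
        rw [map_mul]
        exact lt_of_le_of_lt (mul_le_of_le_one_left' (hC c)) hx }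
  have hn : ∀ c : C, c ∈ n ↔ v (c : L) < 1 := fun _ => Iff.rfl
  have hn' : ∀ c : C, c ∉ n → v (c : L) = 1 := fun c hc =>
    le_antisymm (hC c) (not_lt.1 hc)
  have hprime : n.IsPrime := by
    refine ⟨?_, fun {a b} hab => ?_⟩
    · rw [Ideal.ne_top_iff_one, hn]; simp
    · by_contra h
      push Not at h
      have h1 := hn' a h.1
      have h2 := hn' b h.2
      rw [hn] at hab
      have : v (((a * b : C)) : L) = 1 := by
        show v ((a : L) * b) = 1
        rw [map_mul, h1, h2, one_mul]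
      exact absurd this hab.ne
  have hnb : n ≠ ⊥ := by
    intro h
    have h1 : algebraMap A C e ∈ n := he
    rw [h, Ideal.mem_bot] at h1
    exact he0 (congrArg (fun c : C => (c : L)) h1)
  let R := Localization.AtPrime n
  have hdvr : IsDiscreteValuationRing R :=
    IsLocalization.AtPrime.isDiscreteValuationRing_of_dedekind_domain C hnb R
  have hinj : Function.Injective (algebraMap C R) :=
    IsLocalization.injective R n.primeCompl_le_nonZeroDivisors
  have hdiv : ∀ c1 c2 : C, algebraMap C R c1 ∣ algebraMap C R c2 →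
      ∃ c s : C, s ∉ n ∧ c2 * s = c1 * c := by
    rintro c1 c2 ⟨z, hz⟩
    obtain ⟨⟨c, s⟩, rfl⟩ := IsLocalization.mk'_surjective n.primeCompl z
    refine ⟨c, s, s.2, hinj ?_⟩
    rw [map_mul, map_mul, hz, mul_assoc]
    simp
  refine ⟨S.image (fun c : C => (c : L)), fun t ht => ?_, fun y hy => ?_⟩
  · obtain ⟨c, -, rfl⟩ := Finset.mem_image.1 ht
    exact hC c
  · obtain ⟨c1, c2, hc2, rfl⟩ := IsFractionRing.div_surjective (A := C) y
    have hc2' : (c2 : L) ≠ 0 := by
      intro h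
      exact nonZeroDivisors.ne_zero hc2 (Subtype.ext h)
    change v ((c1 : L) / (c2 : L)) ≤ 1 at hy
    rcases ValuationRing.dvd_total (algebraMap C R c1) (algebraMap C R c2) with h | h
    · obtain ⟨c, s, hs, h⟩ := hdiv _ _ h
      have h' : (c2 : L) * s = c1 * c := congrArg (fun c : C => (c : L)) h
      have h2 : (c1 : L) / (c2 : L) * c = s := by
        field_simp
        exact h'.symm
      refine ⟨s, hspan s, c, hspan c, le_antisymm (hC c) ?_, h2⟩
      rw [← hn' s hs, ← h2, map_mul]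
      exact mul_le_of_le_one_left' hy
    · obtain ⟨c, s, hs, h⟩ := hdiv _ _ h
      have h' : (c1 : L) * s = c2 * c := congrArg (fun c : C => (c : L)) h
      refine ⟨c, hspan c, s, hspan s, hn' s hs, ?_⟩
      change (c1 : L) / (c2 : L) * s = c
      field_simp
      exact h'

/-- Elements that become elements of `B` after multiplication by a unit lying in `B`. -/
def Loc {O : Type*} [CommRing O] (B : Subalgebra ℤ O) : Subring O where
  carrier := {y | ∃ u ∈ B, IsUnit u ∧ y * u ∈ B}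
  mul_mem' := by
    rintro a b ⟨u, hu, hu', ha⟩ ⟨w, hw, hw', hb⟩
    refine ⟨u * w, mul_mem hu hw, hu'.mul hw', ?_⟩
    rw [mul_mul_mul_comm]
    exact mul_mem ha hb
  one_mem' := ⟨1, one_mem _, isUnit_one, by simp⟩
  add_mem' := by
    rintro a b ⟨u, hu, hu', ha⟩ ⟨w, hw, hw', hb⟩
    refine ⟨u * w, mul_mem hu hw, hu'.mul hw', ?_⟩
    have : (a + b) * (u * w) = a * u * w + b * w * u := by ring
    rw [this]
    exact add_mem (mul_mem ha hw) (mul_mem hb hu)
  zero_mem' := ⟨1, one_mem _, isUnit_one, by simp⟩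
  neg_mem' := by
    rintro a ⟨u, hu, hu', ha⟩
    exact ⟨u, hu, hu', by rw [neg_mul]; exact neg_mem ha⟩

theorem mem_Loc_of_mem {O : Type*} [CommRing O] {B : Subalgebra ℤ O} {y : O} (h : y ∈ B) :
    y ∈ Loc B := ⟨1, one_mem _, isUnit_one, by simpa using h⟩

theorem mem_Loc_of_mul {O : Type*} [CommRing O] {B : Subalgebra ℤ O} {y u : O} (hu : u ∈ Loc B)
    (hu' : IsUnit u) (h : y * u ∈ Loc B) : y ∈ Loc B := by
  obtain ⟨u1, h1, h1', h1''⟩ := hu
  obtain ⟨u2, h2, h2', h2''⟩ := h
  refine ⟨u * u1 * u2, mul_mem h1'' h2, (hu'.mul h1').mul h2', ?_⟩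
  have : y * (u * u1 * u2) = y * u * u2 * u1 := by ring
  rw [this]
  exact mul_mem h2'' h1

theorem aeval_mem_Loc {O : Type*} [CommRing O] [Algebra ℚ O] {B : Subalgebra ℤ O} {b : O}
    (hb : b ∈ B) (f : ℚ[X]) : aeval b f ∈ Loc B := by
  rw [aeval_eq_sum_range]
  refine sum_mem fun i _ => ?_
  rw [Algebra.smul_def]
  refine mul_mem ?_ (pow_mem (mem_Loc_of_mem hb) _)
  set q := f.coeff i
  refine ⟨(q.den : O), natCast_mem _ _, ?_, ?_⟩
  · have : (q.den : O) = algebraMap ℚ O (q.den : ℚ) := by simp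
    rw [this]
    exact (IsUnit.mk0 _ (by exact_mod_cast q.den_nz)).map _
  · have : algebraMap ℚ O q * (q.den : O) = (q.num : O) := by
      have h1 : (q.den : O) = algebraMap ℚ O (q.den : ℚ) := by simp
      rw [h1, ← map_mul, Rat.mul_den_eq_num]; simp
    rw [this]
    exact intCast_mem _ _

theorem spread_of_loc {O : Type*} [CommRing O] (B0 : Subalgebra ℤ O) (hfg : B0.FG) (e : O)
    (h : ∀ z : O, e * z ∈ B0 → z ∈ Loc B0) :
    ∃ B : Subalgebra ℤ O, B.FG ∧ B0 ≤ B ∧ ∀ z : O, e * z ∈ B → ∃ y ∈ B, e * z = e * y := by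
  classical
  have hft : Algebra.FiniteType ℤ B0 := ⟨(Subalgebra.fg_top B0).2 hfg⟩
  have hno : IsNoetherianRing B0 := Algebra.FiniteType.isNoetherianRing ℤ B0
  let I : Ideal B0 := Ideal.comap B0.val.toRingHom (Ideal.span {e})
  obtain ⟨G, hG⟩ : I.FG := IsNoetherian.noetherian I
  have hg : ∀ g : B0, g ∈ G → ∃ z u : O, u ∈ B0 ∧ IsUnit u ∧ z * u ∈ B0 ∧ (g : O) = e * z := by
    intro g hg
    have h1 : g ∈ I := by rw [← hG]; exact Ideal.subset_span hg
    obtain ⟨z, hz⟩ := Ideal.mem_span_singleton.1 h1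
    have hz' : (g : O) = e * z := hz
    obtain ⟨u, hu, hu', hu''⟩ := h z (hz' ▸ g.2)
    exact ⟨z, u, hu, hu', hu'', hz'⟩
  choose! z u hu hu' hzu hz using hg
  set U := ∏ g ∈ G, u g with hU
  have hUB : U ∈ B0 := prod_mem fun g hg => hu g hg
  have hUu : IsUnit U := IsUnit.prod_iff.2 fun g hg => hu' g hg
  obtain ⟨W, hW⟩ := hUu.exists_right_inv
  have hI : ∀ y : B0, y ∈ I → ∃ z : O, z * U ∈ B0 ∧ (y : O) = e * z := by
    intro y hy
    rw [← hG] at hy
    induction hy using Submodule.span_induction with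
    | mem g hg =>
      refine ⟨z g, ?_, hz g hg⟩
      rw [hU, ← Finset.mul_prod_erase G u hg, ← mul_assoc]
      exact mul_mem (hzu g hg) (prod_mem fun g' hg' => hu g' (Finset.mem_of_mem_erase hg'))
    | zero => exact ⟨0, by simp, by simp⟩
    | add a b _ _ ha hb =>
      obtain ⟨z1, h1, h1'⟩ := ha
      obtain ⟨z2, h2, h2'⟩ := hb
      refine ⟨z1 + z2, by rw [add_mul]; exact add_mem h1 h2, ?_⟩
      rw [mul_add, ← h1', ← h2']; rfl
    | smul c a _ ha =>
      obtain ⟨z1, h1, h1'⟩ := ha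
      refine ⟨c * z1, by rw [mul_assoc]; exact mul_mem c.2 h1, ?_⟩
      rw [mul_left_comm, ← h1']; rfl
  obtain ⟨S, hS⟩ := hfg
  have hle : B0 ≤ Algebra.adjoin ℤ ((insert W S : Finset O) : Set O) := by
    rw [← hS]
    exact Algebra.adjoin_mono (by simp)
  have hWB : W ∈ Algebra.adjoin ℤ ((insert W S : Finset O) : Set O) :=
    Algebra.subset_adjoin (by simp)
  refine ⟨Algebra.adjoin ℤ ((insert W S : Finset O) : Set O), ⟨_, rfl⟩, hle, fun y hy => ?_⟩
  have hpow : ∀ y ∈ Algebra.adjoin ℤ ((insert W S : Finset O) : Set O), ∃ n : ℕ, y * U ^ n ∈ B0 := by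
    intro y hy
    induction hy using Algebra.adjoin_induction with
    | mem x hx =>
      rw [Finset.coe_insert, Set.mem_insert_iff] at hx
      rcases hx with rfl | hx
      · exact ⟨1, by rw [pow_one, mul_comm, hW]; exact one_mem _⟩
      · exact ⟨0, by rw [pow_zero, mul_one, ← hS]; exact Algebra.subset_adjoin hx⟩
    | algebraMap r => exact ⟨0, by simp⟩
    | add a b _ _ ha hb =>
      obtain ⟨n1, h1⟩ := ha
      obtain ⟨n2, h2⟩ := hb
      refine ⟨n1 + n2, ?_⟩
      have : (a + b) * U ^ (n1 + n2) = a * U ^ n1 * U ^ n2 + b * U ^ n2 * U ^ n1 := by ring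
      rw [this]
      exact add_mem (mul_mem h1 (pow_mem hUB _)) (mul_mem h2 (pow_mem hUB _))
    | mul a b _ _ ha hb =>
      obtain ⟨n1, h1⟩ := ha
      obtain ⟨n2, h2⟩ := hb
      refine ⟨n1 + n2, ?_⟩
      have : (a * b) * U ^ (n1 + n2) = (a * U ^ n1) * (b * U ^ n2) := by ring
      rw [this]
      exact mul_mem h1 h2
  obtain ⟨n, hn⟩ := hpow _ hy
  obtain ⟨z0, hz0, hz0'⟩ := hI ⟨_, hn⟩ (by
    show e * y * U ^ n ∈ Ideal.span {e}
    rw [Ideal.mem_span_singleton, mul_assoc]
    exact dvd_mul_right _ _)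
  refine ⟨z0 * U * W ^ (n + 1), mul_mem (hle hz0) (pow_mem hWB _), ?_⟩
  have h1 : e * y * U ^ n = e * z0 := hz0'
  have h2 : U ^ n * W ^ n = 1 := by rw [← mul_pow, hW, one_pow]
  linear_combination (-(e * y)) * h2 + W ^ n * h1 - e * z0 * W ^ n * hW

theorem spread {O : Type} [CommRing O] [IsDomain O] [ValuationRing O] [Algebra ℚ O] {b e : O}
    (hb : ∀ f : ℚ[X], f ≠ 0 → IsUnit (aeval b f)) (he : ¬ IsUnit e) (he0 : e ≠ 0)
    (s : Finset O)
    (hs : ∀ y ∈ s, ∃ P : ℚ[X][X][X], P ≠ 0 ∧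
      eval₂ (aevalAeval b e : ℚ[X][X] →ₐ[ℚ] O).toRingHom y P = 0) :
    ∃ B : Subalgebra ℤ O, B.FG ∧ b ∈ B ∧ e ∈ B ∧ (∀ y ∈ s, y ∈ B) ∧
      ∀ z : O, e * z ∈ B → z ∈ B := by
  classical
  let k0 := FractionRing ℚ[X]
  let κ : k0 →+* O := IsLocalization.lift (M := nonZeroDivisors ℚ[X])
    (g := (aeval b : ℚ[X] →ₐ[ℚ] O).toRingHom) (fun y => hb y (nonZeroDivisors.ne_zero y.2))
  have hκ : ∀ f : ℚ[X], κ (algebraMap ℚ[X] k0 f) = aeval b f := fun f => IsLocalization.lift_eq _ f
  let θ : k0[X] →+* O := eval₂RingHom κ e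
  have hθ : Function.Injective θ := by
    rw [injective_iff_map_eq_zero]
    intro f hf
    by_contra hf0
    obtain ⟨q, hq, hq'⟩ := exists_eq_pow_rootMultiplicity_mul_and_not_dvd f hf0 0
    rw [hq, map_mul, map_pow] at hf
    simp only [map_zero, sub_zero] at hf hq'
    have h1 : θ X = e := by simp [θ]
    rw [h1] at hf
    have h2 : θ q = 0 := (mul_eq_zero.1 hf).resolve_left (pow_ne_zero _ he0)
    have h3 : q.coeff 0 ≠ 0 := fun h => hq' (X_dvd_iff.2 h)
    have h4 : θ q = e * θ q.divX + κ (q.coeff 0) := by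
      have h6 : θ (C (q.coeff 0)) = κ (q.coeff 0) := by simp [θ]
      rw [← h6, ← h1, ← map_mul, ← map_add, X_mul_divX_add]
    have h5 : IsUnit (κ (q.coeff 0)) := (IsUnit.mk0 _ h3).map κ
    refine he (isUnit_of_dvd_unit ⟨-θ q.divX, ?_⟩ h5)
    linear_combination h2 - h4
  let Ω := FractionRing O
  have hO : Function.Injective (algebraMap O Ω) := IsFractionRing.injective O Ω
  letI : Algebra k0[X] Ω := ((algebraMap O Ω).comp θ).toAlgebra
  have hAΩ : ∀ a : k0[X], algebraMap k0[X] Ω a = algebraMap O Ω (θ a) := fun _ => rfl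
  have hinj : Function.Injective (algebraMap k0[X] Ω) := hO.comp hθ
  let K := FractionRing k0[X]
  letI : Algebra K Ω := (IsFractionRing.lift (A := k0[X]) (K := K) hinj).toAlgebra
  have hst : IsScalarTower k0[X] K Ω := IsScalarTower.of_algebraMap_eq fun a =>
    (IsFractionRing.lift_algebraMap (K := K) hinj a).symm
  have hint : ∀ y ∈ ((s.image (algebraMap O Ω) : Finset Ω) : Set Ω), IsIntegral K y := by
    intro y' hy'
    obtain ⟨y, hy, rfl⟩ := Finset.mem_image.1 (Finset.mem_coe.1 hy')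
    obtain ⟨P, hP0, hP⟩ := hs y hy
    have h1 : IsAlgebraic k0[X] (algebraMap O Ω y) := by
      refine ⟨P.map (mapRingHom (algebraMap ℚ[X] k0)), ?_, ?_⟩
      · exact (Polynomial.map_ne_zero_iff
          (Polynomial.map_injective _ (IsFractionRing.injective ℚ[X] k0))).2 hP0
      · rw [aeval_def, eval₂_map]
        have h2 : (algebraMap k0[X] Ω).comp (mapRingHom (algebraMap ℚ[X] k0)) =
            (algebraMap O Ω).comp (aevalAeval b e : ℚ[X][X] →ₐ[ℚ] O).toRingHom := by
          refine Polynomial.ringHom_ext' (RingHom.ext fun f => ?_) ?_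
          · simp only [RingHom.comp_apply, coe_mapRingHom, map_C, hAΩ, AlgHom.toRingHom_eq_coe,
              RingHom.coe_coe, aevalAeval_C]
            simp [θ, hκ]
          · simp only [RingHom.comp_apply, coe_mapRingHom, map_X, hAΩ, AlgHom.toRingHom_eq_coe,
              RingHom.coe_coe, aevalAeval_Y]
            simp [θ]
        rw [h2, ← hom_eval₂, hP, map_zero]
    exact ((IsFractionRing.isAlgebraic_iff k0[X] K Ω).1 h1).isIntegral
  let L := IntermediateField.adjoin K ((s.image (algebraMap O Ω) : Finset Ω) : Set Ω)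
  have hfd : FiniteDimensional K L := IntermediateField.finiteDimensional_adjoin hint
  let v0 := ValuationRing.valuation O Ω
  have hv0 : ∀ y : Ω, v0 y ≤ 1 ↔ ∃ a : O, algebraMap O Ω a = y := fun y =>
    ValuationRing.mem_integer_iff O Ω y
  have hv1 : ∀ a : O, v0 (algebraMap O Ω a) = 1 → IsUnit a := by
    intro a ha
    have ha0 : algebraMap O Ω a ≠ 0 := by
      intro h; rw [h] at ha; simp at ha
    obtain ⟨a', ha'⟩ := (hv0 (algebraMap O Ω a)⁻¹).1 (by rw [map_inv₀, ha]; simp)
    refine IsUnit.of_mul_eq_one a' (hO ?_)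
    rw [map_mul, ha', mul_inv_cancel₀ ha0, map_one]
  let v := v0.comap (algebraMap L Ω)
  have hAL : ∀ a : k0[X], ((algebraMap k0[X] L a : L) : Ω) = algebraMap O Ω (θ a) := fun _ => rfl
  have hX : θ X = e := by simp [θ]
  obtain ⟨T, hT, hloc⟩ := loc_of_valuation k0[X] K L v
    (fun a => (hv0 _).2 ⟨θ a, rfl⟩) X
    (by
      intro h
      have h1 := hAL X
      rw [h, hX] at h1
      exact he0 (hO (by rw [map_zero]; exact h1.symm)))
    (by
      refine lt_of_le_of_ne ((hv0 _).2 ⟨θ X, rfl⟩) fun h => he (hv1 e ?_)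
      rw [← hX]; exact h)
  have hT' : ∀ t : L, t ∈ T → ∃ a : O, algebraMap O Ω a = t := fun t ht => (hv0 _).1 (hT t ht)
  choose! lift hlift using hT'
  let B0 : Subalgebra ℤ O :=
    Algebra.adjoin ℤ ((insert b (insert e (s ∪ T.image lift)) : Finset O) : Set O)
  have hb0 : b ∈ B0 := Algebra.subset_adjoin (by simp)
  have he0' : e ∈ B0 := Algebra.subset_adjoin (by simp)
  have hs0 : ∀ y ∈ s, y ∈ B0 := fun y hy => Algebra.subset_adjoin (by simp [hy])
  have hT0 : ∀ t ∈ T, lift t ∈ B0 := fun t ht => Algebra.subset_adjoin (by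
    simp only [Finset.coe_insert, Finset.coe_union, Finset.coe_image, Set.mem_insert_iff,
      Set.mem_union, Set.mem_image]
    exact Or.inr (Or.inr (Or.inr ⟨t, ht, rfl⟩)))
  have hκL : ∀ r : k0, κ r ∈ Loc B0 := by
    intro r
    obtain ⟨f, g, hg, rfl⟩ := IsFractionRing.div_surjective (A := ℚ[X]) r
    have hg0 := nonZeroDivisors.ne_zero hg
    refine mem_Loc_of_mul (aeval_mem_Loc hb0 g) (hb g hg0) ?_
    rw [← hκ g, ← map_mul, div_mul_cancel₀ _
      ((map_ne_zero_iff _ (IsFractionRing.injective ℚ[X] k0)).2 hg0), hκ]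
    exact aeval_mem_Loc hb0 f
  have hθL : ∀ a : k0[X], θ a ∈ Loc B0 := by
    intro a
    show eval₂ κ e a ∈ Loc B0
    rw [eval₂_eq_sum_range]
    exact sum_mem fun i _ => mul_mem (hκL _) (pow_mem (mem_Loc_of_mem he0') _)
  have hsp : ∀ c ∈ Submodule.span k0[X] (T : Set L), ∃ c' ∈ Loc B0, algebraMap O Ω c' = c := by
    intro c hc
    induction hc using Submodule.span_induction with
    | mem t ht => exact ⟨lift t, mem_Loc_of_mem (hT0 t ht), hlift t ht⟩
    | zero => exact ⟨0, zero_mem _, by simp⟩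
    | add x y _ _ hx hy =>
      obtain ⟨x', hx, hx'⟩ := hx
      obtain ⟨y', hy, hy'⟩ := hy
      exact ⟨x' + y', add_mem hx hy, by rw [map_add, hx', hy']; rfl⟩
    | smul a x _ hx =>
      obtain ⟨x', hx, hx'⟩ := hx
      refine ⟨θ a * x', mul_mem (hθL a) hx, ?_⟩
      rw [map_mul, hx', ← hAΩ]; rfl
  have hLoc : ∀ y : O, algebraMap O Ω y ∈ L → y ∈ Loc B0 := by
    intro y hy
    obtain ⟨c, hc, u, hu, hu1, h⟩ := hloc ⟨_, hy⟩ ((hv0 _).2 ⟨y, rfl⟩)
    obtain ⟨c', hc', hc''⟩ := hsp c hc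
    obtain ⟨u', hu', hu''⟩ := hsp u hu
    refine mem_Loc_of_mul hu' (hv1 u' (by rw [hu'']; exact hu1)) ?_
    have : y * u' = c' := hO (by
      rw [map_mul, hu'', hc'', ← h]; rfl)
    rw [this]; exact hc'
  have hθmem : ∀ a : k0[X], algebraMap O Ω (θ a) ∈ L := fun a => by
    rw [← hAL]; exact Subtype.property _
  have hB0L : ∀ y ∈ B0, algebraMap O Ω y ∈ L := by
    intro y hy
    induction hy using Algebra.adjoin_induction with
    | mem x hx =>
      simp only [Finset.coe_insert, Finset.coe_union, Finset.coe_image, Set.mem_insert_iff,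
        Set.mem_union, Set.mem_image] at hx
      rcases hx with rfl | rfl | hx | ⟨t, ht, rfl⟩
      · have := hθmem (C (algebraMap ℚ[X] k0 X))
        simpa [θ, hκ] using this
      · have := hθmem X
        rwa [hX] at this
      · exact IntermediateField.subset_adjoin _ _
          (Finset.mem_coe.2 (Finset.mem_image_of_mem _ hx))
      · rw [hlift t ht]; exact t.2
    | algebraMap r => simp
    | add x y _ _ hx hy => rw [map_add]; exact add_mem hx hy
    | mul x y _ _ hx hy => rw [map_mul]; exact mul_mem hx hy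
  obtain ⟨B, hBfg, hBle, hB⟩ := spread_of_loc B0 ⟨_, rfl⟩ e (by
    intro z hz
    refine hLoc z ?_
    have h1 := hB0L _ hz
    have h2 := hB0L _ he0'
    have h3 : algebraMap O Ω e ≠ 0 := (map_ne_zero_iff _ hO).2 he0
    have : algebraMap O Ω z = algebraMap O Ω (e * z) / algebraMap O Ω e := by
      rw [map_mul, mul_div_cancel_left₀ _ h3]
    rw [this]
    exact div_mem h1 h2)
  refine ⟨B, hBfg, hBle hb0, hBle he0', fun y hy => hBle (hs0 y hy), fun z hz => ?_⟩
  obtain ⟨y, hy, h⟩ := hB z hz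
  rw [mul_left_cancel₀ he0 h]
  exact hy

end Pool.Agent.P.MP_8cdae7_nt
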