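import Mathlib
import Pool.Agent.P.MP_8cdae7_nt.Spread
import Pool.Agent.P.MP_8cdae7_nt.Iter

set_option autoImplicit false

open Polynomial

namespace Pool.Agent.P.MP_8cdae7_nt

theorem aeval_int_map {O : Type*} [CommRing O] [Algebra ℚ O] (y : O) (g : ℤ[X]) :
    aeval y (g.map (algebraMap ℤ ℚ)) = aeval y g := aeval_map_algebraMap ℚ y g

theorem sat {O : Type} [CommRing O] [IsLocalRing O] [Algebra ℚ O] {b : O}
    (hb : ∀ f : ℚ[X], f ≠ 0 → IsUnit (aeval b f)) (B : Subalgebra ℤ O) (hfg : B.FG)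
    (hbB : b ∈ B) :
    ∃ d : ℤ[X], d ≠ 0 ∧ ∀ p : ℕ, p.Prime → ¬ (C (p : ℤ) ∣ d) → ∃ q : Ideal B, q.IsPrime ∧
      (∀ y : B, ¬ IsUnit (y : O) → y ∈ q) ∧
      ∀ f : ℤ[X], aeval (⟨b, hbB⟩ : B) f ∈ q ↔ C (p : ℤ) ∣ f := by
  let P : Ideal B := Ideal.comap B.val.toRingHom (IsLocalRing.maximalIdeal O)
  have hP : P.IsPrime := Ideal.comap_isPrime _ _
  let f : ℤ[X] →+* B ⧸ P :=
    (Ideal.Quotient.mk P).comp (aeval (⟨b, hbB⟩ : B) : ℤ[X] →ₐ[ℤ] B).toRingHom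
  have hft : Algebra.FiniteType ℤ B := ⟨(Subalgebra.fg_top B).2 hfg⟩
  have hft' : Algebra.FiniteType ℤ (B ⧸ P) := inferInstance
  have hf : f.FinitePresentation := by
    rw [← RingHom.FinitePresentation.of_finiteType]
    refine RingHom.FiniteType.of_comp_finiteType (f := algebraMap ℤ ℤ[X]) ?_
    have : f.comp (algebraMap ℤ ℤ[X]) = algebraMap ℤ (B ⧸ P) := RingHom.ext_int _ _
    rw [this]
    exact RingHom.finiteType_algebraMap.2 hft'
  obtain ⟨S, hS⟩ := PrimeSpectrum.exists_constructibleSetData_iff.2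
    (PrimeSpectrum.isConstructible_range_comap hf)
  have hbot : (⟨⊥, Ideal.isPrime_bot⟩ : PrimeSpectrum ℤ[X]) ∈ S.toSet := by
    rw [hS]
    refine ⟨⟨⊥, Ideal.isPrime_bot⟩, PrimeSpectrum.ext ?_⟩
    rw [eq_bot_iff]
    intro g hg
    have h1 : f g = 0 := hg
    have h2 : aeval (⟨b, hbB⟩ : B) g ∈ P := Ideal.Quotient.eq_zero_iff_mem.1 h1
    have h3 : ¬ IsUnit (aeval b g) := by
      have : B.val (aeval (⟨b, hbB⟩ : B) g) = aeval b g := (aeval_algHom_apply B.val _ g).symm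
      rw [← this]
      exact h2
    by_contra h0
    refine h3 ?_
    rw [← aeval_int_map]
    exact hb _ ((Polynomial.map_ne_zero_iff (algebraMap ℤ ℚ).injective_int).2 h0)
  simp only [PrimeSpectrum.ConstructibleSetData.toSet, Set.mem_iUnion] at hbot
  obtain ⟨D, hD, hD1, hD2⟩ := hbot
  refine ⟨D.f, fun h => hD2 (by simp [h]), fun p hp hpd => ?_⟩
  have hpp : Prime (C (p : ℤ)) := Polynomial.prime_C_iff.2 (Nat.prime_iff_prime_int.1 hp)
  have hmem : (⟨Ideal.span {C (p : ℤ)}, (Ideal.span_singleton_prime hpp.ne_zero).2 hpp⟩ :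
      PrimeSpectrum ℤ[X]) ∈ S.toSet := by
    simp only [PrimeSpectrum.ConstructibleSetData.toSet, Set.mem_iUnion]
    refine ⟨D, hD, ?_, ?_⟩
    · intro g hg
      have : g = 0 := hD1 hg
      rw [this]; exact zero_mem _
    · intro h
      exact hpd (Ideal.mem_span_singleton.1 (h (Set.mem_singleton _)))
  rw [hS] at hmem
  obtain ⟨Q, hQ⟩ := hmem
  refine ⟨Q.asIdeal.comap (Ideal.Quotient.mk P), Ideal.comap_isPrime _ _, fun y hy => ?_,
    fun g => ?_⟩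
  · have : Ideal.Quotient.mk P y = 0 := Ideal.Quotient.eq_zero_iff_mem.2 hy
    rw [Ideal.mem_comap, this]
    exact zero_mem _
  · have h1 := congrArg (fun I : PrimeSpectrum ℤ[X] => g ∈ I.asIdeal) hQ
    simp only [PrimeSpectrum.comap_asIdeal, Ideal.mem_comap, Ideal.mem_span_singleton,
      eq_iff_iff] at h1
    exact h1

/-- `p`-integral polynomials. -/
def PInt (p : ℕ) (ψ : ℚ[X]) : Prop :=
  ∃ M : ℤ, ¬ (p : ℤ) ∣ M ∧ ∃ g : ℤ[X], g.map (algebraMap ℤ ℚ) = C (M : ℚ) * ψ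

theorem exists_int_mul (ψ : ℚ[X]) :
    ∃ M : ℤ, M ≠ 0 ∧ ∃ g : ℤ[X], g.map (algebraMap ℤ ℚ) = C (M : ℚ) * ψ := by
  obtain ⟨M, hM, h⟩ := IsLocalization.integerNormalization_spec (nonZeroDivisors ℤ) ψ
  refine ⟨M, nonZeroDivisors.ne_zero hM, _, h.trans ?_⟩
  rw [zsmul_eq_mul]; simp

theorem not_PInt {p : ℕ} (hp : p.Prime) {ψ : ℚ[X]} (h : ¬ PInt p ψ) :
    ∃ (M : ℤ) (g : ℤ[X]), g.map (algebraMap ℤ ℚ) = C ((p * M : ℤ) : ℚ) * ψ ∧
      ¬ C (p : ℤ) ∣ g := by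
  have key : ∀ n : ℕ, ∀ M : ℤ, M.natAbs = n → M ≠ 0 → ∀ g : ℤ[X],
      g.map (algebraMap ℤ ℚ) = C (M : ℚ) * ψ →
      ∃ (M : ℤ) (g : ℤ[X]), g.map (algebraMap ℤ ℚ) = C ((p * M : ℤ) : ℚ) * ψ ∧
        ¬ C (p : ℤ) ∣ g := by
    intro n
    induction n using Nat.strong_induction_on with
    | _ n ih =>
      intro M hM hM0 g hg
      have hpM : (p : ℤ) ∣ M := by
        by_contra h'
        exact h ⟨M, h', g, hg⟩
      obtain ⟨M1, rfl⟩ := hpM
      by_cases hpg : C (p : ℤ) ∣ g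
      · obtain ⟨g1, rfl⟩ := hpg
        have hM1 : M1 ≠ 0 := right_ne_zero_of_mul hM0
        refine ih M1.natAbs ?_ M1 rfl hM1 g1 ?_
        · rw [← hM, Int.natAbs_mul, Int.natAbs_natCast]
          have := hp.two_le
          have := Int.natAbs_pos.2 hM1
          nlinarith
        · have hp0 : (C (p : ℚ) : ℚ[X]) ≠ 0 := C_ne_zero.2 (by exact_mod_cast hp.ne_zero)
          refine mul_left_cancel₀ hp0 ?_
          rw [Polynomial.map_mul, map_C] at hg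
          push_cast at hg
          rw [C_mul, mul_assoc] at hg
          simpa using hg
      · exact ⟨M1, g, hg, hpg⟩
  obtain ⟨M, hM, g, hg⟩ := exists_int_mul ψ
  exact key _ M rfl hM g hg

theorem not_PInt_lam {n : ℕ} (hp : (n + 1).Prime) (h2 : 2 < n + 1) {ψ : ℚ[X]}
    (h : ψ.coeff 1 = -lam n) : ¬ PInt (n + 1) ψ := by
  rintro ⟨M, hM, g, hg⟩
  have h1 := congrArg (fun f : ℚ[X] => f.coeff 1) hg
  simp only [coeff_map, coeff_C_mul, h, lam, eq_intCast] at h1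
  have h3 : (g.coeff 1 : ℚ) * (2 * (n + 1)) = -(M * bb (n + 1)) := by
    rw [h1]; field_simp
  have h4 : g.coeff 1 * (2 * (n + 1)) = -(M * bb (n + 1)) := by exact_mod_cast h3
  have h5 : ((n + 1 : ℕ) : ℤ) ∣ M * bb (n + 1) := ⟨-(2 * g.coeff 1), by push_cast; linarith⟩
  have hpp : Prime ((n + 1 : ℕ) : ℤ) := Nat.prime_iff_prime_int.1 hp
  have h6 := (hpp.dvd_or_dvd h5).resolve_left hM
  have h7 : ((n + 1 : ℕ) : ℤ) ∣ 2 := by
    have := dvd_sub h6 (bb_prime hp)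
    simpa using this
  have := Int.le_of_dvd (by norm_num) h7
  omega

/-- Elements with a multiple prime to `p` in `B`. -/
def Sp {O : Type*} [CommRing O] {p : ℕ} (hp : p.Prime) (B : Subalgebra ℤ O) : Subring O where
  carrier := {y | ∃ M : ℤ, ¬ (p : ℤ) ∣ M ∧ (M : O) * y ∈ B}
  mul_mem' := by
    rintro a b ⟨u, hu, ha⟩ ⟨w, hw, hb⟩
    refine ⟨u * w, fun h => ((Nat.prime_iff_prime_int.1 hp).dvd_or_dvd h).elim hu hw, ?_⟩
    rw [Int.cast_mul, mul_mul_mul_comm]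
    exact mul_mem ha hb
  one_mem' := ⟨1, (Nat.prime_iff_prime_int.1 hp).not_dvd_one, by simp⟩
  add_mem' := by
    rintro a b ⟨u, hu, ha⟩ ⟨w, hw, hb⟩
    refine ⟨u * w, fun h => ((Nat.prime_iff_prime_int.1 hp).dvd_or_dvd h).elim hu hw, ?_⟩
    have : ((u * w : ℤ) : O) * (a + b) = (w : O) * ((u : O) * a) + (u : O) * ((w : O) * b) := by
      push_cast; ring
    rw [this]
    exact add_mem (mul_mem (intCast_mem _ _) ha) (mul_mem (intCast_mem _ _) hb)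
  zero_mem' := ⟨1, (Nat.prime_iff_prime_int.1 hp).not_dvd_one, by simp⟩
  neg_mem' := by
    rintro a ⟨u, hu, ha⟩
    exact ⟨u, hu, by rw [mul_neg]; exact neg_mem ha⟩

theorem aeval_int_mem {O : Type*} [CommRing O] {B : Subalgebra ℤ O} {y : O} (hy : y ∈ B)
    (g : ℤ[X]) : aeval y g ∈ B := by
  have : B.val (aeval (⟨y, hy⟩ : B) g) = aeval y g := (aeval_algHom_apply B.val _ g).symm
  rw [← this]
  exact Subtype.property _

theorem ts_mem_Sp {O : Type*} [CommRing O] [Algebra ℚ O] {p : ℕ} (hp : p.Prime)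
    {B : Subalgebra ℤ O} {ψ : ℕ → ℚ[X]} {n : ℕ} (h : ∀ j < n, PInt p (ψ j)) {y e : O}
    (hy : y ∈ B) (he : e ∈ B) : ts ψ n y e ∈ Sp hp B := by
  have hB : ∀ z ∈ B, z ∈ Sp hp B := fun z hz =>
    ⟨1, (Nat.prime_iff_prime_int.1 hp).not_dvd_one, by simpa using hz⟩
  refine sum_mem fun j hj => mul_mem ?_ (pow_mem (hB e he) _)
  obtain ⟨M, hM, g, hg⟩ := h j (Finset.mem_range.1 hj)
  refine ⟨M, hM, ?_⟩
  have := congrArg (aeval y) hg
  rw [aeval_int_map, map_mul, aeval_C, map_intCast] at this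
  rw [← this]
  exact aeval_int_mem hy g

theorem modp_contra {F : Type*} [Field F] {p : ℕ} (hp : p.Prime) {β ζ : F}
    (hβ : ∀ f : ℤ[X], aeval β f = 0 ↔ C (p : ℤ) ∣ f) {j : ℕ} (hj : 0 < j) (hζ : ζ ^ j = 1)
    (c : ℤ[X]) (n : ℤ) (hc : ¬ (p : ℤ) ∣ c.coeff 1) (hn : ¬ (p : ℤ) ∣ n)
    (h : aeval β c * (1 - ζ ^ 2) = n * ζ) : False := by
  have hfact : Fact p.Prime := ⟨hp⟩
  have hp0 : (p : F) = 0 := by
    have := (hβ (C (p : ℤ))).2 dvd_rfl
    simpa using this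
  have hchar : CharP F p := (CharP.charP_iff_prime_eq_zero hp).2 hp0
  letI : Algebra (ZMod p) F := ZMod.algebra F p
  have hζ0 : ζ ≠ 0 := by
    rintro rfl
    rw [zero_pow hj.ne'] at hζ
    exact zero_ne_one hζ
  have hn0 : (n : F) ≠ 0 := fun h => hn ((CharP.intCast_eq_zero_iff F p n).1 h)
  have h1 : 1 - ζ ^ 2 ≠ 0 := by
    intro h1
    rw [h1, mul_zero] at h
    exact mul_ne_zero hn0 hζ0 h.symm
  have hζa : IsAlgebraic (ZMod p) ζ :=
    (IsIntegral.of_pow hj (by rw [hζ]; exact isIntegral_one)).isAlgebraic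
  have hmap : ∀ f : ℤ[X], aeval β (f.map (algebraMap ℤ (ZMod p))) = aeval β f := fun f =>
    aeval_map_algebraMap (ZMod p) β f
  have h2 : IsAlgebraic (ZMod p) (aeval β (c.map (algebraMap ℤ (ZMod p)))) := by
    have : aeval β c = (n : F) * ζ * (1 - ζ ^ 2)⁻¹ := by
      rw [← h, mul_inv_cancel_right₀ h1]
    rw [hmap, this]
    refine IsAlgebraic.mul (IsAlgebraic.mul (isAlgebraic_intCast n) hζa) (IsAlgebraic.inv ?_)
    exact IsAlgebraic.sub isAlgebraic_one (hζa.pow 2)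
  have h3 : (c.map (algebraMap ℤ (ZMod p))).coeff 1 ≠ 0 := by
    rw [coeff_map, eq_intCast]
    exact fun h => hc ((ZMod.intCast_zmod_eq_zero_iff_dvd _ p).1 h)
  have h4 : (c.map (algebraMap ℤ (ZMod p))) ≠ 0 := by
    intro h; rw [h] at h3; simp at h3
  obtain ⟨g, hg0, hg⟩ := IsAlgebraic.of_aeval _
    (by have := le_natDegree_of_ne_zero h3; omega)
    (mem_nonZeroDivisors_of_ne_zero (leadingCoeff_ne_zero.2 h4)) h2
  obtain ⟨f, rfl⟩ := Polynomial.map_surjective (algebraMap ℤ (ZMod p))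
    (ZMod.ringHom_surjective _) g
  rw [hmap, hβ] at hg
  obtain ⟨f', rfl⟩ := hg
  apply hg0
  rw [Polynomial.map_mul, map_C]
  simp

theorem key {O : Type} [CommRing O] [IsDomain O] [ValuationRing O] [Algebra ℚ O] {b e τ ξ : O}
    (hb : ∀ f : ℚ[X], f ≠ 0 → IsUnit (aeval b f)) (he : ¬ IsUnit e) (he0 : e ≠ 0)
    (h1 : ∃ P : ℚ[X][X][X], P ≠ 0 ∧
      eval₂ (aevalAeval b e : ℚ[X][X] →ₐ[ℚ] O).toRingHom τ P = 0)
    (h2 : ∃ P : ℚ[X][X][X], P ≠ 0 ∧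
      eval₂ (aevalAeval b e : ℚ[X][X] →ₐ[ℚ] O).toRingHom ξ P = 0)
    (hA : ∀ N : ℕ, ∃ ψ : ℕ → ℚ[X], ψ 0 = 0 ∧ (∀ j < N, (ψ (j + 1)).coeff 1 = -lam (j + 1)) ∧
      e ^ (N + 1) ∣ (b - ts ψ (N + 1) b e) - (τ - ts ψ (N + 1) τ (e * ξ)))
    (hξ : ¬ IsUnit ξ ∨ ∃ (c : ℤ[X]) (n : ℤ), c.coeff 1 ≠ 0 ∧ n ≠ 0 ∧
      ¬ IsUnit (aeval b c * (1 - ξ ^ 2) - n * ξ)) : False := by
  classical
  obtain ⟨B, hfg, hbB, heB, hsB, hB⟩ := spread hb he he0 {τ, ξ} (by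
    intro y hy
    rcases Finset.mem_insert.1 hy with rfl | hy
    · exact h1
    · rw [Finset.mem_singleton.1 hy]; exact h2)
  have hτB : τ ∈ B := hsB τ (by simp)
  have hξB : ξ ∈ B := hsB ξ (by simp)
  have hBp : ∀ (j : ℕ) (z : O), e ^ j * z ∈ B → z ∈ B := by
    intro j
    induction j with
    | zero => intro z hz; simpa using hz
    | succ j ih =>
      intro z hz
      rw [pow_succ, mul_assoc] at hz
      exact hB z (ih _ hz)
  obtain ⟨d, hd0, hd⟩ := sat hb B hfg hbB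
  have hbound : ∃ N0 : ℕ, ¬ IsUnit ξ ∨ ∃ (c : ℤ[X]) (n : ℤ), c.coeff 1 ≠ 0 ∧ n ≠ 0 ∧
      (c.coeff 1).natAbs ≤ N0 ∧ n.natAbs ≤ N0 ∧ ¬ IsUnit (aeval b c * (1 - ξ ^ 2) - n * ξ) := by
    rcases hξ with h | ⟨c, n, hc, hn, h⟩
    · exact ⟨0, Or.inl h⟩
    · exact ⟨(c.coeff 1).natAbs + n.natAbs, Or.inr ⟨c, n, hc, hn, by omega, by omega, h⟩⟩
  obtain ⟨N0, hξ'⟩ := hbound
  obtain ⟨p, hpN, hp⟩ := Nat.exists_infinite_primes (N0 + d.leadingCoeff.natAbs + 3)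
  have hsmall : ∀ z : ℤ, z ≠ 0 → z.natAbs < p → ¬ (p : ℤ) ∣ z := fun z hz hz' h =>
    absurd (Nat.le_of_dvd (Int.natAbs_pos.2 hz) (Int.natCast_dvd.1 h)) (by omega)
  obtain ⟨q, hq, hq1, hq2⟩ := hd p hp (fun h => hsmall _ (leadingCoeff_ne_zero.2 hd0) (by omega)
    ((C_dvd_iff_dvd_coeff _ _).1 h _))
  obtain ⟨N, rfl⟩ : ∃ N, p = N + 1 + 1 := ⟨p - 2, by omega⟩
  obtain ⟨ψ, hψ0, hψ1, hψ⟩ := hA (N + 1)
  have hex : ∃ j, ¬ PInt (N + 1 + 1) (ψ j) :=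
    ⟨N + 1, not_PInt_lam hp (by omega) (hψ1 N (by omega))⟩
  set j := Nat.find hex with hj
  have hjN : j ≤ N + 1 := Nat.find_min' hex (not_PInt_lam hp (by omega) (hψ1 N (by omega)))
  have hjmin : ∀ i < j, PInt (N + 1 + 1) (ψ i) := fun i hi => not_not.1 (Nat.find_min hex hi)
  have hj0 : 0 < j := by
    rw [Nat.pos_iff_ne_zero]
    intro h
    have := Nat.find_spec hex
    rw [← hj, h, hψ0] at this
    exact this ⟨1, (Nat.prime_iff_prime_int.1 hp).not_dvd_one, 0, by simp⟩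
  obtain ⟨M1, g, hg, hpg⟩ := not_PInt hp (Nat.find_spec hex)
  rw [← hj] at hg
  set p := N + 1 + 1 with hpdef
  have hB' : ∀ z ∈ B, z ∈ Sp hp B := fun z hz =>
    ⟨1, (Nat.prime_iff_prime_int.1 hp).not_dvd_one, by simpa using hz⟩
  obtain ⟨M', hM', hY⟩ : (b - ts ψ j b e) - (τ - ts ψ j τ (e * ξ)) ∈ Sp hp B :=
    sub_mem (sub_mem (hB' b hbB) (ts_mem_Sp hp hjmin hbB heB))
      (sub_mem (hB' τ hτB) (ts_mem_Sp hp hjmin hτB (mul_mem heB hξB)))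
  set Y0 := (b - ts ψ j b e) - (τ - ts ψ j τ (e * ξ)) with hY0
  have hdiv : e ^ (j + 1) ∣ Y0 - (aeval b (ψ j) - aeval τ (ψ j) * ξ ^ j) * e ^ j := by
    have a1 := (pow_dvd_pow e (by omega : j + 1 ≤ N + 1 + 1)).trans hψ
    have a2 := dvd_ts_sub_ts ψ (by omega : j + 1 ≤ N + 1 + 1) b e
    have a3 := (pow_dvd_pow_of_dvd (dvd_mul_right e ξ) (j + 1)).trans
      (dvd_ts_sub_ts ψ (by omega : j + 1 ≤ N + 1 + 1) τ (e * ξ))
    have a4 := dvd_sub (dvd_add a1 a2) a3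
    convert a4 using 1
    rw [hY0]
    simp only [ts, Finset.sum_range_succ _ j, mul_pow]
    ring
  obtain ⟨z, hz⟩ := hdiv
  have hgy : ∀ y : O, aeval y g = (p : O) * M1 * aeval y (ψ j) := by
    intro y
    have := congrArg (aeval y) hg
    rw [aeval_int_map, map_mul, aeval_C, map_intCast] at this
    rw [this]; push_cast; ring
  have hy' : (M1 : O) * M' * (aeval b (ψ j) - aeval τ (ψ j) * ξ ^ j + e * z) ∈ B := by
    refine hBp j _ ?_
    have : e ^ j * ((M1 : O) * M' * (aeval b (ψ j) - aeval τ (ψ j) * ξ ^ j + e * z)) =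
        (M1 : O) * (M' * Y0) := by
      linear_combination (-(M1 : O) * M') * hz
    rw [this]
    exact mul_mem (intCast_mem _ _) hY
  obtain ⟨F, _, φ, hφ⟩ : ∃ (F : Type) (_ : Field F) (φ : B →+* F), ∀ y : B, φ y = 0 ↔ y ∈ q :=
    ⟨q.ResidueField, inferInstance, algebraMap B q.ResidueField,
      fun y => Ideal.algebraMap_residueField_eq_zero⟩
  have hφa : ∀ (y : B) (f : ℤ[X]), φ (aeval y f) = aeval (φ y) f := fun y f =>
    (aeval_algHom_apply φ.toIntAlgHom y f).symm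
  set β := φ ⟨b, hbB⟩ with hβ
  set ζ := φ ⟨ξ, hξB⟩ with hζ
  have hβ' : ∀ f : ℤ[X], aeval β f = 0 ↔ C (p : ℤ) ∣ f := fun f => by
    rw [← hq2, ← hφ, hφa]
  have hnu : ∀ y : O, ¬ IsUnit (e * y) := fun y h => he (isUnit_of_mul_isUnit_left h)
  have hτβ : φ ⟨τ, hτB⟩ = β := by
    obtain ⟨ψ', hψ0', -, z', hz'⟩ := hA 0
    have : φ (⟨b, hbB⟩ - ⟨τ, hτB⟩) = 0 := by
      rw [hφ]
      refine hq1 _ ?_
      have h3 : b - τ = e * z' := by simpa [ts, hψ0'] using hz'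
      show ¬ IsUnit (b - τ)
      rw [h3]
      exact hnu _
    rw [map_sub, sub_eq_zero] at this
    exact this.symm
  have hp0 : (p : F) = 0 := by
    have := (hβ' (C (p : ℤ))).2 dvd_rfl
    simpa using this
  have hmain : φ ((p : B) * ⟨_, hy'⟩ - (M' : B) *
      (aeval (⟨b, hbB⟩ : B) g - aeval (⟨τ, hτB⟩ : B) g * (⟨ξ, hξB⟩ : B) ^ j)) = 0 := by
    rw [hφ]
    refine hq1 _ ?_
    have : (((p : B) * ⟨_, hy'⟩ - (M' : B) *
      (aeval (⟨b, hbB⟩ : B) g - aeval (⟨τ, hτB⟩ : B) g * (⟨ξ, hξB⟩ : B) ^ j) : B) : O) =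
        e * (p * M1 * M' * z) := by
      push_cast
      rw [hgy, hgy]
      ring
    rw [this]
    exact hnu _
  rw [map_sub, map_mul, map_mul, map_sub, map_mul, map_natCast, map_intCast, map_pow, hφa, hφa,
    hp0, zero_mul, zero_sub, neg_eq_zero, hτβ, ← hβ, ← hζ] at hmain
  have hM0 : (M' : F) ≠ 0 := by
    intro h
    have h3 : aeval β (C M') = 0 := by simpa using h
    rw [hβ', C_dvd_iff_dvd_coeff] at h3
    exact hM' (by simpa using h3 0)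
  have hg0 : aeval β g ≠ 0 := fun h => hpg ((hβ' g).1 h)
  have hζj : ζ ^ j = 1 := by
    have h3 := (mul_eq_zero.1 hmain).resolve_left hM0
    rw [← mul_one_sub] at h3
    exact (sub_eq_zero.1 ((mul_eq_zero.1 h3).resolve_left hg0)).symm
  rcases hξ' with h | ⟨c, n, hc, hn, hc', hn', h⟩
  · have : ζ = 0 := (hφ _).2 (hq1 _ h)
    rw [this, zero_pow hj0.ne'] at hζj
    exact zero_ne_one hζj
  · refine modp_contra hp hβ' hj0 hζj c n (hsmall _ hc (by omega)) (hsmall _ hn (by omega)) ?_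
    have : φ (aeval (⟨b, hbB⟩ : B) c * (1 - (⟨ξ, hξB⟩ : B) ^ 2) - n * ⟨ξ, hξB⟩) = 0 := by
      rw [hφ]
      refine hq1 _ ?_
      push_cast
      exact h
    rw [map_sub, map_mul, map_mul, map_sub, map_one, map_pow, map_intCast, hφa, sub_eq_zero]
      at this
    exact this

end Pool.Agent.P.MP_8cdae7_nt
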