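import Mathlib

set_option autoImplicit false

open Polynomial Finset

namespace Pool.Agent.P.MP_8cdae7_nt

theorem exists_int_poly {K : Type*} [Field K] [CharZero K] (β : K) (hβ : β ≠ 0)
    (h : IsAlgebraic ℤ β) : ∃ f : ℤ[X], f.eval 0 ≠ 0 ∧ aeval β f = 0 := by
  obtain ⟨p, hp0, hp⟩ := h
  obtain ⟨q, hq, hq'⟩ := exists_eq_pow_rootMultiplicity_mul_and_not_dvd p hp0 0
  refine ⟨q, ?_, ?_⟩
  · intro h0
    exact hq' (dvd_iff_isRoot.2 h0)
  · rw [hq] at hp
    simp only [map_zero, sub_zero, map_mul, map_pow, aeval_X] at hp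
    rcases mul_eq_zero.1 hp with h | h
    · exact absurd (pow_eq_zero_iff'.1 h).1 hβ
    · exact h

theorem isIntegral_scaled {K : Type*} [Field K] (β : K) (l : ℤ) (h : IsIntegral ℤ ((l : K) * β))
    (g : ℤ[X]) (D : ℕ) (hD : g.natDegree ≤ D) : IsIntegral ℤ ((l : K) ^ D * aeval β g) := by
  rw [aeval_eq_sum_range' (Nat.lt_succ_of_le hD), Finset.mul_sum]
  refine IsIntegral.sum _ fun i hi => ?_
  have hi' : i ≤ D := Nat.lt_succ_iff.1 (Finset.mem_range.1 hi)
  have : (l : K) ^ D * (g.coeff i • β ^ i) =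
      ((g.coeff i * l ^ (D - i) : ℤ) : K) * ((l : K) * β) ^ i := by
    rw [zsmul_eq_mul]
    push_cast
    rw [mul_pow]
    have : (l : K) ^ D = (l : K) ^ (D - i) * (l : K) ^ i := by
      rw [← pow_add, Nat.sub_add_cancel hi']
    rw [this]; ring
  rw [this]
  exact IsIntegral.mul (isIntegral_algebraMap (R := ℤ) (A := K)) (h.pow i)

theorem trans_core {K : Type*} [Field K] [CharZero K] [FiniteDimensional ℚ K] [IsGalois ℚ K]
    (ι : K →+* ℂ) (a : K) (ha : Complex.exp (ι a) = 2) : False := by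
  classical
  set G := K ≃ₐ[ℚ] K
  let β : Finset G → K := fun S => -∑ σ ∈ S, σ a
  have halg : ∀ y : K, IsAlgebraic ℤ y := fun y =>
    (IsFractionRing.isAlgebraic_iff ℤ ℚ K).2 (Algebra.IsAlgebraic.isAlgebraic y)
  -- the basic relation
  have hrel : ∑ S : Finset G, (-2 : ℂ) ^ S.card * Complex.exp (ι (β S)) = 0 := by
    have h1 : ∏ σ : G, (1 + (-2 : ℂ) * Complex.exp (-ι (σ a))) = 0 := by
      refine Finset.prod_eq_zero (Finset.mem_univ (1 : G)) ?_
      have : ((1 : G) a) = a := rfl
      rw [this, Complex.exp_neg, ha]; norm_num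
    rw [Finset.prod_one_add, Finset.powerset_univ] at h1
    rw [← h1]
    refine Finset.sum_congr rfl fun S _ => ?_
    rw [Finset.prod_mul_distrib, Finset.prod_const, ← Complex.exp_sum]
    simp [β]
  set c0 : ℤ := ∑ S ∈ Finset.univ.filter (fun S : Finset G => β S = 0), (-2 : ℤ) ^ S.card with hc0
  have hc0odd : c0 ≠ 0 := by
    have hmem : (∅ : Finset G) ∈ Finset.univ.filter (fun S : Finset G => β S = 0) := by
      simp [β]
    have : (2 : ℤ) ∣ c0 - 1 := by
      rw [hc0, ← Finset.add_sum_erase _ _ hmem]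
      simp only [Finset.card_empty, pow_zero, add_sub_cancel_left]
      refine Finset.dvd_sum fun S hS => ?_
      have hne : S ≠ ∅ := (Finset.mem_erase.1 hS).1
      have : S.card ≠ 0 := by simpa using hne
      exact Dvd.dvd.pow (by norm_num) this
    intro h0
    rw [h0] at this
    norm_num at this
  -- the polynomial
  have hf : ∀ S : Finset G, ∃ f : ℤ[X], f.eval 0 ≠ 0 ∧ (β S ≠ 0 → aeval (β S) f = 0) := by
    intro S
    by_cases h : β S = 0
    · exact ⟨1, by simp, fun h' => absurd h h'⟩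
    · obtain ⟨f, h1, h2⟩ := exists_int_poly (β S) h (halg _)
      exact ⟨f, h1, fun _ => h2⟩
  choose fS hfS0 hfS using hf
  set f : ℤ[X] := ∏ S : Finset G, fS S with hfdef
  have hf0 : f.eval 0 ≠ 0 := by
    rw [hfdef, eval_prod]
    exact Finset.prod_ne_zero_iff.2 fun S _ => hfS0 S
  have hfne : f ≠ 0 := by
    intro h; rw [h] at hf0; simp at hf0
  have hfroot : ∀ S : Finset G, β S ≠ 0 → ι (β S) ∈ f.aroots ℂ := by
    intro S hS
    rw [mem_aroots]
    refine ⟨hfne, ?_⟩
    have : aeval (β S) f = 0 := by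
      rw [hfdef, map_prod]
      exact Finset.prod_eq_zero (Finset.mem_univ S) (hfS S hS)
    have h2 := congrArg ι this
    rw [map_zero] at h2
    rw [← h2]
    exact aeval_algHom_apply ι.toIntAlgHom (β S) f
  obtain ⟨l, hl0, hl⟩ := (halg a).exists_integral_multiple
  have hlβ : ∀ S : Finset G, IsIntegral ℤ ((l : K) * β S) := by
    intro S
    have : (l : K) * β S = -∑ σ ∈ S, σ (l • a) := by
      simp [β, Finset.mul_sum]
    rw [this]
    refine IsIntegral.neg (IsIntegral.sum _ fun σ _ => ?_)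
    exact hl.map (σ : K →+* K).toIntAlgHom
  obtain ⟨c, hc⟩ := LindemannWeierstrass.exp_polynomial_approx f hf0
  set W : ℝ := ∑ S : Finset G, (2 : ℝ) ^ S.card with hW
  have hlim := FloorSemiring.tendsto_mul_pow_div_factorial_sub_atTop W
    (|(l : ℝ)| ^ f.natDegree * c) 1
  have hev := (hlim.eventually (gt_mem_nhds (show (0 : ℝ) < 1 by norm_num)))
  rw [Filter.eventually_atTop] at hev
  obtain ⟨N0, hN0⟩ := hev
  obtain ⟨p, hpN, hp⟩ := Nat.exists_infinite_primes
    (N0 + (f.eval 0).natAbs + c0.natAbs + l.natAbs + 1)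
  obtain ⟨n, hn, g, hg, hap⟩ := hc p (by omega) hp
  set D := p * f.natDegree with hD
  have hgD : g.natDegree ≤ D := hg.trans (Nat.sub_le _ _)
  set T : K := ∑ S : Finset G, (-2 : K) ^ S.card * ((l : K) ^ D * aeval (β S) g) with hT
  have hTint : IsIntegral ℤ T := by
    refine IsIntegral.sum _ fun S _ => IsIntegral.mul ?_ (isIntegral_scaled _ l (hlβ S) g D hgD)
    have : (-2 : K) = algebraMap ℤ K (-2) := by simp
    rw [this]
    exact (isIntegral_algebraMap).pow _
  have hTfix : ∀ τ : G, τ T = T := by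
    intro τ
    rw [hT, map_sum]
    refine Fintype.sum_equiv (Equiv.finsetCongr (Equiv.mulLeft τ)) _ _ fun S => ?_
    have h1 : τ (β S) = β (Equiv.finsetCongr (Equiv.mulLeft τ) S) := by
      simp [β, Equiv.finsetCongr_apply]
      rfl
    have h2 : τ (aeval (β S) g) = aeval (τ (β S)) g :=
      (aeval_algHom_apply (τ : K →+* K).toIntAlgHom (β S) g).symm
    rw [map_mul, map_mul, map_pow, map_pow, h2, h1]
    simp [Equiv.finsetCongr_apply, map_ofNat]
  obtain ⟨q, hq⟩ := (IsGalois.mem_range_algebraMap_iff_fixed (F := ℚ) T).2 hTfix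
  have hqint : IsIntegral ℤ q := by
    rw [← hq] at hTint
    exact (isIntegral_algebraMap_iff (algebraMap ℚ K).injective).1 hTint
  obtain ⟨t0, ht0⟩ := IsIntegrallyClosed.isIntegral_iff.1 hqint
  have hTt0 : T = (t0 : K) := by
    rw [← hq, ← ht0]; simp
  set Z : ℤ := n * c0 * l ^ D + p * (t0 - c0 * l ^ D * g.eval 0) with hZ
  have hZne : Z ≠ 0 := by
    intro h0
    have hpd : (p : ℤ) ∣ n * c0 * l ^ D := by
      have : n * c0 * l ^ D = p * (-(t0 - c0 * l ^ D * g.eval 0)) := by
        rw [hZ] at h0; linarith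
      rw [this]; exact dvd_mul_right _ _
    have hpp : Prime (p : ℤ) := Nat.prime_iff_prime_int.1 hp
    rcases hpp.dvd_or_dvd hpd with h | h
    · rcases hpp.dvd_or_dvd h with h | h
      · exact hn h
      · have := Nat.le_of_dvd (Int.natAbs_pos.2 hc0odd) (Int.natCast_dvd.1 h)
        omega
    · have h' := hpp.dvd_of_dvd_pow h
      have := Nat.le_of_dvd (Int.natAbs_pos.2 hl0) (Int.natCast_dvd.1 h')
      omega
  have hZC : (Z : ℂ) = ∑ S ∈ Finset.univ.filter (fun S : Finset G => ¬ β S = 0),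
      (-2 : ℂ) ^ S.card * ((l : ℂ) ^ D *
        -(n • Complex.exp (ι (β S)) - p • aeval (ι (β S)) g)) := by
    have e1 : (c0 : ℂ) + ∑ S ∈ Finset.univ.filter (fun S : Finset G => ¬ β S = 0),
        (-2 : ℂ) ^ S.card * Complex.exp (ι (β S)) = 0 := by
      rw [← hrel, ← Finset.sum_filter_add_sum_filter_not Finset.univ
        (fun S : Finset G => β S = 0), hc0]
      push_cast
      congr 1
      refine Finset.sum_congr rfl fun S hS => ?_
      rw [(Finset.mem_filter.1 hS).2]; simp
    have e2 : (t0 : ℂ) = (c0 : ℂ) * (l : ℂ) ^ D * ((g.eval 0 : ℤ) : ℂ) +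
        ∑ S ∈ Finset.univ.filter (fun S : Finset G => ¬ β S = 0),
        (-2 : ℂ) ^ S.card * ((l : ℂ) ^ D * aeval (ι (β S)) g) := by
      have h3 := congrArg ι hTt0
      rw [map_intCast] at h3
      rw [← h3, hT, map_sum, ← Finset.sum_filter_add_sum_filter_not Finset.univ
        (fun S : Finset G => β S = 0), hc0]
      have h4 : ∀ S : Finset G, ι ((-2 : K) ^ S.card * ((l : K) ^ D * aeval (β S) g)) =
          (-2 : ℂ) ^ S.card * ((l : ℂ) ^ D * aeval (ι (β S)) g) := by
        intro S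
        have h2 : ι (aeval (β S) g) = aeval (ι (β S)) g :=
          (aeval_algHom_apply ι.toIntAlgHom (β S) g).symm
        rw [map_mul, map_mul, map_pow, map_pow, h2]
        simp [map_ofNat]
      simp only [h4]
      congr 1
      push_cast
      rw [Finset.sum_mul, Finset.sum_mul]
      refine Finset.sum_congr rfl fun S hS => ?_
      rw [(Finset.mem_filter.1 hS).2, map_zero]
      have : aeval (0 : ℂ) g = ((g.eval 0 : ℤ) : ℂ) := by
        rw [← coeff_zero_eq_eval_zero, ← coeff_zero_eq_aeval_zero']; simp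
      rw [this]; ring
    rw [hZ]
    push_cast
    rw [e2]
    have e3 : ∑ S ∈ Finset.univ.filter (fun S : Finset G => ¬ β S = 0),
      (-2 : ℂ) ^ S.card * ((l : ℂ) ^ D *
        -(n • Complex.exp (ι (β S)) - p • aeval (ι (β S)) g)) =
        -(n : ℂ) * (l : ℂ) ^ D * ∑ S ∈ Finset.univ.filter (fun S : Finset G => ¬ β S = 0),
        (-2 : ℂ) ^ S.card * Complex.exp (ι (β S)) + (p : ℂ) *
        ∑ S ∈ Finset.univ.filter (fun S : Finset G => ¬ β S = 0),
        (-2 : ℂ) ^ S.card * ((l : ℂ) ^ D * aeval (ι (β S)) g) := by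
      rw [Finset.mul_sum, Finset.mul_sum, ← Finset.sum_add_distrib]
      refine Finset.sum_congr rfl fun S _ => ?_
      rw [zsmul_eq_mul, nsmul_eq_mul]; ring
    rw [e3]
    linear_combination (n : ℂ) * (l : ℂ) ^ D * e1
  have hbound : ‖(Z : ℂ)‖ ≤ W * (|(l : ℝ)| ^ f.natDegree * c) ^ p / (p - 1).factorial := by
    have hcp : 0 ≤ c ^ p / ((p - 1).factorial : ℝ) ∨
        Finset.univ.filter (fun S : Finset G => ¬ β S = 0) = ∅ := by
      by_cases h : Finset.univ.filter (fun S : Finset G => ¬ β S = 0) = ∅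
      · exact Or.inr h
      · obtain ⟨S, hS⟩ := Finset.nonempty_iff_ne_empty.2 h
        exact Or.inl ((norm_nonneg _).trans (hap (hfroot S (Finset.mem_filter.1 hS).2)))
    rcases hcp with hcp | hcp
    · rw [hZC]
      refine (norm_sum_le _ _).trans ?_
      calc ∑ S ∈ Finset.univ.filter (fun S : Finset G => ¬ β S = 0),
          ‖(-2 : ℂ) ^ S.card * ((l : ℂ) ^ D *
            -(n • Complex.exp (ι (β S)) - p • aeval (ι (β S)) g))‖
          ≤ ∑ S ∈ Finset.univ.filter (fun S : Finset G => ¬ β S = 0),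
            (2 : ℝ) ^ S.card * (|(l : ℝ)| ^ D * (c ^ p / (p - 1).factorial)) := by
            refine Finset.sum_le_sum fun S hS => ?_
            rw [norm_mul, norm_mul, norm_pow, norm_pow, norm_neg, norm_neg, Complex.norm_intCast]
            have := hap (hfroot S (Finset.mem_filter.1 hS).2)
            simp only [Complex.norm_ofNat]
            gcongr
        _ ≤ ∑ S : Finset G, (2 : ℝ) ^ S.card * (|(l : ℝ)| ^ D * (c ^ p / (p - 1).factorial)) := by
            refine Finset.sum_le_sum_of_subset_of_nonneg (Finset.filter_subset _ _) fun S _ _ => ?_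
            positivity
        _ = _ := by
            rw [← Finset.sum_mul, ← hW, mul_pow, ← pow_mul, mul_comm f.natDegree p]
            ring
    · exfalso
      rw [hcp, Finset.sum_empty] at hZC
      exact hZne (by exact_mod_cast hZC)
  have h1 := hN0 p (by omega)
  have h2 : (1 : ℝ) ≤ ‖(Z : ℂ)‖ := by
    rw [Complex.norm_intCast]
    exact_mod_cast Int.one_le_abs hZne
  linarith

theorem log_two_transcendental : Transcendental ℚ (Real.log 2) := by
  intro h
  have hα : IsIntegral ℚ ((Real.log 2 : ℝ) : ℂ) :=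
    (h.isIntegral).map (IsScalarTower.toAlgHom ℚ ℝ ℂ)
  set μ := minpoly ℚ ((Real.log 2 : ℝ) : ℂ)
  have hsp : (μ.map (algebraMap ℚ ℂ)).Splits := IsAlgClosed.splits _
  let K := IntermediateField.adjoin ℚ (μ.rootSet ℂ)
  have hS : μ.IsSplittingField ℚ K := IntermediateField.adjoin_rootSet_isSplittingField hsp
  have : FiniteDimensional ℚ K := IsSplittingField.finiteDimensional K μ
  have : IsGalois ℚ K := IsGalois.of_separable_splitting_field (p := μ)
    (minpoly.irreducible hα).separable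
  have hmem : ((Real.log 2 : ℝ) : ℂ) ∈ K := by
    refine IntermediateField.subset_adjoin _ _ ?_
    rw [mem_rootSet]
    exact ⟨minpoly.ne_zero hα, minpoly.aeval _ _⟩
  refine trans_core (K := K) (algebraMap K ℂ) ⟨_, hmem⟩ ?_
  show Complex.exp ((Real.log 2 : ℝ) : ℂ) = 2
  rw [← Complex.ofReal_exp, Real.exp_log (by norm_num)]
  norm_num

end Pool.Agent.P.MP_8cdae7_nt
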