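import Mathlib
import Pool.Agent.P.MP_8cdae7_nt.Key
import Pool.Agent.P.MP_8cdae7_nt.Trans

set_option autoImplicit false

open Polynomial

namespace Pool.Agent.P.MP_8cdae7_nt

theorem exists_P {O : Type*} [CommRing O] [Algebra ℚ O] (b e y : O) {n : ℕ}
    (c : Fin n × Fin n × Fin n → ℚ) (hc : c ≠ 0)
    (h : ∑ k, c k • (b ^ (k.1 : ℕ) * e ^ (k.2.1 : ℕ) * y ^ (k.2.2 : ℕ)) = 0) :
    ∃ P : ℚ[X][X][X], P ≠ 0 ∧ eval₂ (aevalAeval b e : ℚ[X][X] →ₐ[ℚ] O).toRingHom y P = 0 := by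
  classical
  refine ⟨∑ k, monomial (k.2.2 : ℕ) (monomial (k.2.1 : ℕ) (monomial (k.1 : ℕ) (c k))), ?_, ?_⟩
  · intro h0
    apply hc
    funext k
    have := congrArg (fun P : ℚ[X][X][X] => ((P.coeff k.2.2).coeff k.2.1).coeff k.1) h0
    simp only [finsetSum_coeff, coeff_zero] at this
    rw [Finset.sum_eq_single k] at this
    · simpa using this
    · intro k' _ hk'
      rw [coeff_monomial]
      split_ifs with h1
      · rw [coeff_monomial]
        split_ifs with h2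
        · rw [coeff_monomial, if_neg]
          intro h3
          exact hk' (Prod.ext (Fin.ext h3) (Prod.ext (Fin.ext h2) (Fin.ext h1)))
        · simp
      · simp
    · simp
  · rw [eval₂_finsetSum, ← h]
    refine Finset.sum_congr rfl fun k _ => ?_
    rw [eval₂_monomial, ← C_mul_X_pow_eq_monomial, ← C_mul_X_pow_eq_monomial]
    simp only [AlgHom.toRingHom_eq_coe, RingHom.coe_coe, map_mul, map_pow, aevalAeval_C,
      aevalAeval_Y, aeval_C, aeval_X, Algebra.smul_def]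
    ring

theorem exists_P_div {O : Type*} [CommRing O] [Algebra ℚ O] (b e ξ : O)
    (h : ∃ P : ℚ[X][X][X], P ≠ 0 ∧
      eval₂ (aevalAeval b e : ℚ[X][X] →ₐ[ℚ] O).toRingHom (e * ξ) P = 0) :
    ∃ P : ℚ[X][X][X], P ≠ 0 ∧ eval₂ (aevalAeval b e : ℚ[X][X] →ₐ[ℚ] O).toRingHom ξ P = 0 := by
  obtain ⟨P, hP0, hP⟩ := h
  refine ⟨P.comp (C X * X), ?_, ?_⟩
  · rw [Ne, comp_eq_zero_iff]
    rintro (h | ⟨-, h⟩)
    · exact hP0 h
    · have := congrArg (fun Q : ℚ[X][X][X] => Q.coeff 1) h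
      simp at this
  · rw [eval₂_comp, eval₂_mul, eval₂_C, eval₂_X]
    simpa only [AlgHom.toRingHom_eq_coe, RingHom.coe_coe, aevalAeval_Y] using hP

theorem ts_congr {A : Type*} [CommRing A] [Algebra ℚ A] {ψ ω : ℕ → ℚ[X]} {N : ℕ}
    (h : ∀ j < N, ψ j = ω j) (b e : A) : ts ψ N b e = ts ω N b e :=
  Finset.sum_congr rfl fun j hj => by rw [h j (Finset.mem_range.1 hj)]

theorem ts_sub {A : Type*} [CommRing A] [Algebra ℚ A] (ψ ω : ℕ → ℚ[X]) (N : ℕ) (b e : A) :
    ts (fun j => ψ j - ω j) N b e = ts ψ N b e - ts ω N b e := by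
  simp only [ts, map_sub, sub_mul, Finset.sum_sub_distrib]

theorem exists_Wser {O : Type} [CommRing O] [IsDomain O] [Algebra ℚ O] {a e x w1 w2 : O}
    (ha : ∀ f : ℚ[X], f ≠ 0 → IsUnit (aeval a f)) (he : ¬ IsUnit e) (he0 : e ≠ 0)
    (hw1 : e ∣ w1) (hw2 : x ∣ w2)
    (hE : ∀ N, ∃ H, e ^ (N + 1) ∣ w1 - HH N H e ((a + w1) * e) w1 ∧
      x ^ (N + 1) ∣ w2 - HH N H x ((a + w2) * x) w2) :
    ∃ W : ℕ → ℚ[X], W 0 = 0 ∧ (∀ j, (W j).natDegree ≤ j) ∧
      (∀ N, e ^ N ∣ w1 - ts W N a e) ∧ (∀ N, x ^ N ∣ w2 - ts W N a x) := by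
  choose H hH1 hH2 using hE
  choose ω hω0 hωd hω using fun N => exists_W N (H N)
  have h1 := fun N => hω N O a e w1 hw1 (hH1 N)
  have h2 := fun N => hω N O a x w2 hw2 (hH2 N)
  have hcons : ∀ N j, j < N + 1 → ω j j = ω N j := by
    intro N j hj
    have h3 := ts_uniq ha he he0 (fun i => ω j i - ω N i) (j + 1) (by
      rw [ts_sub]
      have a1 := h1 j
      have a2 := (pow_dvd_pow e (by omega : j + 1 ≤ N + 1)).trans (h1 N)
      have a3 := dvd_ts_sub_ts (ω N) (by omega : j + 1 ≤ N + 1) a e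
      convert dvd_sub (dvd_add a2 a3) a1 using 1
      ring) j (by omega)
    exact sub_eq_zero.1 h3
  refine ⟨fun j => ω j j, hω0 0, fun j => hωd j j, fun N => ?_, fun N => ?_⟩
  · rcases N with _ | N
    · simp
    · rw [ts_congr (hcons N)]; exact h1 N
  · rcases N with _ | N
    · simp
    · rw [ts_congr (hcons N)]; exact h2 N

/-- The formal branch at `t = log 2`. -/
noncomputable def TT (W : ℕ → ℚ[X]) : PowerSeries ℝ :=
  PowerSeries.C (Real.log 2) + PowerSeries.mk fun n => aeval (Real.log 2) (W n)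

theorem nonalg {O : Type} [CommRing O] [IsDomain O] [Algebra ℚ O] {a e w : O}
    (ha : ∀ f : ℚ[X], f ≠ 0 → IsUnit (aeval a f)) (he : ¬ IsUnit e) (he0 : e ≠ 0) (hw : e ∣ w)
    (hE : ∀ N, ∃ H, e ^ (N + 1) ∣ w - HH N H e ((a + w) * e) w)
    (W : ℕ → ℚ[X]) (hW0 : W 0 = 0) (hW : ∀ N, e ^ N ∣ w - ts W N a e) {n : ℕ}
    (c : Fin n × Fin n × Fin n → ℚ)
    (h : ∑ k, c k • (TT W ^ (k.1 : ℕ) * PowerSeries.X ^ (k.2.1 : ℕ) *
      PowerSeries.C (Real.log 2) ^ (k.2.2 : ℕ)) = 0) : c = 0 := by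
  by_contra hc
  refine key (b := TT W) (e := PowerSeries.X) (τ := PowerSeries.C (Real.log 2)) (ξ := 0)
    (fun f hf => ?_) PowerSeries.X_prime.not_isUnit PowerSeries.X_ne_zero
    (exists_P _ _ _ c hc h) ⟨X, X_ne_zero, by simp⟩ (fun N => ?_) (Or.inl not_isUnit_zero)
  · rw [PowerSeries.isUnit_iff_constantCoeff]
    have h1 := aeval_algHom_apply
      (PowerSeries.constantCoeff : PowerSeries ℝ →+* ℝ).toRatAlgHom (TT W) f
    simp only [RingHom.toRatAlgHom_apply] at h1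
    have h2 : PowerSeries.constantCoeff (TT W) = Real.log 2 := by simp [TT, hW0]
    rw [← h1, h2]
    exact IsUnit.mk0 _ fun h0 => log_two_transcendental ⟨f, hf, h0⟩
  · obtain ⟨H, hH⟩ := hE N
    obtain ⟨ψ, hψ0, -, -, hψ1, hψ⟩ := exists_A N H
    refine ⟨ψ, hψ0, hψ1, ?_⟩
    have h1 := hψ O (a + w) e w hw hH
    let t : ℚ[X][X] := C X
    let Q : ℚ[X][X] := ts W (N + 1) t X - ts ψ (N + 1) (t + ts W (N + 1) t X) X
    have hQ : ∀ (A : Type) [CommRing A] [Algebra ℚ A] (b x : A), aevalAeval b x Q =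
        ts W (N + 1) b x - ts ψ (N + 1) (b + ts W (N + 1) b x) x := by
      intro A _ _ b x
      simp only [Q, t, map_sub, map_ts, map_add, aevalAeval_X, aevalAeval_Y]
    have h2 : e ^ (N + 1) ∣ aevalAeval a e Q := by
      rw [hQ]
      have a1 := hW (N + 1)
      have a2 := dvd_ts_sub (d := e ^ (N + 1)) (b := a + w) (b' := a + ts W (N + 1) a e)
        (by rw [add_sub_add_left_eq_sub]; exact a1) ψ (N + 1) e
      convert dvd_add (dvd_sub h1 a1) a2 using 1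
      ring
    have h3 := ts_uniq ha he he0 Q.coeff (N + 1) (by
      simpa only [sub_sub_cancel] using dvd_sub h2 (dvd_ev_sub_ts Q (N + 1) a e))
    have h4 := dvd_ev_sub_ts Q (N + 1) (PowerSeries.C (Real.log 2)) (PowerSeries.X : PowerSeries ℝ)
    rw [ts_congr (ω := fun _ => 0) h3, hQ] at h4
    have h5 : (PowerSeries.X : PowerSeries ℝ) ^ (N + 1) ∣ TT W - (PowerSeries.C (Real.log 2) +
        ts W (N + 1) (PowerSeries.C (Real.log 2)) PowerSeries.X) := by
      rw [TT, add_sub_add_left_eq_sub, PowerSeries.X_pow_dvd_iff]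
      intro m hm
      have h6 : ∀ f : ℚ[X], aeval (PowerSeries.C (Real.log 2)) f =
          PowerSeries.C (aeval (Real.log 2) f) := fun f =>
        aeval_algHom_apply (PowerSeries.C : ℝ →+* PowerSeries ℝ).toRatAlgHom _ f
      simp [ts, h6, PowerSeries.coeff_X_pow, hm]
    have h7 := dvd_ts_sub h5 ψ (N + 1) PowerSeries.X
    have h8 : ts ψ (N + 1) (PowerSeries.C (Real.log 2)) ((PowerSeries.X : PowerSeries ℝ) * 0) =
        0 := by
      simp [ts, Finset.sum_range_succ', hψ0]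
    have h9 : ts (fun _ => 0) (N + 1) (PowerSeries.C (Real.log 2))
        (PowerSeries.X : PowerSeries ℝ) = 0 := by simp [ts]
    rw [h8]
    rw [h9] at h4
    convert dvd_sub (dvd_add h5 h4) h7 using 1
    ring

theorem strip {A A' : Type*} [CommRing A] [IsDomain A] [CommRing A'] (ψ : A →+* A') {u : A}
    (hu : u ≠ 0) (hψ : ψ u = 0) {n : ℕ} (G : Fin n → A) (hG : ∀ l, ψ (G l) = 0 → G l = 0)
    (h : ∑ l : Fin n, u ^ (l : ℕ) * G l = 0) : ∀ l, G l = 0 := by
  induction n with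
  | zero => exact fun l => l.elim0
  | succ n ih =>
    rw [Fin.sum_univ_succ] at h
    have h1 : ∑ l : Fin n, u ^ ((l.succ : Fin (n + 1)) : ℕ) * G l.succ =
        u * ∑ l : Fin n, u ^ (l : ℕ) * G l.succ := by
      rw [Finset.mul_sum]
      refine Finset.sum_congr rfl fun l _ => ?_
      rw [Fin.val_succ]; ring
    rw [h1] at h
    simp only [Fin.val_zero, pow_zero, one_mul] at h
    have h2 : G 0 = 0 := hG 0 (by simpa [hψ] using congrArg ψ h)
    rw [h2, zero_add] at h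
    have h3 := ih (fun l => G l.succ) (fun l => hG _) ((mul_eq_zero.1 h).resolve_left hu)
    exact Fin.cases h2 h3

end Pool.Agent.P.MP_8cdae7_nt
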