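import Mathlib
import Pool.Agent.P.MP_8cdae7_nt.NonAlg
import Pool.Agent.P.MP_8cdae7_nt.Count

set_option autoImplicit false

open Polynomial

namespace Pool.Agent.P.MP_8cdae7_nt

theorem degreeOf_aeval_le (i : Fin 2) (f : ℚ[X]) :
    (aeval (MvPolynomial.X 0 : R2) f).degreeOf i ≤
      f.natDegree * (MvPolynomial.X 0 : R2).degreeOf i := by
  rw [aeval_eq_sum_range]
  refine (MvPolynomial.degreeOf_sum_le _ _ _).trans (Finset.sup_le fun k hk => ?_)
  rw [MvPolynomial.smul_eq_C_mul]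
  refine (MvPolynomial.degreeOf_C_mul_le _ _ _).trans
    ((MvPolynomial.degreeOf_pow_le _ _ _).trans ?_)
  exact Nat.mul_le_mul_right _ (Nat.lt_succ_iff.1 (Finset.mem_range.1 hk))

noncomputable def T1 (W : ℕ → ℚ[X]) : PowerSeries R2 :=
  PowerSeries.C (MvPolynomial.X 0) + PowerSeries.mk fun n => aeval (MvPolynomial.X 0 : R2) (W n)

noncomputable def T2 (W : ℕ → ℚ[X]) : PowerSeries R2 :=
  PowerSeries.C (MvPolynomial.X 0) +
    PowerSeries.mk fun n => MvPolynomial.X 1 ^ n * aeval (MvPolynomial.X 0 : R2) (W n)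

noncomputable def E2 : PowerSeries R2 := PowerSeries.C (MvPolynomial.X 1) * PowerSeries.X

theorem degX (i j : Fin 2) : (MvPolynomial.X j : R2).degreeOf i ≤ 1 := by
  rw [MvPolynomial.degreeOf_X]; split_ifs <;> simp

theorem degC (i : Fin 2) (n : ℕ) :
    (PowerSeries.coeff n (PowerSeries.C (MvPolynomial.X 0 : R2))).degreeOf i ≤ 1 + n := by
  rw [PowerSeries.coeff_C]
  split_ifs
  · exact (degX _ _).trans (by omega)
  · simp

theorem Cl_T1 {W : ℕ → ℚ[X]} (hW : ∀ j, (W j).natDegree ≤ j) : Cl 1 (T1 W) := by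
  intro n i
  rw [T1, map_add, PowerSeries.coeff_mk]
  refine (MvPolynomial.degreeOf_add_le _ _ _).trans (max_le (degC i n) ?_)
  refine (degreeOf_aeval_le i _).trans ?_
  have := Nat.mul_le_mul (hW n) (degX i 0)
  omega

theorem Cl_T2 {W : ℕ → ℚ[X]} (hW : ∀ j, (W j).natDegree ≤ j) : Cl 1 (T2 W) := by
  intro n i
  rw [T2, map_add, PowerSeries.coeff_mk]
  refine (MvPolynomial.degreeOf_add_le _ _ _).trans (max_le (degC i n) ?_)
  refine (MvPolynomial.degreeOf_mul_le _ _ _).trans ?_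
  have h1 := MvPolynomial.degreeOf_pow_le i (MvPolynomial.X 1 : R2) n
  have h2 := degreeOf_aeval_le i (W n)
  have h3 := hW n
  fin_cases i <;> simp [MvPolynomial.degreeOf_X] at h1 h2 ⊢ <;> omega

theorem Cl_X : Cl 0 PowerSeries.X := by
  intro n i
  rw [PowerSeries.coeff_X]
  split_ifs <;> simp

theorem Cl_E2 : Cl 0 E2 := by
  intro n i
  rw [E2, PowerSeries.coeff_C_mul, PowerSeries.coeff_X]
  split_ifs with h
  · rw [mul_one]; exact (degX _ _).trans (by omega)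
  · simp

/-- Monomials in four elements. -/
def Mon {A : Type*} [CommRing A] (z0 z1 z2 z3 : A) (u : Fin 4 → ℕ) : A :=
  z0 ^ u 0 * z1 ^ u 1 * z2 ^ u 2 * z3 ^ u 3

theorem Cl_Mon {W : ℕ → ℚ[X]} (hW : ∀ j, (W j).natDegree ≤ j) {D : ℕ} {u : Fin 4 → ℕ}
    (hu : ∀ i, u i ≤ D) : Cl (2 * D) (Mon (T1 W) PowerSeries.X (T2 W) E2 u) := by
  refine (((((Cl_T1 hW).pow _).mul (Cl_X.pow _)).mul ((Cl_T2 hW).pow _)).mul (Cl_E2.pow _)).mono ?_
  have := hu 0
  have := hu 2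
  omega

theorem abs_main {O : Type} [CommRing O] [IsDomain O] [ValuationRing O] [Algebra ℚ O]
    {a e ξ w1 w2 : O}
    (ha : ∀ f : ℚ[X], f ≠ 0 → IsUnit (aeval a f)) (he : ¬ IsUnit e) (he0 : e ≠ 0)
    (hw1 : e ∣ w1) (hw2 : e * ξ ∣ w2)
    (hE : ∀ N, ∃ H, e ^ (N + 1) ∣ w1 - HH N H e ((a + w1) * e) w1 ∧
      (e * ξ) ^ (N + 1) ∣ w2 - HH N H (e * ξ) ((a + w2) * (e * ξ)) w2)
    (c0 : ℕ) (hI : ∀ (D : ℕ) (κ : Type) [Fintype κ] (u : κ → Fin 4 → ℕ), (∀ k i, u k i ≤ D) →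
      ∀ c : κ → ℚ, e ^ (c0 * D + 1) ∣ ∑ k, c k • Mon (a + w1) e (a + w2) (e * ξ) (u k) →
        ∑ k, c k • Mon (a + w1) e (a + w2) (e * ξ) (u k) = 0)
    (hξ : ¬ IsUnit ξ ∨ ∃ (c : ℤ[X]) (n : ℤ), c.coeff 1 ≠ 0 ∧ n ≠ 0 ∧
      ¬ IsUnit (aeval a c * (1 - ξ ^ 2) - n * ξ)) : False := by
  obtain ⟨W, hW0, hWd, hW1, hW2⟩ := exists_Wser ha he he0 hw1 hw2 hE
  let φ : R2 →+* O := (MvPolynomial.aeval ![a, ξ] : R2 →ₐ[ℚ] O).toRingHom
  have hφ0 : φ (MvPolynomial.X 0) = a := by simp [φ]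
  have hφ1 : φ (MvPolynomial.X 1) = ξ := by simp [φ]
  have hφa : ∀ f : ℚ[X], φ (aeval (MvPolynomial.X 0 : R2) f) = aeval a f := by
    intro f
    have := aeval_algHom_apply φ.toRatAlgHom (MvPolynomial.X 0 : R2) f
    simp only [RingHom.toRatAlgHom_apply] at this
    rw [← this, hφ0]
  have hT1 : ∀ L, piL φ e L (T1 W) = Ideal.Quotient.mk _ (a + w1) := by
    intro L
    rw [T1, map_add, map_add, piL_C, hφ0]
    congr 1
    rw [piL_eq]
    simpa only [PowerSeries.coeff_mk, hφa, ts] using hW1 L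
  have hT2 : ∀ L, piL φ e L (T2 W) = Ideal.Quotient.mk _ (a + w2) := by
    intro L
    rw [T2, map_add, map_add, piL_C, hφ0]
    congr 1
    rw [piL_eq]
    have := (pow_dvd_pow_of_dvd (dvd_mul_right e ξ) L).trans (hW2 L)
    convert this using 2
    refine Finset.sum_congr rfl fun n _ => ?_
    rw [PowerSeries.coeff_mk, map_mul, map_pow, hφa, hφ1]; ring
  have hE2 : ∀ L, piL φ e L E2 = Ideal.Quotient.mk _ (e * ξ) := by
    intro L
    rw [E2, map_mul, piL_C, piL_X, hφ1, ← map_mul, mul_comm]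
  have hsum : ∀ (L : ℕ) (κ : Type) [Fintype κ] (u : κ → Fin 4 → ℕ) (c : κ → ℚ),
      piL φ e L (∑ k, c k • Mon (T1 W) PowerSeries.X (T2 W) E2 (u k)) =
        Ideal.Quotient.mk _ (∑ k, c k • Mon (a + w1) e (a + w2) (e * ξ) (u k)) := by
    intro L κ _ u c
    rw [map_sum, map_sum]
    refine Finset.sum_congr rfl fun k _ => ?_
    rw [map_rat_smul, map_rat_smul]
    simp only [Mon, map_mul, map_pow, hT1, hT2, hE2, piL_X]
  have hvan : ∀ (D : ℕ) (κ : Type) [Fintype κ] (u : κ → Fin 4 → ℕ), (∀ k i, u k i ≤ D) →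
      ∀ (c : κ → ℚ) (g : PowerSeries R2), piL φ e (c0 * D + 1) g = 0 →
      PowerSeries.X ^ (c0 * D + 1) ∣ ∑ k, c k • Mon (T1 W) PowerSeries.X (T2 W) E2 (u k) + g →
      ∑ k, c k • Mon (a + w1) e (a + w2) (e * ξ) (u k) = 0 := by
    intro D κ _ u hu c g hg h
    refine hI D κ u hu c ?_
    have h1 := map_dvd (piL φ e (c0 * D + 1)) h
    rw [map_add, hg, add_zero, hsum, map_pow, piL_X, ← map_pow,
      Ideal.Quotient.eq_zero_iff_mem.2 (Ideal.mem_span_singleton_self _), zero_dvd_iff,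
      Ideal.Quotient.eq_zero_iff_mem, Ideal.mem_span_singleton] at h1
    exact h1
  -- first counting
  obtain ⟨D1, hD1⟩ := num1 c0
  let u1 : Fin (D1 + 1) × Fin (D1 + 1) × Fin (D1 + 1) × Fin (D1 + 1) → Fin 4 → ℕ :=
    fun k => ![k.2.1, k.2.2.1, k.2.2.2, k.1]
  have hu1 : ∀ k i, u1 k i ≤ D1 := by
    intro k i
    fin_cases i <;> exact Nat.lt_succ_iff.1 (Fin.is_lt _)
  obtain ⟨c, hc0, hc⟩ := lindep (fun k => Mon (T1 W) PowerSeries.X (T2 W) E2 (u1 k)) (2 * D1)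
    (c0 * D1 + 1) (fun k => Cl_Mon hWd (hu1 k)) (by
      simp only [Fintype.card_prod, Fintype.card_fin]
      refine hD1.trans_le (le_of_eq ?_)
      ring)
  have hrel := hvan D1 _ u1 hu1 c 0 (map_zero _) (by rwa [add_zero])
  set S := ∑ k, c k • Mon (T1 W) PowerSeries.X (T2 W) E2 (u1 k) with hS
  have hSπ : ∀ L, piL φ e L S = 0 := fun L => by rw [hS, hsum, hrel, map_zero]
  have hSCl : Cl (2 * D1) S := Cl.sum (fun k => Cl_Mon hWd (hu1 k)) c
  have hS0 : S ≠ 0 := by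
    intro h0
    let ρ : R2 →+* ℝ := (MvPolynomial.aeval ![Real.log 2, 0] : R2 →ₐ[ℚ] ℝ).toRingHom
    have hρ0 : ρ (MvPolynomial.X 0) = Real.log 2 := by simp [ρ]
    have hρ1 : ρ (MvPolynomial.X 1) = 0 := by simp [ρ]
    have hρa : ∀ f : ℚ[X], ρ (aeval (MvPolynomial.X 0 : R2) f) = aeval (Real.log 2) f := by
      intro f
      have := aeval_algHom_apply ρ.toRatAlgHom (MvPolynomial.X 0 : R2) f
      simp only [RingHom.toRatAlgHom_apply] at this
      rw [← this, hρ0]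
    have hρT1 : PowerSeries.map ρ (T1 W) = TT W := by
      rw [T1, TT, map_add, PowerSeries.map_C, hρ0]
      congr 1
      ext n
      simp only [PowerSeries.coeff_map, PowerSeries.coeff_mk, hρa]
    have hρT2 : PowerSeries.map ρ (T2 W) = PowerSeries.C (Real.log 2) := by
      rw [T2, map_add, PowerSeries.map_C, hρ0, add_eq_left]
      ext n
      rcases n with _ | n
      · simp [hW0]
      · simp [hρ1]
    let G : Fin (D1 + 1) → PowerSeries R2 := fun l =>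
      ∑ k : Fin (D1 + 1) × Fin (D1 + 1) × Fin (D1 + 1),
        c (l, k) • (T1 W ^ (k.1 : ℕ) * PowerSeries.X ^ (k.2.1 : ℕ) * T2 W ^ (k.2.2 : ℕ))
    have hG : ∀ l, PowerSeries.map ρ (G l) = 0 → (fun k => c (l, k)) = 0 := by
      intro l hl
      refine nonalg ha he he0 hw1 (fun N => (hE N).imp fun H h => h.1) W hW0 hW1 _ ?_
      rw [← hl, map_sum]
      refine Finset.sum_congr rfl fun k _ => ?_
      rw [map_rat_smul]
      simp only [map_mul, map_pow, hρT1, hρT2, PowerSeries.map_X]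
    have hG' : ∀ l, PowerSeries.map ρ (G l) = 0 → G l = 0 := by
      intro l hl
      have := hG l hl
      refine Finset.sum_eq_zero fun k _ => ?_
      rw [congrFun this k]; simp
    have hE20 : E2 ≠ 0 := mul_ne_zero (by
      rw [Ne, ← map_zero (PowerSeries.C (R := R2)), PowerSeries.C_injective.eq_iff]
      exact MvPolynomial.X_ne_zero _) PowerSeries.X_ne_zero
    have h1 := strip (PowerSeries.map ρ) hE20 (by simp [E2, hρ1]) G hG' (by
      rw [← h0, hS, Fintype.sum_prod_type]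
      refine Finset.sum_congr rfl fun l _ => ?_
      rw [Finset.mul_sum]
      refine Finset.sum_congr rfl fun k _ => ?_
      rw [mul_smul_comm, mul_comm]
      rfl)
    apply hc0
    funext k
    exact congrFun (hG k.1 (by rw [h1, map_zero])) k.2
  -- second counting
  obtain ⟨D, J, hJ, hD⟩ := num2 c0 (2 * D1) S.order.toNat
  have hsec : ∀ u : Fin (D + 1) × Fin (D + 1) × Fin (D + 1) → Fin 4 → ℕ, (∀ k i, u k i ≤ D) →
      ∃ c : Fin (D + 1) × Fin (D + 1) × Fin (D + 1) → ℚ, c ≠ 0 ∧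
        ∑ k, c k • Mon (a + w1) e (a + w2) (e * ξ) (u k) = 0 := by
    intro u hu
    obtain ⟨c, hc0, g, hc⟩ := lindep2 (fun k => Mon (T1 W) PowerSeries.X (T2 W) E2 (u k)) S J
      (2 * D1) (c0 * D + 1) (fun k => by rw [hJ]; exact Cl_Mon hWd (hu k)) hSCl hS0 (by
        simp only [Fintype.card_prod, Fintype.card_fin]
        refine hD.trans_le (le_of_eq ?_)
        ring)
    exact ⟨c, hc0, hvan D _ u hu c _ (by rw [map_mul, hSπ, mul_zero]) hc⟩
  obtain ⟨c2, hc20, hc2⟩ := hsec (fun k => ![k.1, k.2.1, k.2.2, 0]) (by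
    intro k i
    fin_cases i
    exacts [Nat.lt_succ_iff.1 (Fin.is_lt _), Nat.lt_succ_iff.1 (Fin.is_lt _),
      Nat.lt_succ_iff.1 (Fin.is_lt _), Nat.zero_le _])
  obtain ⟨c3, hc30, hc3⟩ := hsec (fun k => ![k.1, k.2.1, 0, k.2.2]) (by
    intro k i
    fin_cases i
    exacts [Nat.lt_succ_iff.1 (Fin.is_lt _), Nat.lt_succ_iff.1 (Fin.is_lt _),
      Nat.zero_le _, Nat.lt_succ_iff.1 (Fin.is_lt _)])
  have hnu : ∀ y z : O, e ∣ y - z → IsUnit y → IsUnit z := by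
    rintro y z ⟨t, ht⟩ hy
    have : y = z + e * t := by linear_combination ht
    rw [this] at hy
    exact (IsLocalRing.isUnit_or_isUnit_of_isUnit_add hy).resolve_right
      fun h => he (isUnit_of_mul_isUnit_left h)
  refine key (b := a + w1) (e := e) (τ := a + w2) (ξ := ξ) (fun f hf => ?_) he he0
    (exists_P _ _ _ c2 hc20 (by simpa [Mon] using hc2))
    (exists_P_div _ _ _ (exists_P _ _ _ c3 hc30 (by simpa [Mon] using hc3))) (fun N => ?_) ?_
  · refine hnu _ _ (dvd_aeval_sub' ?_ f) (ha f hf)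
    simpa using hw1
  · obtain ⟨H, hH1, hH2⟩ := hE N
    obtain ⟨ψ, hψ0, -, -, hψ1, hψ⟩ := exists_A N H
    refine ⟨ψ, hψ0, hψ1, ?_⟩
    have h1 := hψ O (a + w1) e w1 hw1 hH1
    have h2 := (pow_dvd_pow_of_dvd (dvd_mul_right e ξ) _).trans (hψ O (a + w2) (e * ξ) w2 hw2 hH2)
    convert dvd_sub h1 h2 using 1
    ring
  · refine hξ.imp_right fun ⟨c, n, hc, hn, h⟩ => ⟨c, n, hc, hn, fun h' => h (hnu _ _ ?_ h')⟩
    rw [sub_sub_sub_cancel_right, ← sub_mul, ← aeval_int_map, ← aeval_int_map]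
    refine (dvd_aeval_sub' ?_ _).mul_right _
    simpa using hw1

end Pool.Agent.P.MP_8cdae7_nt
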