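import Mathlib
import Pool.Agent.P.MP_8cdae7_nt.Mom

set_option autoImplicit false

open Finset

namespace Pool.Agent.P.MP_8cdae7_nt

theorem sol_norm {k m : ℕ} (hm : 3 ≤ m) (h : ∑ i ∈ Ico 1 m, i ^ k = m ^ k) :
    ∑ i ∈ range m, (1 - (i : ℝ) * (m : ℝ)⁻¹) ^ k = 2 := by
  have hm0 : (0 : ℝ) < m := by exact_mod_cast (by omega : 0 < m)
  obtain ⟨n, rfl⟩ : ∃ n, m = n + 1 := ⟨m - 1, by omega⟩
  have h1 : ∑ i ∈ range (n + 1), (((n + 1 : ℕ) : ℝ) - i) ^ k = 2 * ((n + 1 : ℕ) : ℝ) ^ k := by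
    rw [← Finset.sum_range_reflect]
    have : ∀ j ∈ range (n + 1), (((n + 1 : ℕ) : ℝ) - ((n + 1 - 1 - j : ℕ) : ℝ)) ^ k =
        ((j + 1 : ℕ) : ℝ) ^ k := by
      intro j hj
      have hj' := Finset.mem_range.1 hj
      congr 1
      rw [Nat.cast_sub (by omega)]
      push_cast; ring
    rw [Finset.sum_congr rfl this, Finset.sum_range_succ]
    rw [Finset.sum_Ico_eq_sum_range] at h
    have h2 : ∑ j ∈ range n, ((j + 1 : ℕ) : ℝ) ^ k = ((n + 1 : ℕ) : ℝ) ^ k := by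
      have := congrArg (Nat.cast : ℕ → ℝ) h
      simp only [Nat.add_sub_cancel, Nat.cast_sum, Nat.cast_pow] at this
      rw [← this]
      refine Finset.sum_congr rfl fun j _ => ?_
      rw [add_comm]
    rw [h2]; ring
  have h3 : ∀ i ∈ range (n + 1), (1 - (i : ℝ) * ((n + 1 : ℕ) : ℝ)⁻¹) ^ k =
      (((n + 1 : ℕ) : ℝ) - i) ^ k * (((n + 1 : ℕ) : ℝ) ^ k)⁻¹ := by
    intro i _
    rw [← inv_pow, ← mul_pow]
    congr 1
    field_simp
  rw [Finset.sum_congr rfl h3, ← Finset.sum_mul, h1]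
  field_simp

theorem term_nonneg {m i : ℕ} (k : ℕ) (hi : i ≤ m) (hm : 0 < m) :
    0 ≤ (1 - (i : ℝ) * (m : ℝ)⁻¹) ^ k := by
  have hm0 : (0 : ℝ) < m := by exact_mod_cast hm
  refine pow_nonneg ?_ _
  have : (i : ℝ) * (m : ℝ)⁻¹ ≤ 1 := by
    rw [← div_eq_mul_inv, div_le_one hm0]; exact_mod_cast hi
  linarith

theorem term_le {m i : ℕ} (k : ℕ) (hi : i ≤ m) (hm : 0 < m) :
    (1 - (i : ℝ) * (m : ℝ)⁻¹) ^ k ≤ Real.exp (-((k : ℝ) * (m : ℝ)⁻¹)) ^ i := by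
  have hm0 : (0 : ℝ) < m := by exact_mod_cast hm
  have h0 : 0 ≤ 1 - (i : ℝ) * (m : ℝ)⁻¹ := by
    have : (i : ℝ) * (m : ℝ)⁻¹ ≤ 1 := by
      rw [← div_eq_mul_inv, div_le_one hm0]; exact_mod_cast hi
    linarith
  calc (1 - (i : ℝ) * (m : ℝ)⁻¹) ^ k ≤ Real.exp (-((i : ℝ) * (m : ℝ)⁻¹)) ^ k :=
        pow_le_pow_left₀ h0 (Real.one_sub_le_exp_neg _) _
    _ = _ := by
        rw [← Real.exp_nat_mul, ← Real.exp_nat_mul]; congr 1; ring

theorem tau_lower {k m : ℕ} (hm : 3 ≤ m)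
    (h : ∑ i ∈ range m, (1 - (i : ℝ) * (m : ℝ)⁻¹) ^ k = 2) : 1 / 3 ≤ (k : ℝ) * (m : ℝ)⁻¹ := by
  have hm0 : (3 : ℝ) ≤ m := by exact_mod_cast hm
  have hx : (m : ℝ)⁻¹ ≤ 1 / 3 := by
    rw [one_div]; exact inv_anti₀ (by norm_num) hm0
  have hx0 : 0 < (m : ℝ)⁻¹ := by positivity
  have h1 : ∑ i ∈ range 3, (1 - (i : ℝ) * (m : ℝ)⁻¹) ^ k ≤ 2 := by
    rw [← h]
    refine Finset.sum_le_sum_of_subset_of_nonneg (Finset.range_mono hm) fun i hi _ => ?_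
    exact term_nonneg k (Finset.mem_range.1 hi).le (by omega)
  simp only [Finset.sum_range_succ, Finset.sum_range_zero] at h1
  have h2 := one_add_mul_le_pow (a := -(m : ℝ)⁻¹) (by linarith) k
  have h3 := one_add_mul_le_pow (a := -(2 * (m : ℝ)⁻¹)) (by linarith) k
  push_cast at h1
  simp only [zero_mul, sub_zero, one_pow, one_mul, zero_add] at h1
  rw [← sub_eq_add_neg] at h2 h3
  nlinarith

theorem tau_upper {k m : ℕ} (hm : 3 ≤ m)
    (h : ∑ i ∈ range m, (1 - (i : ℝ) * (m : ℝ)⁻¹) ^ k = 2) :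
    (k : ℝ) * (m : ℝ)⁻¹ ≤ Real.log 2 := by
  have hτ := tau_lower hm h
  set r := Real.exp (-((k : ℝ) * (m : ℝ)⁻¹)) with hr
  have hr0 : 0 < r := Real.exp_pos _
  have hr1 : r < 1 := Real.exp_lt_one_iff.2 (by linarith)
  have h1 : (2 : ℝ) ≤ ∑ i ∈ range m, r ^ i := by
    rw [← h]
    exact Finset.sum_le_sum fun i hi => term_le k (Finset.mem_range.1 hi).le (by omega)
  have h2 : ∑ i ∈ range m, r ^ i ≤ (1 - r)⁻¹ :=
    sum_le_hasSum _ (fun i _ => by positivity) (hasSum_geometric_of_lt_one hr0.le hr1)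
  have h3 : 1 / 2 ≤ r := by
    have : (2 : ℝ) * (1 - r) ≤ 1 := by
      have h4 : 0 < 1 - r := by linarith
      calc (2 : ℝ) * (1 - r) ≤ (1 - r)⁻¹ * (1 - r) := by gcongr; linarith
        _ = 1 := inv_mul_cancel₀ h4.ne'
    linarith
  have h5 := Real.log_le_log (by norm_num) h3
  rw [hr, Real.log_exp, one_div, Real.log_inv] at h5
  linarith

theorem log_one_sub_ge {u : ℝ} (h0 : 0 ≤ u) (h1 : u ≤ 1 / 2) : -u - 2 * u ^ 2 ≤ Real.log (1 - u) := by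
  have := Real.abs_log_sub_add_sum_range_le (x := u) (by rw [abs_of_nonneg h0]; linarith) 1
  simp only [Finset.sum_range_one, zero_add, pow_one, Nat.cast_zero, div_one,
    abs_of_nonneg h0] at this
  have h2 : u ^ (1 + 1) / (1 - u) ≤ 2 * u ^ 2 := by
    rw [div_le_iff₀ (by linarith), show u ^ (1 + 1) = u ^ 2 from rfl]
    nlinarith [mul_nonneg (sq_nonneg u) (show 0 ≤ 1 - 2 * u by linarith)]
  have := (abs_le.1 (this.trans h2)).1
  linarith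

theorem half_pow_eq (i : ℕ) : (1 / 2 : ℝ) ^ i = Real.exp (-(i * Real.log 2)) := by
  rw [Real.exp_neg, Real.exp_nat_mul, Real.exp_log (by norm_num), one_div, inv_pow]

theorem w_lower {k m : ℕ} (hm : 3 ≤ m)
    (h : ∑ i ∈ range m, (1 - (i : ℝ) * (m : ℝ)⁻¹) ^ k = 2) :
    Real.log 2 - (k : ℝ) * (m : ℝ)⁻¹ ≤ 28 * (m : ℝ)⁻¹ := by
  have hτ := tau_lower hm h
  have hτ' := tau_upper hm h
  have hl : Real.log 2 ≤ 1 := by
    have := Real.log_two_lt_d9; linarith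
  have hm0 : (3 : ℝ) ≤ m := by exact_mod_cast hm
  set x := (m : ℝ)⁻¹ with hx
  have hx0 : 0 < x := by positivity
  have hmx : (m : ℝ) * x = 1 := mul_inv_cancel₀ (by positivity)
  set τ := (k : ℝ) * x with hτdef
  set v := Real.log 2 - τ with hv
  have hv0 : 0 ≤ v := by linarith
  set I := m / 2 with hI
  have hI1 : 1 ≤ I := by omega
  have hterm : ∀ i ∈ range (I + 1), (1 / 2 : ℝ) ^ i + v * ((i : ℝ) ^ 1 * (1 / 2 : ℝ) ^ i) -
      2 * x * ((i : ℝ) ^ 2 * (1 / 2 : ℝ) ^ i) ≤ (1 - (i : ℝ) * x) ^ k := by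
    intro i hi
    have hi' : 2 * i ≤ m := by have := Finset.mem_range.1 hi; omega
    have hi2 : (2 : ℝ) * i ≤ m := by exact_mod_cast hi'
    have hu : (i : ℝ) * x ≤ 1 / 2 := by nlinarith
    have hu0 : 0 ≤ (i : ℝ) * x := by positivity
    have hlog := log_one_sub_ge hu0 hu
    have hpos : 0 < 1 - (i : ℝ) * x := by linarith
    have e1 : (1 - (i : ℝ) * x) ^ k = Real.exp (k * Real.log (1 - (i : ℝ) * x)) := by
      rw [Real.exp_nat_mul, Real.exp_log hpos]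
    have e2 : -(i * Real.log 2) + (i * v - 2 * x * (i : ℝ) ^ 2) ≤
        k * Real.log (1 - (i : ℝ) * x) := by
      have h1 : (k : ℝ) * (-((i : ℝ) * x) - 2 * ((i : ℝ) * x) ^ 2) ≤
          k * Real.log (1 - (i : ℝ) * x) := by gcongr
      have h2 : (k : ℝ) * (-((i : ℝ) * x) - 2 * ((i : ℝ) * x) ^ 2) =
          -(i * τ) - τ * (2 * x * (i : ℝ) ^ 2) := by rw [hτdef]; ring
      have h3 : τ * (2 * x * (i : ℝ) ^ 2) ≤ 1 * (2 * x * (i : ℝ) ^ 2) := by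
        gcongr; linarith
      rw [hv]; nlinarith
    rw [e1]
    refine le_trans ?_ (Real.exp_le_exp.2 e2)
    rw [Real.exp_add, ← half_pow_eq]
    have := Real.add_one_le_exp (i * v - 2 * x * (i : ℝ) ^ 2)
    have hp : 0 < (1 / 2 : ℝ) ^ i := by positivity
    nlinarith
  have h1 : ∑ i ∈ range (I + 1), (1 - (i : ℝ) * x) ^ k ≤ 2 := by
    rw [← h]
    refine Finset.sum_le_sum_of_subset_of_nonneg (Finset.range_mono (by omega)) fun i hi _ => ?_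
    exact term_nonneg k (Finset.mem_range.1 hi).le (by omega)
  have h2 := (Finset.sum_le_sum hterm).trans h1
  rw [Finset.sum_sub_distrib, Finset.sum_add_distrib, ← Finset.mul_sum, ← Finset.mul_sum] at h2
  have h3 : ∑ i ∈ range (I + 1), (1 / 2 : ℝ) ^ i = 2 - (1 / 2 : ℝ) ^ I := by
    rw [geom_sum_eq (by norm_num), pow_succ]; ring
  have h4 : (1 / 2 : ℝ) ≤ ∑ i ∈ range (I + 1), (i : ℝ) ^ 1 * (1 / 2 : ℝ) ^ i := by
    have := Finset.single_le_sum (f := fun i : ℕ => (i : ℝ) ^ 1 * (1 / 2 : ℝ) ^ i)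
      (s := range (I + 1)) (fun i _ => by positivity) (a := 1) (Finset.mem_range.2 (by omega))
    simpa using this
  have h5 : ∑ i ∈ range (I + 1), (i : ℝ) ^ 2 * (1 / 2 : ℝ) ^ i ≤ 6 := by
    have := sum_le_hasSum (range (I + 1)) (fun i _ => by positivity) (hasSum_bb 2)
    rw [bb_two] at this
    exact_mod_cast this
  have h6 : (1 / 2 : ℝ) ^ I ≤ 2 * x := by
    have h7 : ((I + 1 : ℕ) : ℝ) ≤ 2 ^ I := by
      exact_mod_cast Nat.succ_le_of_lt (Nat.lt_two_pow_self (n := I))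
    have h8 : (m : ℝ) ≤ 2 * ((I + 1 : ℕ) : ℝ) := by
      exact_mod_cast (by omega : m ≤ 2 * (I + 1))
    rw [one_div, inv_pow, inv_le_comm₀ (by positivity) (by positivity), mul_inv, hx, inv_inv]
    linarith
  nlinarith

theorem rough {k m : ℕ} (hm : 3 ≤ m)
    (h : ∑ i ∈ range m, (1 - (i : ℝ) * (m : ℝ)⁻¹) ^ k = 2) :
    |(k : ℝ) * (m : ℝ)⁻¹ - Real.log 2| ≤ 28 * (m : ℝ)⁻¹ := by
  have h1 := tau_upper hm h
  have h2 := w_lower hm h
  rw [abs_sub_comm, abs_of_nonneg (by linarith)]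
  exact h2

end Pool.Agent.P.MP_8cdae7_nt
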