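import Mathlib
import Pool.Agent.P.MP_8cdae7_nt.Rough

set_option autoImplicit false

open Finset

namespace Pool.Agent.P.MP_8cdae7_nt

noncomputable def Yf (N : ℕ) (x y w I : ℝ) : ℝ :=
  -I * w - y * ∑ s ∈ range N, x ^ s / (s + 2) * I ^ (s + 2)

noncomputable def EE (N : ℕ) (z : ℝ) : ℝ := ∑ n ∈ range (N + 2), z ^ n / n.factorial

theorem EE_bound (N : ℕ) {z : ℝ} (hz : |z| ≤ 1) : |Real.exp z - EE N z| ≤ 2 * |z| ^ (N + 1) := by
  refine (Real.exp_bound hz (n := N + 2) (by omega)).trans ?_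
  have h1 : |z| ^ (N + 2) ≤ |z| ^ (N + 1) := pow_le_pow_of_le_one (abs_nonneg _) hz (by omega)
  have h2 : (((N + 2).succ : ℕ) : ℝ) / (((N + 2).factorial : ℝ) * ((N + 2 : ℕ) : ℝ)) ≤ 2 := by
    have h3 : (1 : ℝ) ≤ ((N + 2).factorial : ℝ) := by exact_mod_cast Nat.factorial_pos _
    rw [div_le_iff₀ (by positivity)]
    push_cast
    have : (0 : ℝ) ≤ N := by positivity
    nlinarith
  calc |z| ^ (N + 2) * ((((N + 2).succ : ℕ) : ℝ) / (((N + 2).factorial : ℝ) * ((N + 2 : ℕ) : ℝ)))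
      ≤ |z| ^ (N + 1) * 2 := by gcongr
    _ = _ := by ring

theorem EE_abs (N : ℕ) {z T : ℝ} (hT : 1 ≤ T) (hz : |z| ≤ T) :
    |EE N z| ≤ (N + 2) * T ^ (N + 1) := by
  refine (Finset.abs_sum_le_sum_abs _ _).trans ?_
  calc ∑ n ∈ range (N + 2), |z ^ n / (n.factorial : ℝ)| ≤ ∑ _n ∈ range (N + 2), T ^ (N + 1) := by
        refine Finset.sum_le_sum fun n hn => ?_
        have hn' := Finset.mem_range.1 hn
        have h3 : (1 : ℝ) ≤ (n.factorial : ℝ) := by exact_mod_cast Nat.factorial_pos _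
        rw [abs_div, abs_pow, abs_of_pos (by positivity : (0 : ℝ) < n.factorial)]
        calc |z| ^ n / (n.factorial : ℝ) ≤ |z| ^ n := div_le_self (by positivity) h3
          _ ≤ T ^ n := by gcongr
          _ ≤ T ^ (N + 1) := pow_le_pow_right₀ hT (by omega)
    _ = _ := by simp

theorem Yf_abs (N : ℕ) {x y w I T : ℝ} (hx : 0 ≤ x) (hy0 : 0 ≤ y) (hy : y ≤ x)
    (hw : |w| ≤ 28 * x) (hI : 0 ≤ I) (hIT : I ≤ T)
    (hs : ∀ s < N, x ^ s * I ^ (s + 2) ≤ T) : |Yf N x y w I| ≤ (28 + N) * (x * T) := by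
  unfold Yf
  have hT : 0 ≤ T := hI.trans hIT
  have h1 : |-I * w| ≤ 28 * (x * T) := by
    rw [abs_mul, abs_neg, abs_of_nonneg hI]
    calc I * |w| ≤ T * (28 * x) := by gcongr
      _ = _ := by ring
  have h2 : |y * ∑ s ∈ range N, x ^ s / (s + 2) * I ^ (s + 2)| ≤ N * (x * T) := by
    rw [abs_mul, abs_of_nonneg hy0, abs_of_nonneg (by positivity)]
    have : ∑ s ∈ range N, x ^ s / (s + 2) * I ^ (s + 2) ≤ ∑ _s ∈ range N, T := by
      refine Finset.sum_le_sum fun s hs' => ?_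
      have h3 := hs s (Finset.mem_range.1 hs')
      have h4 : x ^ s / (s + 2) ≤ x ^ s := div_le_self (by positivity) (by
        have : (0 : ℝ) ≤ s := by positivity
        linarith)
      calc x ^ s / (s + 2) * I ^ (s + 2) ≤ x ^ s * I ^ (s + 2) := by gcongr
        _ ≤ T := h3
    rw [Finset.sum_const, Finset.card_range, nsmul_eq_mul] at this
    calc y * ∑ s ∈ range N, x ^ s / (s + 2) * I ^ (s + 2) ≤ x * (N * T) := by gcongr
      _ = _ := by ring
  calc |-I * w - y * ∑ s ∈ range N, x ^ s / (s + 2) * I ^ (s + 2)|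
      ≤ |-I * w| + |y * ∑ s ∈ range N, x ^ s / (s + 2) * I ^ (s + 2)| := abs_sub _ _
    _ ≤ _ := by linarith

theorem term_small (N k : ℕ) {x : ℝ} (i : ℕ) (hx : 0 < x) (hτ : (k : ℝ) * x ≤ 1)
    (hw : |k * x - Real.log 2| ≤ 28 * x) (hI : (1 : ℝ) ≤ i)
    (hK : (30 + N) * (x * (i : ℝ) ^ 2) ≤ 1) :
    |(1 - (i : ℝ) * x) ^ k - EE N (Yf N x (k * x * x) (k * x - Real.log 2) i) * (1 / 2) ^ i| ≤
      (12 + 2 * (30 + N) ^ (N + 1)) * x ^ (N + 1) * ((i : ℝ) ^ (2 * N + 2) * (1 / 2) ^ i) := by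
  set I := (i : ℝ) with hIdef
  set τ := (k : ℝ) * x with hτdef
  set w := τ - Real.log 2 with hwdef
  have hτ0 : 0 ≤ τ := by positivity
  have hN : (0 : ℝ) ≤ N := by positivity
  have hxI : x * I ^ 2 ≤ 1 / 30 := by
    have : 0 ≤ x * I ^ 2 := by positivity
    nlinarith
  have hII : I ≤ I ^ 2 := by nlinarith
  have hu : I * x ≤ 1 / 30 := by nlinarith
  have hu0 : 0 ≤ I * x := by positivity
  set Y := Yf N x (τ * x) w I with hY
  have hYb : |Y| ≤ (28 + N) * (x * I ^ 2) := by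
    refine Yf_abs N hx.le (by positivity) (by nlinarith) hw (by linarith) hII fun s _ => ?_
    have : x ^ s * I ^ (s + 2) = (I * x) ^ s * I ^ 2 := by ring
    rw [this]
    have h1 : (I * x) ^ s ≤ 1 := pow_le_one₀ hu0 (by linarith)
    nlinarith [sq_nonneg I]
  have hYb' : |Y| ≤ (30 + N) * (x * I ^ 2) := hYb.trans (by gcongr; linarith)
  have hY1 : |Y| ≤ 1 := hYb'.trans hK
  have hpos : 0 < 1 - I * x := by linarith
  have hlog := Real.abs_log_sub_add_sum_range_le (x := I * x)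
    (by rw [abs_of_nonneg hu0]; linarith) (N + 1)
  rw [abs_of_nonneg hu0] at hlog
  set err := ∑ j ∈ range (N + 1), (I * x) ^ (j + 1) / (j + 1) + Real.log (1 - I * x) with herr
  have herr' : |err| ≤ 2 * (I * x) ^ (N + 2) := by
    refine hlog.trans ?_
    rw [div_le_iff₀ hpos, show N + 1 + 1 = N + 2 from rfl]
    have : 0 ≤ (I * x) ^ (N + 2) := by positivity
    nlinarith
  set δ := (k : ℝ) * err with hδ
  have hδ1 : |δ| ≤ 2 * (I ^ (N + 2) * x ^ (N + 1)) := by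
    rw [hδ, abs_mul, abs_of_nonneg (by positivity : (0 : ℝ) ≤ k)]
    calc (k : ℝ) * |err| ≤ k * (2 * (I * x) ^ (N + 2)) := by gcongr
      _ = τ * (2 * (I ^ (N + 2) * x ^ (N + 1))) := by rw [hτdef]; ring
      _ ≤ 1 * (2 * (I ^ (N + 2) * x ^ (N + 1))) := by gcongr
      _ = _ := one_mul _
  have hδ2 : |δ| ≤ 1 := by
    refine hδ1.trans ?_
    have : I ^ (N + 2) * x ^ (N + 1) = (I * x) ^ N * (x * I ^ 2) := by ring
    rw [this]
    have h1 : (I * x) ^ N ≤ 1 := pow_le_one₀ hu0 (by linarith)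
    have : 0 ≤ x * I ^ 2 := by positivity
    nlinarith
  have hexp : (1 - I * x) ^ k = Real.exp (Y + δ) * (1 / 2) ^ i := by
    rw [half_pow_eq, ← Real.exp_add, ← Real.exp_log hpos, ← Real.exp_nat_mul]
    congr 1
    have e1 : Real.log (1 - I * x) = err - ∑ j ∈ range (N + 1), (I * x) ^ (j + 1) / (j + 1) := by
      rw [herr]; ring
    have e2 : (k : ℝ) * ∑ j ∈ range (N + 1), (I * x) ^ (j + 1) / (j + 1) =
        τ * I + τ * x * ∑ s ∈ range N, x ^ s / (s + 2) * I ^ (s + 2) := by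
      rw [Finset.sum_range_succ', mul_add, Finset.mul_sum, Finset.mul_sum, add_comm, hτdef]
      congr 1
      · simp; ring
      · refine Finset.sum_congr rfl fun s _ => ?_
        push_cast
        have : (s : ℝ) + 1 + 1 = s + 2 := by ring
        rw [this]; ring
    rw [e1, mul_sub, e2, ← hδ, hY, Yf, hwdef]
    ring
  rw [hexp, ← sub_mul, abs_mul, abs_of_pos (by positivity : (0 : ℝ) < (1 / 2) ^ i), ← mul_assoc]
  refine mul_le_mul_of_nonneg_right ?_ (by positivity)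
  have h1 : |Real.exp (Y + δ) - Real.exp Y| ≤ 12 * (I ^ (N + 2) * x ^ (N + 1)) := by
    rw [Real.exp_add, ← mul_sub_one, abs_mul, abs_of_pos (Real.exp_pos _)]
    have h2 : Real.exp Y ≤ 3 := by
      have : Real.exp Y ≤ Real.exp 1 := Real.exp_le_exp.2 ((le_abs_self _).trans hY1)
      have := Real.exp_one_lt_d9
      linarith
    have h3 := Real.abs_exp_sub_one_le hδ2
    calc Real.exp Y * |Real.exp δ - 1| ≤ 3 * (2 * |δ|) := by gcongr
      _ ≤ _ := by linarith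
  have h2 : |Real.exp Y - EE N Y| ≤ 2 * ((30 + N) * (x * I ^ 2)) ^ (N + 1) :=
    (EE_bound N hY1).trans (by gcongr)
  have h3 : I ^ (N + 2) ≤ I ^ (2 * N + 2) := pow_le_pow_right₀ hI (by omega)
  have h4 : ((30 + N) * (x * I ^ 2)) ^ (N + 1) =
      (30 + N) ^ (N + 1) * x ^ (N + 1) * I ^ (2 * N + 2) := by
    rw [mul_pow, mul_pow, ← pow_mul]; ring
  calc |Real.exp (Y + δ) - EE N Y| ≤ |Real.exp (Y + δ) - Real.exp Y| + |Real.exp Y - EE N Y| :=
        abs_sub_le _ _ _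
    _ ≤ 12 * (I ^ (2 * N + 2) * x ^ (N + 1)) + 2 * ((30 + N) ^ (N + 1) * x ^ (N + 1) *
        I ^ (2 * N + 2)) := by
        rw [← h4]
        refine add_le_add (h1.trans ?_) h2
        gcongr
    _ = _ := by ring

theorem term_est (N : ℕ) : ∃ (C : ℝ) (c : ℕ), ∀ k m : ℕ, 3 ≤ m →
    1 / 3 ≤ (k : ℝ) * (m : ℝ)⁻¹ → (k : ℝ) * (m : ℝ)⁻¹ ≤ 1 →
    |(k : ℝ) * (m : ℝ)⁻¹ - Real.log 2| ≤ 28 * (m : ℝ)⁻¹ → ∀ i : ℕ,
    |(if i < m then (1 - (i : ℝ) * (m : ℝ)⁻¹) ^ k else 0) -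
      EE N (Yf N (m : ℝ)⁻¹ (k * (m : ℝ)⁻¹ * (m : ℝ)⁻¹) (k * (m : ℝ)⁻¹ - Real.log 2) i) *
        (1 / 2) ^ i| ≤
      C * ((m : ℝ)⁻¹) ^ (N + 1) * ((i : ℝ) ^ c * Real.exp (-(1 / 3)) ^ i) := by
  set K : ℝ := 30 + N with hK
  have hN : (0 : ℝ) ≤ N := by positivity
  have hK1 : 1 ≤ K := by linarith
  refine ⟨12 + 2 * K ^ (N + 1) + (N + 3) * K ^ (2 * N + 2), (N + 2) * (N + 1) + (2 * N + 2),
    fun k m hm hτ0 hτ1 hw i => ?_⟩
  have hm0 : (3 : ℝ) ≤ m := by exact_mod_cast hm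
  set x := (m : ℝ)⁻¹ with hx
  have hx0 : 0 < x := by positivity
  have hx1 : x ≤ 1 := inv_le_one_of_one_le₀ (by linarith)
  have hmx : (m : ℝ) * x = 1 := mul_inv_cancel₀ (by positivity)
  set ρ := Real.exp (-(1 / 3)) with hρ
  have hρ0 : 0 < ρ := Real.exp_pos _
  have hρ2 : (1 / 2 : ℝ) ≤ ρ := by
    have := Real.one_sub_le_exp_neg (1 / 3)
    linarith
  rcases Nat.eq_zero_or_pos i with rfl | hi
  · have : EE N (Yf N x (k * x * x) (k * x - Real.log 2) ((0 : ℕ) : ℝ)) = 1 := by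
      simp [EE, Yf, Finset.sum_range_succ']
    rw [this, if_pos (by omega)]
    simp only [Nat.cast_zero, zero_mul, sub_zero, one_pow, pow_zero, mul_one, sub_self, abs_zero]
    positivity
  have hI : (1 : ℝ) ≤ i := by exact_mod_cast hi
  have hρi : (1 / 2 : ℝ) ^ i ≤ ρ ^ i := by gcongr
  by_cases hA : K * (x * (i : ℝ) ^ 2) ≤ 1
  · have him : i < m := by
      have h1 : (i : ℝ) * x < 1 := by
        have : (i : ℝ) ≤ (i : ℝ) ^ 2 := by nlinarith
        have h2 : 0 < x * (i : ℝ) ^ 2 := by positivity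
        nlinarith
      have : (i : ℝ) < m := by
        by_contra h
        push Not at h
        nlinarith
      exact_mod_cast this
    rw [if_pos him]
    refine (term_small N k i hx0 hτ1 hw hI hA).trans ?_
    have : (i : ℝ) ^ (2 * N + 2) ≤ (i : ℝ) ^ ((N + 2) * (N + 1) + (2 * N + 2)) :=
      pow_le_pow_right₀ hI (by omega)
    have h7 : 12 + 2 * (30 + (N : ℝ)) ^ (N + 1) ≤
        12 + 2 * K ^ (N + 1) + (N + 3) * K ^ (2 * N + 2) := by
      have : 0 ≤ (N + 3) * K ^ (2 * N + 2) := by positivity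
      linarith
    gcongr
  · push Not at hA
    have h1 : |(if i < m then (1 - (i : ℝ) * x) ^ k else 0)| ≤ ρ ^ i := by
      split_ifs with him
      · rw [abs_of_nonneg (term_nonneg k him.le (by omega))]
        refine (term_le k him.le (by omega)).trans ?_
        gcongr
        exact Real.exp_le_exp.2 (by linarith)
      · simp only [abs_zero]; positivity
    have hT : 1 ≤ K * (i : ℝ) ^ (N + 2) := one_le_mul_of_one_le_of_one_le hK1 (one_le_pow₀ hI)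
    have h2 : |Yf N x (k * x * x) (k * x - Real.log 2) i| ≤ K * (i : ℝ) ^ (N + 2) := by
      refine (Yf_abs N (T := (i : ℝ) ^ (N + 2)) hx0.le (by positivity) (by nlinarith) hw
        (by positivity) (le_self_pow₀ hI (by omega)) fun s hs => ?_).trans ?_
      · have h3 : x ^ s ≤ 1 := pow_le_one₀ hx0.le hx1
        have h4 : (i : ℝ) ^ (s + 2) ≤ (i : ℝ) ^ (N + 2) := pow_le_pow_right₀ hI (by omega)
        calc x ^ s * (i : ℝ) ^ (s + 2) ≤ 1 * (i : ℝ) ^ (N + 2) := by gcongr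
          _ = _ := one_mul _
      · calc (28 + N) * (x * (i : ℝ) ^ (N + 2)) ≤ K * (1 * (i : ℝ) ^ (N + 2)) := by
              gcongr; linarith
          _ = _ := by rw [one_mul]
    have h3 := EE_abs N hT h2
    have h4 : 1 ≤ (K * (x * (i : ℝ) ^ 2)) ^ (N + 1) := one_le_pow₀ hA.le
    have h5 : 1 ≤ (K * (i : ℝ) ^ (N + 2)) ^ (N + 1) := one_le_pow₀ hT
    calc |(if i < m then (1 - (i : ℝ) * x) ^ k else 0) -
          EE N (Yf N x (k * x * x) (k * x - Real.log 2) i) * (1 / 2) ^ i|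
        ≤ |(if i < m then (1 - (i : ℝ) * x) ^ k else 0)| +
          |EE N (Yf N x (k * x * x) (k * x - Real.log 2) i) * (1 / 2) ^ i| := abs_sub _ _
      _ ≤ ρ ^ i + (N + 2) * (K * (i : ℝ) ^ (N + 2)) ^ (N + 1) * ρ ^ i := by
          refine add_le_add h1 ?_
          rw [abs_mul, abs_of_pos (by positivity : (0 : ℝ) < (1 / 2) ^ i)]
          gcongr
      _ ≤ ((N + 3) * (K * (i : ℝ) ^ (N + 2)) ^ (N + 1) * ρ ^ i) * 1 := by
          have : 0 < ρ ^ i := by positivity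
          nlinarith
      _ ≤ ((N + 3) * (K * (i : ℝ) ^ (N + 2)) ^ (N + 1) * ρ ^ i) *
          (K * (x * (i : ℝ) ^ 2)) ^ (N + 1) := by gcongr
      _ = (N + 3) * K ^ (2 * N + 2) * x ^ (N + 1) *
          ((i : ℝ) ^ ((N + 2) * (N + 1) + (2 * N + 2)) * ρ ^ i) := by
          rw [mul_pow, mul_pow, mul_pow, ← pow_mul, ← pow_mul]; ring
      _ ≤ _ := by
          gcongr
          have : 0 ≤ K ^ (N + 1) := by positivity
          linarith

open Polynomial in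
theorem poly_sum (N : ℕ) : ∃ H : Fin 3 → MvPolynomial (Fin 3) ℚ, ∀ x y w : ℝ,
    HasSum (fun i : ℕ => EE N (Yf N x y w i) * (1 / 2 : ℝ) ^ i) (2 - 2 * (w - HH N H x y w)) := by
  let P := MvPolynomial (Fin 3) ℚ
  let U : P[X] := -X
  let V : P[X] := -∑ s ∈ range N,
    C (MvPolynomial.X 0 ^ s * MvPolynomial.C ((s + 2 : ℚ)⁻¹)) * X ^ (s + 2)
  let Y : P[X] := C (MvPolynomial.X 2) * U + C (MvPolynomial.X 1) * V
  let R : P[X] := ∑ n ∈ range N, C (MvPolynomial.C (((n + 2).factorial : ℚ)⁻¹)) * Y ^ n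
  refine ⟨![MvPolynomial.C (1 / 2) * mom (U ^ 2 * R), mom (U * V * R),
    MvPolynomial.C (1 / 2) * mom (V ^ 2 * R)], fun x y w => ?_⟩
  let φ : P →+* ℝ := (MvPolynomial.aeval ![x, y, w] : P →ₐ[ℚ] ℝ).toRingHom
  have hφ : ∀ Q, φ Q = MvPolynomial.aeval ![x, y, w] Q := fun _ => rfl
  have hU : ∀ I : ℝ, eval₂ φ I U = -I := by intro I; simp [U]
  have hV : ∀ I : ℝ, eval₂ φ I V = -∑ s ∈ range N, x ^ s / (s + 2) * I ^ (s + 2) := by
    intro I
    simp only [V, eval₂_neg, eval₂_finsetSum, eval₂_mul, eval₂_C, eval₂_pow, eval₂_X, hφ]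
    simp [div_eq_mul_inv]
  have hY : ∀ I : ℝ, eval₂ φ I Y = Yf N x y w I := by
    intro I
    simp only [Y, eval₂_add, eval₂_mul, eval₂_C, hU, hV, hφ, Yf]
    simp; ring
  have hR : ∀ I : ℝ, eval₂ φ I R = ∑ n ∈ range N, Yf N x y w I ^ n / (n + 2).factorial := by
    intro I
    simp only [R, eval₂_finsetSum, eval₂_mul, eval₂_C, eval₂_pow, hY, hφ]
    refine Finset.sum_congr rfl fun n _ => ?_
    simp; ring
  have h0 := hasSum_bb 0
  have h1 := (hasSum_bb 1).mul_left (-w)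
  have h2 : HasSum (fun i : ℕ => ∑ s ∈ range N, -y * (x ^ s / (s + 2)) *
      ((i : ℝ) ^ (s + 2) * (1 / 2 : ℝ) ^ i))
      (∑ s ∈ range N, -y * (x ^ s / (s + 2)) * (bb (s + 2) : ℝ)) :=
    hasSum_sum fun s _ => (hasSum_bb (s + 2)).mul_left _
  have h3 := (hasSum_mom φ (U ^ 2 * R)).mul_left (w ^ 2)
  have h4 := (hasSum_mom φ (U * V * R)).mul_left (2 * w * y)
  have h5 := (hasSum_mom φ (V ^ 2 * R)).mul_left (y ^ 2)
  have h6 := ((((h0.add h1).add h2).add h3).add h4).add h5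
  convert h6 using 1
  · funext i
    have e1 : EE N (Yf N x y w i) = 1 + Yf N x y w i + Yf N x y w i ^ 2 * eval₂ φ (i : ℝ) R := by
      rw [EE, Finset.sum_range_succ', Finset.sum_range_succ', hR, Finset.mul_sum]
      have : ∀ n ∈ range N, Yf N x y w i ^ (n + 1 + 1) / ((n + 1 + 1).factorial : ℝ) =
          Yf N x y w i ^ 2 * (Yf N x y w i ^ n / (n + 2).factorial) := by
        intro n _; ring
      rw [Finset.sum_congr rfl this]
      simp; ring
    have e2 : Yf N x y w i = w * eval₂ φ (i : ℝ) U + y * eval₂ φ (i : ℝ) V := by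
      rw [hU, hV, Yf]; ring
    have e3 : ∑ s ∈ range N, -y * (x ^ s / (s + 2)) * ((i : ℝ) ^ (s + 2) * (1 / 2 : ℝ) ^ i) =
        y * eval₂ φ (i : ℝ) V * (1 / 2 : ℝ) ^ i := by
      rw [hV, mul_neg, neg_mul, Finset.mul_sum, Finset.sum_mul, ← Finset.sum_neg_distrib]
      refine Finset.sum_congr rfl fun s _ => ?_
      ring
    rw [e1, e3, e2]
    simp only [eval₂_mul, eval₂_pow, hU]
    ring
  · have e4 : ∑ s ∈ range N, -y * (x ^ s / (s + 2)) * (bb (s + 2) : ℝ) =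
        2 * (-y * ∑ s ∈ range N, algebraMap ℚ ℝ (lam (s + 1)) * x ^ s) := by
      rw [Finset.mul_sum, Finset.mul_sum]
      refine Finset.sum_congr rfl fun s _ => ?_
      simp only [lam, eq_ratCast]
      push_cast
      have : (s : ℝ) + 1 + 1 = s + 2 := by ring
      rw [this]
      field_simp
    rw [e4, HH, bb_zero, bb_one]
    simp only [hφ, Matrix.cons_val_zero, Matrix.cons_val_one, Matrix.cons_val, map_mul,
      MvPolynomial.aeval_C, eq_ratCast]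
    push_cast
    ring

theorem expansion (N : ℕ) : ∃ (H : Fin 3 → MvPolynomial (Fin 3) ℚ) (C : ℝ), ∀ k m : ℕ, 3 ≤ m →
    ∑ i ∈ Ico 1 m, i ^ k = m ^ k →
    |((k : ℝ) * (m : ℝ)⁻¹ - Real.log 2) - HH N H (m : ℝ)⁻¹ (k * (m : ℝ)⁻¹ * (m : ℝ)⁻¹)
      (k * (m : ℝ)⁻¹ - Real.log 2)| ≤ C * ((m : ℝ)⁻¹) ^ (N + 1) := by
  obtain ⟨H, hH⟩ := poly_sum N
  obtain ⟨C, c, hC⟩ := term_est N
  have hsum : Summable (fun i : ℕ => (i : ℝ) ^ c * Real.exp (-(1 / 3)) ^ i) :=
    summable_pow_mul_geometric_of_norm_lt_one c (by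
      rw [Real.norm_eq_abs, abs_of_pos (Real.exp_pos _)]
      exact Real.exp_lt_one_iff.2 (by norm_num))
  refine ⟨H, C * (∑' i : ℕ, (i : ℝ) ^ c * Real.exp (-(1 / 3)) ^ i) / 2, fun k m hm h => ?_⟩
  have h' := sol_norm hm h
  have hl : Real.log 2 ≤ 1 := by
    have := Real.log_two_lt_d9; linarith
  have h1 := hC k m hm (tau_lower hm h') ((tau_upper hm h').trans hl) (rough hm h')
  have h2 : HasSum (fun i : ℕ => if i < m then (1 - (i : ℝ) * (m : ℝ)⁻¹) ^ k else 0) 2 := by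
    rw [← h']
    have := hasSum_sum_of_ne_finset_zero (s := range m)
      (f := fun i : ℕ => if i < m then (1 - (i : ℝ) * (m : ℝ)⁻¹) ^ k else 0)
      (fun i hi => if_neg (by simpa using hi)) (L := SummationFilter.unconditional ℕ)
    convert this using 1
    exact Finset.sum_congr rfl fun i hi => (if_pos (Finset.mem_range.1 hi)).symm
  have h3 := h2.sub (hH (m : ℝ)⁻¹ (k * (m : ℝ)⁻¹ * (m : ℝ)⁻¹) (k * (m : ℝ)⁻¹ - Real.log 2))
  have h4 := h3.norm_le_of_bounded (hsum.hasSum.mul_left (C * ((m : ℝ)⁻¹) ^ (N + 1))) h1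
  rw [sub_sub_cancel, Real.norm_eq_abs, abs_mul, abs_of_pos (by norm_num : (0 : ℝ) < 2)] at h4
  linarith

end Pool.Agent.P.MP_8cdae7_nt
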