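import Mathlib

set_option autoImplicit false

open Filter

namespace Pool.Agent.P.MP_8cdae7_nt

/-- Bounded real sequences. -/
def BS : Subalgebra ℚ (ℕ → ℝ) where
  carrier := {s | ∃ C : ℝ, ∀ n, |s n| ≤ C}
  mul_mem' := by
    rintro a b ⟨C, hC⟩ ⟨D, hD⟩
    refine ⟨C * D, fun n => ?_⟩
    rw [Pi.mul_apply, abs_mul]
    exact mul_le_mul (hC n) (hD n) (abs_nonneg _) ((abs_nonneg _).trans (hC n))
  add_mem' := by
    rintro a b ⟨C, hC⟩ ⟨D, hD⟩
    exact ⟨C + D, fun n => (abs_add_le _ _).trans (add_le_add (hC n) (hD n))⟩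
  algebraMap_mem' r := ⟨|(r : ℝ)|, fun n => by simp⟩

/-- Sequences vanishing along the hyperfilter. -/
def ZI : Ideal BS where
  carrier := {s | ∀ᶠ n in hyperfilter ℕ, s.1 n = 0}
  add_mem' := by
    intro a b ha hb
    filter_upwards [ha, hb] with n h1 h2
    simp [h1, h2]
  zero_mem' := Eventually.of_forall fun n => rfl
  smul_mem' := by
    intro c x hx
    filter_upwards [hx] with n h1
    simp [h1]

instance : ZI.IsPrime where
  ne_top' := by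
    rw [Ideal.ne_top_iff_one]
    intro h
    obtain ⟨n, hn⟩ := Eventually.exists (f := (hyperfilter ℕ : Filter ℕ)) h
    simp at hn
  mem_or_mem' := by
    intro a b h
    refine Ultrafilter.eventually_or.1 ?_
    filter_upwards [h] with n hn
    simpa using hn

/-- The ring of finite elements of the ultrapower. -/
abbrev UO := BS ⧸ ZI

noncomputable abbrev um : BS →ₐ[ℚ] UO := Ideal.Quotient.mkₐ ℚ ZI

theorem um_eq_zero (a : BS) : um a = 0 ↔ ∀ᶠ n in hyperfilter ℕ, a.1 n = 0 :=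
  Ideal.Quotient.eq_zero_iff_mem

theorem um_dvd {a b : BS} {C : ℝ} (h : ∀ᶠ n in hyperfilter ℕ, |a.1 n| ≤ C * |b.1 n|) :
    um b ∣ um a := by
  classical
  refine ⟨um ⟨fun n => if |a.1 n| ≤ C * |b.1 n| then a.1 n / b.1 n else 0, |C|, fun n => ?_⟩, ?_⟩
  · dsimp only
    split_ifs with h1
    · rw [abs_div]
      refine div_le_of_le_mul₀ (abs_nonneg _) (abs_nonneg _) (h1.trans ?_)
      gcongr; exact le_abs_self C
    · simp
  · rw [← map_mul, ← sub_eq_zero, ← map_sub, um_eq_zero]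
    filter_upwards [h] with n hn
    show a.1 n - b.1 n * (if |a.1 n| ≤ C * |b.1 n| then a.1 n / b.1 n else 0) = 0
    rw [if_pos hn]
    by_cases hb : b.1 n = 0
    · rw [hb] at hn ⊢
      simpa using hn
    · field_simp; ring

theorem le_of_um_dvd {a b : BS} (h : um b ∣ um a) :
    ∃ C : ℝ, 0 ≤ C ∧ ∀ᶠ n in hyperfilter ℕ, |a.1 n| ≤ C * |b.1 n| := by
  obtain ⟨z, hz⟩ := h
  obtain ⟨c, rfl⟩ := Ideal.Quotient.mkₐ_surjective ℚ ZI z
  obtain ⟨C, hC⟩ := c.2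
  refine ⟨C, (abs_nonneg _).trans (hC 0), ?_⟩
  rw [← map_mul, ← sub_eq_zero, ← map_sub, um_eq_zero] at hz
  filter_upwards [hz] with n hn
  have : a.1 n = b.1 n * c.1 n := sub_eq_zero.1 hn
  rw [this, abs_mul, mul_comm]
  gcongr
  exact hC n

instance : ValuationRing UO := by
  refine ValuationRing.iff_dvd_total.2 ⟨fun x y => ?_⟩
  obtain ⟨a, rfl⟩ := Ideal.Quotient.mkₐ_surjective ℚ ZI x
  obtain ⟨b, rfl⟩ := Ideal.Quotient.mkₐ_surjective ℚ ZI y
  have : ∀ᶠ n in hyperfilter ℕ, |b.1 n| ≤ 1 * |a.1 n| ∨ |a.1 n| ≤ 1 * |b.1 n| :=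
    Eventually.of_forall fun n => by simpa using le_total _ _
  exact (Ultrafilter.eventually_or.1 this).imp um_dvd um_dvd

/-- Evaluation of a bounded sequence. -/
noncomputable def evn (n : ℕ) : BS →ₐ[ℚ] ℝ := (Pi.evalAlgHom ℚ (fun _ => ℝ) n).comp BS.val

theorem evn_apply (n : ℕ) (a : BS) : evn n a = a.1 n := rfl

theorem int_const {s : ℕ → ℤ} {B : ℝ} (h : ∀ᶠ n in hyperfilter ℕ, |(s n : ℝ)| ≤ B) :
    ∃ z : ℤ, ∀ᶠ n in hyperfilter ℕ, s n = z := by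
  have h1 : ∀ᶠ n in hyperfilter ℕ, ∃ z ∈ Set.Icc (-⌈B⌉) ⌈B⌉, s n = z := by
    filter_upwards [h] with n hn
    refine ⟨s n, abs_le.1 ?_, rfl⟩
    have : (|s n| : ℝ) ≤ (⌈B⌉ : ℝ) := hn.trans (Int.le_ceil B)
    exact_mod_cast this
  obtain ⟨z, -, hz⟩ := (Ultrafilter.eventually_exists_mem_iff (Set.finite_Icc _ _)).1 h1
  exact ⟨z, hz⟩

theorem small {m : ℕ → ℕ} (hm : ∀ n, n + 3 ≤ m n) (C δ : ℝ) (hδ : 0 < δ) :
    ∀ᶠ n in hyperfilter ℕ, C * ((m n : ℝ))⁻¹ < δ := by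
  refine Nat.hyperfilter_le_atTop ?_
  have h1 : Tendsto m atTop atTop :=
    tendsto_atTop_mono (fun n => le_trans (Nat.le_add_right n 3) (hm n)) tendsto_id
  have h2 : Tendsto (fun n => C * ((m n : ℝ))⁻¹) atTop (nhds (C * 0)) :=
    (tendsto_inv_atTop_zero.comp (tendsto_natCast_atTop_atTop.comp h1)).const_mul C
  rw [mul_zero] at h2
  exact h2.eventually (gt_mem_nhds hδ)

end Pool.Agent.P.MP_8cdae7_nt
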