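import Mathlib
import Pool.Agent.P.MP_8cdae7_nt.Abs
import Pool.Agent.P.MP_8cdae7_nt.An
import Pool.Agent.P.MP_8cdae7_nt.Ult

set_option autoImplicit false

open Filter Polynomial

namespace Pool.Agent.P.MP_8cdae7_nt

theorem cross_est {m1 m2 u1 u2 γ C : ℝ} (h1 : 3 ≤ m1) (h2 : m1 ≤ m2) (hC : 0 ≤ C)
    (hu1 : |u1 - γ * m1⁻¹| ≤ C * m1⁻¹ ^ 2) (hu2 : |u2 - γ * m2⁻¹| ≤ C * m2⁻¹ ^ 2) :
    |2 * γ * (1 - (m1 * m2⁻¹) ^ 2) + (u2 * (2 * m1 - 3) - u1 * (2 * m2 - 3)) * (m1 * m2⁻¹)| ≤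
      (3 * |γ| + 4 * C) * m1⁻¹ := by
  have hm1 : 0 < m1 := by linarith
  have hm2 : 0 < m2 := by linarith
  set x1 := m1⁻¹ with hx1
  set x2 := m2⁻¹ with hx2
  have e1 : m1 * x1 = 1 := mul_inv_cancel₀ hm1.ne'
  have e2 : m2 * x2 = 1 := mul_inv_cancel₀ hm2.ne'
  have p1 : 0 < x1 := inv_pos.2 hm1
  have p2 : 0 < x2 := inv_pos.2 hm2
  have hx : x2 ≤ x1 := inv_anti₀ hm1 h2
  set ξ := m1 * x2 with hξ
  have hξ0 : 0 < ξ := by positivity
  have hξ1 : ξ ≤ 1 := by rw [hξ]; nlinarith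
  have key : 2 * γ * (1 - ξ ^ 2) + (u2 * (2 * m1 - 3) - u1 * (2 * m2 - 3)) * ξ =
      γ * (3 * x2 * (1 - ξ)) + (u2 - γ * x2) * ((2 * m1 - 3) * ξ) -
        (u1 - γ * x1) * (2 * m1 - 3 * ξ) := by
    rw [hξ]
    linear_combination (-2 * γ + 3 * γ * x2) * e1 - 2 * u1 * m1 * e2
  rw [key]
  have b1 : |γ * (3 * x2 * (1 - ξ))| ≤ 3 * |γ| * x1 := by
    rw [abs_mul, abs_of_nonneg (by nlinarith : 0 ≤ 3 * x2 * (1 - ξ))]
    have : 3 * x2 * (1 - ξ) ≤ 3 * x1 := by nlinarith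
    nlinarith [abs_nonneg γ]
  have b2 : |(u2 - γ * x2) * ((2 * m1 - 3) * ξ)| ≤ 2 * C * x1 := by
    rw [abs_mul, abs_of_nonneg (by nlinarith : 0 ≤ (2 * m1 - 3) * ξ)]
    have h3 : (2 * m1 - 3) * ξ ≤ 2 * m1 := by nlinarith
    calc |u2 - γ * x2| * ((2 * m1 - 3) * ξ) ≤ C * x1 ^ 2 * (2 * m1) := by
          gcongr
          · nlinarith
          · exact hu2.trans (by gcongr)
      _ = 2 * C * x1 * (m1 * x1) := by ring
      _ = _ := by rw [e1, mul_one]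
  have b3 : |(u1 - γ * x1) * (2 * m1 - 3 * ξ)| ≤ 2 * C * x1 := by
    rw [abs_mul, abs_of_nonneg (by nlinarith : 0 ≤ 2 * m1 - 3 * ξ)]
    calc |u1 - γ * x1| * (2 * m1 - 3 * ξ) ≤ C * x1 ^ 2 * (2 * m1) := by
          gcongr
          · nlinarith
          · linarith
      _ = 2 * C * x1 * (m1 * x1) := by ring
      _ = _ := by rw [e1, mul_one]
  have := abs_sub (γ * (3 * x2 * (1 - ξ)) + (u2 - γ * x2) * ((2 * m1 - 3) * ξ))
    ((u1 - γ * x1) * (2 * m1 - 3 * ξ))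
  have := abs_add_le (γ * (3 * x2 * (1 - ξ))) ((u2 - γ * x2) * ((2 * m1 - 3) * ξ))
  linarith

theorem second_order {A : Type*} [CommRing A] [Algebra ℚ A] {ψ : ℕ → ℚ[X]} (h0 : ψ 0 = 0)
    (h1 : ψ 1 = C (-(3 / 2)) * X) {a x w : A} (hw : x ∣ w)
    (h : x ^ 3 ∣ w - ts ψ 3 (a + w) x) :
    x ^ 3 ∣ (-2 * w - 3 * a * x) - aeval a (C (-2) * ψ 2 - C (9 / 2) * X) * x ^ 2 := by
  obtain ⟨w1, rfl⟩ := hw
  obtain ⟨z, hz⟩ := h
  obtain ⟨y, hy⟩ := dvd_aeval_sub' (d := x) (b := a + x * w1) (b' := a) (by simp) (ψ 2)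
  simp only [ts, Finset.sum_range_succ, Finset.sum_range_zero, h0, h1, map_zero, map_mul, aeval_C,
    aeval_X, map_neg] at hz
  set r := algebraMap ℚ A (3 / 2) with hr
  have hr2 : 2 * r = 3 := by
    rw [hr, ← map_ofNat (algebraMap ℚ A) 2, ← map_mul, ← map_ofNat (algebraMap ℚ A) 3]; norm_num
  have h9 : algebraMap ℚ A (9 / 2) = 3 * r := by
    rw [hr, ← map_ofNat (algebraMap ℚ A) 3, ← map_mul]; norm_num
  have hm2 : algebraMap ℚ A (-2) = -2 := by simp [map_ofNat]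
  rw [map_sub, map_mul, map_mul, aeval_C, aeval_C, aeval_X, h9, hm2]
  refine ⟨-2 * y - 2 * z + 3 * (-r * w1 + aeval (a + x * w1) (ψ 2) + x * z), ?_⟩
  linear_combination (-2 + 3 * x) * hz - 2 * x ^ 2 * hy + (a * x + x ^ 2 * w1) * hr2

theorem mon_int (k m D u v : ℕ) (hm : 0 < m) (hu : u ≤ D) (hv : v ≤ D) :
    (m : ℝ) ^ (2 * D) * (((k : ℝ) * (m : ℝ)⁻¹) ^ u * ((m : ℝ)⁻¹) ^ v) ∈
      (Int.castRingHom ℝ).range := by
  refine ⟨k ^ u * m ^ (2 * D - u - v), ?_⟩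
  have hm0 : (m : ℝ) ≠ 0 := by positivity
  have : (m : ℝ) ^ (2 * D) = (m : ℝ) ^ (2 * D - u - v) * m ^ u * m ^ v := by
    rw [← pow_add, ← pow_add]; congr 1; omega
  rw [this]
  simp only [eq_intCast, Int.cast_mul, Int.cast_pow, Int.cast_natCast, mul_pow, inv_pow]
  field_simp

theorem sum_int {κ : Type} [Fintype κ] (c : κ → ℚ) : ∃ d : ℕ, 0 < d ∧
    ∀ (k1 m1 k2 m2 D : ℕ) (u : κ → Fin 4 → ℕ), 0 < m1 → 0 < m2 → (∀ k i, u k i ≤ D) →
    (d : ℝ) * ((m1 : ℝ) ^ (2 * D) * (m2 : ℝ) ^ (2 * D)) *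
      ∑ k, c k • Mon ((k1 : ℝ) * (m1 : ℝ)⁻¹) (m1 : ℝ)⁻¹ ((k2 : ℝ) * (m2 : ℝ)⁻¹) (m2 : ℝ)⁻¹ (u k) ∈
      (Int.castRingHom ℝ).range := by
  classical
  refine ⟨∏ k, (c k).den, Finset.prod_pos fun k _ => (c k).pos,
    fun k1 m1 k2 m2 D u h1 h2 hu => ?_⟩
  rw [Finset.mul_sum]
  refine sum_mem fun k _ => ?_
  have h3 : ((∏ k, (c k).den : ℕ) : ℝ) * (c k : ℝ) ∈ (Int.castRingHom ℝ).range := by
    rw [← Finset.prod_erase_mul _ _ (Finset.mem_univ k), Nat.cast_mul, mul_assoc]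
    refine mul_mem (natCast_mem _ _) ⟨(c k).num, ?_⟩
    rw [eq_intCast]
    exact_mod_cast (Rat.den_mul_eq_num (c k)).symm
  have h4 := mul_mem (mul_mem h3 (mon_int k1 m1 D _ _ h1 (hu k 0) (hu k 1)))
    (mon_int k2 m2 D _ _ h2 (hu k 2) (hu k 3))
  convert h4 using 1
  rw [Mon, Rat.smul_def]; ring

theorem unit_iff {O : Type*} [CommRing O] (y : O) : IsUnit y ↔ y ∣ 1 := isUnit_iff_dvd_one

theorem int_form {O : Type*} [CommRing O] [Algebra ℚ O] {a e ξ : O} (he : ¬ IsUnit e) (c : ℚ[X])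
    (hc : c.coeff 1 ≠ 0) (n : ℤ) (hn : n ≠ 0) (h : e ∣ aeval a c * (1 - ξ ^ 2) + n * ξ) :
    ∃ (c : ℤ[X]) (n : ℤ), c.coeff 1 ≠ 0 ∧ n ≠ 0 ∧ ¬ IsUnit (aeval a c * (1 - ξ ^ 2) - n * ξ) := by
  obtain ⟨M, hM0, g, hg⟩ := exists_int_mul c
  refine ⟨g, -(M * n), ?_, neg_ne_zero.2 (mul_ne_zero hM0 hn), fun hu => he ?_⟩
  · intro h0
    have := congrArg (fun f : ℚ[X] => f.coeff 1) hg
    simp only [coeff_map, h0, coeff_C_mul, map_zero] at this
    have h5 : (M : ℚ) ≠ 0 := by exact_mod_cast hM0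
    exact mul_ne_zero h5 hc this.symm
  · refine isUnit_of_dvd_unit ?_ hu
    rw [← aeval_int_map, hg, map_mul, aeval_C, map_intCast]
    convert h.mul_left (M : O) using 1
    push_cast
    ring

theorem um_isUnit (y : BS) : IsUnit (um y) ↔ um y ∣ um 1 := by
  rw [map_one]; exact unit_iff (O := UO) _

theorem no_seq (A : ℕ) (k1 m1 k2 m2 : ℕ → ℕ) (h1 : ∀ n, n + 3 ≤ m1 n) (h2 : ∀ n, m1 n < m2 n)
    (h3 : ∀ n, m2 n ≤ m1 n ^ A) (s1 : ∀ n, ∑ i ∈ Finset.Ico 1 (m1 n), i ^ k1 n = m1 n ^ k1 n)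
    (s2 : ∀ n, ∑ i ∈ Finset.Ico 1 (m2 n), i ^ k2 n = m2 n ^ k2 n) : False := by
  have a1 : ∀ n, 3 ≤ m1 n := fun n => by have := h1 n; omega
  have a2 : ∀ n, 3 ≤ m2 n := fun n => by have := h1 n; have := h2 n; omega
  have r1 : ∀ n, (3 : ℝ) ≤ m1 n := fun n => by exact_mod_cast a1 n
  have r2 : ∀ n, (3 : ℝ) ≤ m2 n := fun n => by exact_mod_cast a2 n
  have r3 : ∀ n, (m1 n : ℝ) + 1 ≤ m2 n := fun n => by exact_mod_cast h2 n
  have p1 : ∀ n, (0 : ℝ) < (m1 n : ℝ)⁻¹ := fun n => inv_pos.2 (by linarith [r1 n])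
  have p2 : ∀ n, (0 : ℝ) < (m2 n : ℝ)⁻¹ := fun n => inv_pos.2 (by linarith [r2 n])
  have q1 : ∀ n, (m1 n : ℝ)⁻¹ ≤ 1 := fun n => inv_le_one_of_one_le₀ (by linarith [r1 n])
  have q2 : ∀ n, (m2 n : ℝ)⁻¹ ≤ 1 := fun n => inv_le_one_of_one_le₀ (by linarith [r2 n])
  have q3 : ∀ n, (m1 n : ℝ) * (m2 n : ℝ)⁻¹ ≤ 1 := fun n => by
    rw [← div_eq_mul_inv, div_le_one (by linarith [r2 n])]; linarith [r3 n]
  have b1 := fun n => rough (a1 n) (sol_norm (a1 n) (s1 n))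
  have b2 := fun n => rough (a2 n) (sol_norm (a2 n) (s2 n))
  set α := Real.log 2 with hα
  let a : BS := ⟨fun _ => α, |α|, fun _ => le_rfl⟩
  let e : BS := ⟨fun n => (m1 n : ℝ)⁻¹, 1, fun n => by
    rw [abs_of_pos (p1 n)]; exact q1 n⟩
  let ξ : BS := ⟨fun n => (m1 n : ℝ) * (m2 n : ℝ)⁻¹, 1, fun n => by
    rw [abs_of_nonneg (by have := p2 n; positivity)]; exact q3 n⟩
  let w1 : BS := ⟨fun n => (k1 n : ℝ) * (m1 n : ℝ)⁻¹ - α, 28, fun n =>
    (b1 n).trans (by linarith [q1 n])⟩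
  let w2 : BS := ⟨fun n => (k2 n : ℝ) * (m2 n : ℝ)⁻¹ - α, 28, fun n =>
    (b2 n).trans (by linarith [q2 n])⟩
  have ea : ∀ n, evn n a = α := fun _ => rfl
  have ee : ∀ n, evn n e = (m1 n : ℝ)⁻¹ := fun _ => rfl
  have eξ : ∀ n, evn n ξ = (m1 n : ℝ) * (m2 n : ℝ)⁻¹ := fun _ => rfl
  have ex : ∀ n, evn n (e * ξ) = (m2 n : ℝ)⁻¹ := fun n => by
    rw [map_mul, ee, eξ, inv_mul_cancel_left₀ (by linarith [r1 n])]
  have ew1 : ∀ n, evn n w1 = (k1 n : ℝ) * (m1 n : ℝ)⁻¹ - α := fun _ => rfl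
  have ew2 : ∀ n, evn n w2 = (k2 n : ℝ) * (m2 n : ℝ)⁻¹ - α := fun _ => rfl
  have ha : ∀ f : ℚ[X], f ≠ 0 → IsUnit (aeval (um a) f) := by
    intro f hf
    have h0 : aeval α f ≠ 0 := fun h => log_two_transcendental ⟨f, hf, h⟩
    rw [aeval_algHom_apply, um_isUnit]
    refine um_dvd (C := |aeval α f|⁻¹) (Eventually.of_forall fun n => ?_)
    rw [← evn_apply, ← evn_apply, map_one, ← aeval_algHom_apply, ea,
      inv_mul_cancel₀ (abs_ne_zero.2 h0), abs_one]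
  have he : ¬ IsUnit (um e) := by
    rw [um_isUnit]
    intro h
    obtain ⟨C, -, hC⟩ := le_of_um_dvd h
    obtain ⟨n, hn1, hn2⟩ := (hC.and (small h1 C 1 one_pos)).exists
    rw [← evn_apply, ← evn_apply, map_one, ee, abs_one, abs_of_pos (p1 n)] at hn1
    linarith
  have he0 : um e ≠ 0 := by
    rw [Ne, um_eq_zero]
    intro h
    obtain ⟨n, hn⟩ := h.exists
    exact (p1 n).ne' hn
  have hw1 : um e ∣ um w1 := um_dvd (C := 28) (Eventually.of_forall fun n => by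
    rw [← evn_apply, ← evn_apply, ee, ew1, abs_of_pos (p1 n)]; exact b1 n)
  have hw2 : um e * um ξ ∣ um w2 := by
    rw [← map_mul]
    exact um_dvd (C := 28) (Eventually.of_forall fun n => by
      rw [← evn_apply, ← evn_apply, ex, ew2, abs_of_pos (p2 n)]; exact b2 n)
  have hE : ∀ N, ∃ H, um e ^ (N + 1) ∣ um w1 - HH N H (um e) ((um a + um w1) * um e) (um w1) ∧
      (um e * um ξ) ^ (N + 1) ∣
        um w2 - HH N H (um e * um ξ) ((um a + um w2) * (um e * um ξ)) (um w2) := by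
    intro N
    obtain ⟨H, C, hC⟩ := expansion N
    refine ⟨H, ?_, ?_⟩
    · rw [← map_add, ← map_mul, ← map_HH, ← map_sub, ← map_pow]
      refine um_dvd (C := C) (Eventually.of_forall fun n => ?_)
      rw [← evn_apply, ← evn_apply, map_sub, map_HH, map_mul, map_add, map_pow, ee, ea, ew1,
        add_sub_cancel, abs_of_pos (pow_pos (p1 n) _)]
      exact hC _ _ (a1 n) (s1 n)
    · rw [← map_mul, ← map_add, ← map_mul, ← map_HH, ← map_sub, ← map_pow]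
      refine um_dvd (C := C) (Eventually.of_forall fun n => ?_)
      rw [← evn_apply, ← evn_apply, map_sub, map_HH, map_mul _ (a + w2), map_add, map_pow, ex, ea,
        ew2, add_sub_cancel, abs_of_pos (pow_pos (p2 n) _)]
      exact hC _ _ (a2 n) (s2 n)
  refine abs_main ha he he0 hw1 hw2 hE (2 * (1 + A)) (fun D κ _ u hu c h => ?_) ?_
  · have e1 : ∑ k, c k • Mon (um a + um w1) (um e) (um a + um w2) (um e * um ξ) (u k) =
        um (∑ k, c k • Mon (a + w1) e (a + w2) (e * ξ) (u k)) := by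
      simp only [Mon, map_sum, map_smul, map_mul, map_pow, map_add]
    rw [e1, ← map_pow] at h
    rw [e1, um_eq_zero]
    obtain ⟨C, hC0, hC⟩ := le_of_um_dvd h
    obtain ⟨d, hd0, hd⟩ := sum_int c
    filter_upwards [hC, small h1 (d * C) 1 one_pos] with n hn1 hn2
    have e2 : evn n (∑ k, c k • Mon (a + w1) e (a + w2) (e * ξ) (u k)) =
        ∑ k, c k • Mon ((k1 n : ℝ) * (m1 n : ℝ)⁻¹) (m1 n : ℝ)⁻¹ ((k2 n : ℝ) * (m2 n : ℝ)⁻¹)
          (m2 n : ℝ)⁻¹ (u k) := by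
      rw [map_sum]
      refine Finset.sum_congr rfl fun k _ => ?_
      rw [map_smul, Mon, Mon, map_mul, map_mul, map_mul, map_pow, map_pow, map_pow, map_pow, ex,
        map_add, map_add, ea, ee, ew1, ew2, add_sub_cancel, add_sub_cancel]
    rw [← evn_apply, ← evn_apply, map_pow, ee, e2, abs_of_pos (pow_pos (p1 n) _)] at hn1
    rw [← evn_apply, e2]
    obtain ⟨z, hz⟩ := hd (k1 n) (m1 n) (k2 n) (m2 n) D u (by have := a1 n; omega)
      (by have := a2 n; omega) hu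
    set G := ∑ k, c k • Mon ((k1 n : ℝ) * (m1 n : ℝ)⁻¹) (m1 n : ℝ)⁻¹ ((k2 n : ℝ) * (m2 n : ℝ)⁻¹)
          (m2 n : ℝ)⁻¹ (u k)
    have hm1 : (0 : ℝ) < m1 n := by linarith [r1 n]
    have hm2 : (0 : ℝ) < m2 n := by linarith [r2 n]
    have hd' : (0 : ℝ) < d := by exact_mod_cast hd0
    have hlt : |(z : ℝ)| < 1 := by
      rw [eq_intCast] at hz
      rw [hz, abs_mul, abs_of_pos (by positivity)]
      have h4 : (m2 n : ℝ) ≤ (m1 n : ℝ) ^ A := by exact_mod_cast h3 n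
      calc (d : ℝ) * ((m1 n : ℝ) ^ (2 * D) * (m2 n : ℝ) ^ (2 * D)) * |G|
          ≤ (d : ℝ) * ((m1 n : ℝ) ^ (2 * D) * ((m1 n : ℝ) ^ A) ^ (2 * D)) *
            (C * (m1 n : ℝ)⁻¹ ^ (2 * (1 + A) * D + 1)) := by gcongr
        _ = d * C * (m1 n : ℝ)⁻¹ * ((m1 n : ℝ) * (m1 n : ℝ)⁻¹) ^ (2 * (1 + A) * D) := by
            rw [mul_pow, ← pow_mul]; ring
        _ < 1 := by rw [mul_inv_cancel₀ hm1.ne', one_pow, mul_one]; exact hn2
    have hz0 : z = 0 := by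
      have : |z| < 1 := by exact_mod_cast hlt
      exact Int.abs_lt_one_iff.1 this
    rw [hz0, map_zero] at hz
    exact (mul_eq_zero.1 hz.symm).resolve_left (by positivity)
  · by_cases hξ : IsUnit (um ξ)
    swap
    · exact Or.inl hξ
    right
    rw [um_isUnit] at hξ
    obtain ⟨C', hC0', hC'⟩ := le_of_um_dvd hξ
    obtain ⟨H, hH1, hH2⟩ := hE 2
    obtain ⟨ψ, hψ0, hψd, hψc0, hψ1, hψ⟩ := exists_A 2 H
    have hψ1' : ψ 1 = C (-(3 / 2)) * X := by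
      rw [eq_X_add_C_of_natDegree_le_one (hψd 1), hψc0, hψ1 0 (by norm_num), lam_one]; simp
    set c : ℚ[X] := C (-2) * ψ 2 - C (9 / 2) * X with hc
    have hc1 : c.coeff 1 = 25 / 6 := by
      rw [hc, coeff_sub, coeff_C_mul, coeff_C_mul, hψ1 1 (by norm_num), lam_two, coeff_X_one]
      norm_num
    set γ := aeval α c with hγ
    have hγ0 : γ ≠ 0 := fun h => log_two_transcendental ⟨c, by
      intro h0; rw [h0] at hc1; norm_num at hc1, h⟩
    have hso : ∀ (x w : BS) (k m : ℕ → ℕ), (∀ n, (3 : ℝ) ≤ m n) → (∀ n, evn n x = (m n : ℝ)⁻¹) →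
        (∀ n, evn n w = (k n : ℝ) * (m n : ℝ)⁻¹ - α) → um x ∣ um w →
        um x ^ (2 + 1) ∣ um w - HH 2 H (um x) ((um a + um w) * um x) (um w) →
        ∃ C : ℝ, 0 ≤ C ∧ ∀ᶠ n in hyperfilter ℕ,
          |(α * (2 * m n - 3) - 2 * k n) - γ * (m n : ℝ)⁻¹| ≤ C * (m n : ℝ)⁻¹ ^ 2 := by
      intro x w k m hm hx hw hd hH
      have t1 := second_order hψ0 hψ1' hd (hψ UO _ _ _ hd hH)
      have t2 : (-2 * um w - 3 * um a * um x) - aeval (um a) c * um x ^ 2 =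
          um ((-2 * w - 3 * a * x) - aeval a c * x ^ 2) := by
        simp only [map_sub, map_mul, map_neg, map_ofNat, map_pow, aeval_algHom_apply]
      rw [← hc, t2, ← map_pow] at t1
      obtain ⟨C, hC0, hC⟩ := le_of_um_dvd t1
      refine ⟨C, hC0, ?_⟩
      filter_upwards [hC] with n hn
      have hm0 : (0 : ℝ) < m n := by linarith [hm n]
      rw [← evn_apply, ← evn_apply] at hn
      simp only [map_sub, map_mul, map_neg, map_ofNat, map_pow, ← aeval_algHom_apply, hx, hw,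
        ea, ← hγ] at hn
      have t3 : -2 * ((k n : ℝ) * (m n : ℝ)⁻¹ - α) - 3 * α * (m n : ℝ)⁻¹ - γ * (m n : ℝ)⁻¹ ^ 2 =
          ((α * (2 * m n - 3) - 2 * k n) - γ * (m n : ℝ)⁻¹) * (m n : ℝ)⁻¹ := by
        field_simp; ring
      rw [t3, abs_mul, abs_of_pos (inv_pos.2 hm0), abs_of_pos (pow_pos (inv_pos.2 hm0) 3), pow_succ,
        ← mul_assoc] at hn
      exact le_of_mul_le_mul_right hn (inv_pos.2 hm0)
    obtain ⟨C1, hC10, hC1⟩ := hso e w1 k1 m1 r1 ee ew1 hw1 hH1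
    obtain ⟨C2, hC20, hC2⟩ := hso (e * ξ) w2 k2 m2 r2 ex ew2 (by rwa [map_mul])
      (by rwa [map_mul])
    set K := 3 * |γ| + 4 * (C1 + C2) with hK
    let nn : ℕ → ℤ := fun n => 2 * k1 n * (2 * m2 n - 3) - 2 * k2 n * (2 * m1 n - 3)
    have hcr : ∀ᶠ n in hyperfilter ℕ, |2 * γ * (1 - ((m1 n : ℝ) * (m2 n : ℝ)⁻¹) ^ 2) +
        (nn n : ℝ) * ((m1 n : ℝ) * (m2 n : ℝ)⁻¹)| ≤ K * (m1 n : ℝ)⁻¹ := by
      filter_upwards [hC1, hC2] with n t1 t2
      have := cross_est (r1 n) (by linarith [r3 n]) (add_nonneg hC10 hC20)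
        (t1.trans (by gcongr; linarith)) (t2.trans (by gcongr; linarith))
      convert this using 4
      simp only [nn]; push_cast; ring
    have hξl : ∀ᶠ n in hyperfilter ℕ, 1 ≤ C' * ((m1 n : ℝ) * (m2 n : ℝ)⁻¹) := by
      filter_upwards [hC'] with n hn
      rw [← evn_apply, ← evn_apply, map_one, eξ, abs_one,
        abs_of_nonneg (by have := p2 n; positivity)] at hn
      exact hn
    have hK0 : 0 ≤ K := by positivity
    obtain ⟨n0, hn0⟩ := int_const (s := nn) (B := C' * (K + 2 * |γ|)) (by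
      filter_upwards [hcr, hξl] with n t1 t2
      set y := (m1 n : ℝ) * (m2 n : ℝ)⁻¹
      have y0 : 0 ≤ y := by have := p2 n; positivity
      have y1 : y ≤ 1 := q3 n
      have t3 : |2 * γ * (1 - y ^ 2)| ≤ 2 * |γ| := by
        rw [abs_mul, abs_mul, abs_of_nonneg (by nlinarith : 0 ≤ 1 - y ^ 2), abs_two]
        nlinarith [abs_nonneg γ, sq_nonneg y]
      have t4 : |(nn n : ℝ)| * y ≤ K + 2 * |γ| := by
        have t5 := abs_sub (2 * γ * (1 - y ^ 2) + (nn n : ℝ) * y) (2 * γ * (1 - y ^ 2))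
        rw [add_sub_cancel_left, abs_mul, abs_of_nonneg y0] at t5
        have : K * (m1 n : ℝ)⁻¹ ≤ K := mul_le_of_le_one_right hK0 (q1 n)
        linarith
      calc |(nn n : ℝ)| ≤ |(nn n : ℝ)| * (C' * y) := le_mul_of_one_le_right (abs_nonneg _) t2
        _ = C' * (|(nn n : ℝ)| * y) := by ring
        _ ≤ _ := by gcongr)
    by_cases hz : n0 = 0
    · exfalso
      have hγp : 0 < |γ| := abs_pos.2 hγ0
      obtain ⟨Δ, hΔ⟩ := int_const (s := fun n => (m2 n : ℤ) - m1 n) (B := C' * K / |γ|) (by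
        filter_upwards [hcr, hξl, hn0] with n t1 t2 t3
        rw [t3, hz, Int.cast_zero, zero_mul, add_zero] at t1
        have hm1 : (0 : ℝ) < m1 n := by linarith [r1 n]
        have hm2 : (0 : ℝ) < m2 n := by linarith [r2 n]
        set y := (m1 n : ℝ) * (m2 n : ℝ)⁻¹ with hy
        have y0 : 0 ≤ y := by have := p2 n; positivity
        have y1 : y ≤ 1 := q3 n
        rw [abs_mul, abs_mul, abs_of_nonneg (by nlinarith : 0 ≤ 1 - y ^ 2), abs_two] at t1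
        have t4 : |γ| * (1 - y) ≤ K * (m1 n : ℝ)⁻¹ := by
          have : |γ| * (1 - y) ≤ 2 * |γ| * (1 - y ^ 2) := by
            nlinarith [mul_nonneg (mul_nonneg hγp.le (sub_nonneg.2 y1)) y0,
              mul_nonneg hγp.le (sub_nonneg.2 y1)]
          linarith
        have t5 : ((m2 n : ℝ) - m1 n) * y = (1 - y) * m1 n := by
          rw [hy]; field_simp
        push_cast
        rw [abs_of_nonneg (by linarith [r3 n]), le_div_iff₀ hγp]
        have t6 : |γ| * (1 - y) * m1 n ≤ K := by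
          calc |γ| * (1 - y) * m1 n ≤ K * (m1 n : ℝ)⁻¹ * m1 n := by gcongr
            _ = K := by field_simp
        calc ((m2 n : ℝ) - m1 n) * |γ| ≤ ((m2 n : ℝ) - m1 n) * |γ| * (C' * y) :=
              le_mul_of_one_le_right (mul_nonneg (by linarith [r3 n]) hγp.le) t2
          _ = C' * (|γ| * (1 - y) * m1 n) := by linear_combination C' * |γ| * t5
          _ ≤ _ := by gcongr)
      have hclose : ∀ᶠ n in hyperfilter ℕ, |((k2 n : ℝ) - k1 n) - α * Δ| ≤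
          (2 * |γ| + C1 + C2) * (m1 n : ℝ)⁻¹ := by
        filter_upwards [hC1, hC2, hΔ] with n t1 t2 t3
        have t4 : (m2 n : ℝ) - m1 n = Δ := by exact_mod_cast t3
        have t5 : (m2 n : ℝ)⁻¹ ≤ (m1 n : ℝ)⁻¹ := inv_anti₀ (by linarith [r1 n]) (by linarith [r3 n])
        have t6 : C1 * (m1 n : ℝ)⁻¹ ^ 2 ≤ C1 * (m1 n : ℝ)⁻¹ := by
          gcongr; nlinarith [p1 n, q1 n]
        have t7 : C2 * (m2 n : ℝ)⁻¹ ^ 2 ≤ C2 * (m1 n : ℝ)⁻¹ := by
          gcongr; nlinarith [p2 n, q2 n]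
        have t8 : |γ * (m1 n : ℝ)⁻¹| = |γ| * (m1 n : ℝ)⁻¹ := by rw [abs_mul, abs_of_pos (p1 n)]
        have t9 : |γ * (m2 n : ℝ)⁻¹| ≤ |γ| * (m1 n : ℝ)⁻¹ := by
          rw [abs_mul, abs_of_pos (p2 n)]; gcongr
        have u1 := abs_le.1 (t1.trans t6)
        have u2 := abs_le.1 (t2.trans t7)
        have u3 := abs_le.1 t8.le
        have u4 := abs_le.1 t9
        have u5 : 0 ≤ (2 * |γ| + C1 + C2) * (m1 n : ℝ)⁻¹ := by have := p1 n; positivity
        rw [← t4, abs_le]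
        constructor <;> nlinarith
      obtain ⟨κ, hκ⟩ := int_const (s := fun n => (k2 n : ℤ) - k1 n)
        (B := |α * Δ| + (2 * |γ| + C1 + C2)) (by
          filter_upwards [hclose] with n t1
          push_cast
          have t2 : (2 * |γ| + C1 + C2) * (m1 n : ℝ)⁻¹ ≤ 2 * |γ| + C1 + C2 :=
            mul_le_of_le_one_right (by positivity) (q1 n)
          have := abs_add_le (((k2 n : ℝ) - k1 n) - α * Δ) (α * Δ)
          rw [sub_add_cancel] at this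
          linarith)
      have hΔ0 : Δ ≠ 0 := by
        obtain ⟨n, hn⟩ := hΔ.exists
        have := h2 n
        omega
      have hne : (κ : ℝ) - α * Δ ≠ 0 := by
        intro h
        refine log_two_transcendental.irrational ⟨(κ : ℚ) / Δ, ?_⟩
        have : (Δ : ℝ) ≠ 0 := by exact_mod_cast hΔ0
        push_cast
        rw [div_eq_iff this]
        linarith
      obtain ⟨n, ⟨t1, t2⟩, t3⟩ := ((hclose.and hκ).and
        (small h1 (2 * |γ| + C1 + C2) _ (abs_pos.2 hne))).exists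
      have t4 : (k2 n : ℝ) - k1 n = κ := by exact_mod_cast t2
      rw [t4] at t1
      linarith
    · refine int_form (O := UO) he (C 2 * c) (by rw [coeff_C_mul, hc1]; norm_num) n0 hz ?_
      have t2 : aeval (um a) (C 2 * c) * (1 - um ξ ^ 2) + (n0 : UO) * um ξ =
          um (aeval a (C 2 * c) * (1 - ξ ^ 2) + (n0 : BS) * ξ) := by
        simp only [map_sub, map_add, map_mul um, map_pow, map_one, map_intCast um,
          aeval_algHom_apply]
      rw [t2]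
      refine um_dvd (C := K) ?_
      filter_upwards [hcr, hn0] with n t1 t3
      rw [← evn_apply, ← evn_apply, map_add (evn n), map_mul (evn n), map_mul (evn n),
        map_sub (evn n), map_pow (evn n), map_one,
        map_intCast, ← aeval_algHom_apply, ea, eξ, ee, abs_of_pos (p1 n), map_mul,
        aeval_C, ← hγ, ← t3]
      simpa only [eq_ratCast, Rat.cast_ofNat] using t1

end Pool.Agent.P.MP_8cdae7_nt
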